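import Pool.Agent.H51BS.Infinite

/-!
# Finite generation in negative weights over finite fields
-/

set_option autoImplicit false

namespace Pool.Agent.H51BS

open Pool.Agent.Q26.TL Polynomial IntermediateField CategoryTheory AlgebraicGeometry

/-- the transcendence degree of `F(t)` -/
theorem trdeg_ratFunc (P F : Type) [Field P] [Field F] [Algebra P F] :
    Algebra.trdeg P (RatFunc F) = Algebra.trdeg P F + 1 := by
  have h1 := _root_.trdeg_add_eq P F (A := RatFunc F)
  have h2 := _root_.trdeg_add_eq F F[X] (A := RatFunc F)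
  have h3 : Algebra.trdeg F[X] (RatFunc F) = 0 := by
    rw [_root_.trdeg_eq_zero_iff]
    exact IsLocalization.isAlgebraic _ (nonZeroDivisors _)
  rw [h3, add_zero, Polynomial.trdeg_of_isDomain] at h2
  rw [← h1, ← h2]

theorem essFiniteType_ratFunc (P F : Type) [Field P] [Field F] [Algebra P F]
    [Algebra.EssFiniteType P F] : Algebra.EssFiniteType P (RatFunc F) := by
  have h1 : Algebra.EssFiniteType F[X] (RatFunc F) :=
    Algebra.EssFiniteType.of_isLocalization _ (nonZeroDivisors F[X])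
  have h2 : Algebra.EssFiniteType F F[X] := inferInstance
  have h3 : Algebra.EssFiniteType F (RatFunc F) := Algebra.EssFiniteType.comp F F[X] (RatFunc F)
  exact Algebra.EssFiniteType.comp P F (RatFunc F)

/-- Multiplication by `m` transcendental units, with the transcendence degree. -/
theorem exists_units_trdeg (M : Theory) {P : Type} [Field P] (m : ℕ) :
    ∀ (i n : ℤ) (F : Type) [Field F] [Algebra P F] (x : V (M.H i n) F), x ≠ 0 →
      ∃ (F' : Type) (_ : Field F') (_ : Algebra P F'),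
        Algebra.trdeg P F' = Algebra.trdeg P F + m ∧
        ∃ y : V (M.H (i + m) (n + m)) F', y ≠ 0 := by
  induction m with
  | zero =>
    intro i n F _ _ x hx
    have h3 : i + ((0 : ℕ) : ℤ) = i := by simp
    have h4 : n + ((0 : ℕ) : ℤ) = n := by simp
    rw [h3, h4]
    exact ⟨F, inferInstance, inferInstance, by simp, x, hx⟩
  | succ m ih =>
    intro i n F _ _ x hx
    obtain ⟨μ, hμ⟩ := M.units i n F
    have h1 : μ x ≠ 0 := fun h => hx ((injective_iff_map_eq_zero _).1 hμ _ h)
    obtain ⟨F', i1, i2, h5, h2⟩ := ih (i + 1) (n + 1) (RatFunc F) (μ x) h1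
    have h3 : i + 1 + (m : ℤ) = i + ((m + 1 : ℕ) : ℤ) := by push_cast; ring
    have h4 : n + 1 + (m : ℤ) = n + ((m + 1 : ℕ) : ℤ) := by push_cast; ring
    rw [h3, h4] at h2
    refine ⟨F', i1, i2, ?_, h2⟩
    rw [h5, trdeg_ratFunc]
    push_cast
    ring

/-- classes on fields extend to classes on purely transcendental extensions -/
theorem exists_extend {H : Fun} (good : Good H) {P : Type} [Field P] (m : ℕ) :
    ∀ (F : Type) [Field F] [Algebra P F] [Algebra.EssFiniteType P F] (x : V H F), x ≠ 0 →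
      ∃ (F' : Type) (_ : Field F') (_ : Algebra P F'),
        Algebra.EssFiniteType P F' ∧ Algebra.trdeg P F' = Algebra.trdeg P F + m ∧
        ∃ y : V H F', y ≠ 0 := by
  induction m with
  | zero =>
    intro F _ _ _ x hx
    exact ⟨F, inferInstance, inferInstance, inferInstance, by simp, x, hx⟩
  | succ m ih =>
    intro F _ _ _ x hx
    have h0 := essFiniteType_ratFunc P F
    obtain ⟨F', i1, i2, i3, h5, h2⟩ := ih (RatFunc F) (mp H (algebraMap F (RatFunc F)) x)
      (fun h => hx ((injective_iff_map_eq_zero _).1 (good.inj _) _ h))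
    refine ⟨F', i1, i2, i3, ?_, h2⟩
    rw [h5, trdeg_ratFunc]
    push_cast
    ring

/-- every nonzero class comes from a nonzero class on a finitely generated subfield -/
theorem exists_subfield {H : Fun} (good : Good H) (P F : Type) [Field P] [Field F]
    [Algebra P F] (x : V H F) (hx : x ≠ 0) :
    ∃ (K : Type) (_ : Field K) (_ : Algebra P K), Algebra.EssFiniteType P K ∧
      Algebra.trdeg P K ≤ Algebra.trdeg P F ∧ ∃ y : V H K, y ≠ 0 := by
  obtain ⟨s, y, hy⟩ := good.fin1 F x
  let K := IntermediateField.adjoin P (s : Set F)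
  have hK : Algebra.EssFiniteType P K := by
    rw [IntermediateField.essFiniteType_iff]
    exact ⟨s, rfl⟩
  have hsK : ∀ z ∈ s, z ∈ K := fun z hz => IntermediateField.subset_adjoin P _ hz
  have hle : Subring.closure (s : Set F) ≤ K.toSubring := by
    rw [Subring.closure_le]
    exact hsK
  let ι : Subring.closure (s : Set F) →+* K := Subring.inclusion hle
  have hy' : mp H ι y ≠ 0 := by
    intro h
    apply hx
    rw [← hy]
    have h1 := congrArg (mp H (algebraMap K F)) h
    rw [mp_mp, map_zero] at h1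
    exact h1
  exact ⟨K, inferInstance, inferInstance, hK, trdeg_le_of_injective K.val K.val.injective,
    mp H ι y, hy'⟩

/-- `Spec 𝔽_p` -/
noncomputable abbrev SpecFp (p : ℕ) [Fact p.Prime] : Scheme.{0} := Spec (.of (ZMod p))

/-- separated and of finite type over `𝔽_p` -/
def IsFiniteTypeOver (p : ℕ) [Fact p.Prime] (X : Scheme.{0}) (f : X ⟶ SpecFp p) : Prop :=
  IsSeparated f ∧ LocallyOfFiniteType f ∧ QuasiCompact f

/-- the structure of an algebra over `𝔽_p` on the residue field of a point -/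
noncomputable abbrev residueAlgebra (p : ℕ) [Fact p.Prime] (X : Scheme.{0}) (f : X ⟶ SpecFp p)
    (x : X) : Algebra (ZMod p) (X.residueField x) :=
  (Spec.preimage (X.fromSpecResidueField x ≫ f)).hom.toAlgebra

/-- the residue field of the point `x` has transcendence degree `s` over `𝔽_p` -/
def PointDegree (p : ℕ) [Fact p.Prime] (X : Scheme.{0}) (f : X ⟶ SpecFp p) (x : X) (s : ℕ) :
    Prop :=
  @Algebra.trdeg (ZMod p) (X.residueField x) _ _ (residueAlgebra p X f x) = s

/-- there is a nonzero class in `Hʲ(κ(x), ℚ(m))` -/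
def ClassAt (H : ℤ → ℤ → Fun) (X : Scheme.{0}) (x : X) (j m : ℤ) : Prop :=
  ∃ z : V (H j m) (X.residueField x), z ≠ 0

/-- Consequence of the niveau spectral sequence (`n < 0`): if `X` is separated and of finite type
over `𝔽_p` and `Hⁱ(X, ℚᶜ(n)) ≠ 0`, then `Hʲ(κ(x), ℚ(s-n)) ≠ 0` for some `j` and some point `x`
of `X` with residue field of transcendence degree `s ≤ dim X`. -/
def Niveau (H : ℤ → ℤ → Fun) (HQ : Scheme.{0} → ℤ → ℤ → ModuleCat.{0} ℚ) : Prop :=
  ∀ (p : ℕ) [Fact p.Prime] (X : Scheme.{0}) (f : X ⟶ SpecFp p), IsFiniteTypeOver p X f →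
    ∀ n i : ℤ, n < 0 → ∀ y : HQ X n i, y ≠ 0 →
      ∃ (x : X) (s : ℕ) (j : ℤ), PointDegree p X f x s ∧ s ≤ topologicalKrullDim X ∧
        ClassAt H X x j (s - n)

/-- Passage to the generic point (`n < 0`): if `E` is a finitely generated field of transcendence
degree `s` over `𝔽_p` and `Hʲ(E, ℚ(s-n)) ≠ 0`, then `Hⁱ(X, ℚᶜ(n)) ≠ 0` for some `i` and some `X`,
separated, of finite type over `𝔽_p` and of dimension at most `s`. -/
def Generic (H : ℤ → ℤ → Fun) (HQ : Scheme.{0} → ℤ → ℤ → ModuleCat.{0} ℚ) : Prop :=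
  ∀ (p : ℕ) [Fact p.Prime] (E : Type) [Field E] [Algebra (ZMod p) E]
    [Algebra.EssFiniteType (ZMod p) E] (s : ℕ), Algebra.trdeg (ZMod p) E = s →
    ∀ n j : ℤ, n < 0 → ∀ z : V (H j (s - n)) E, z ≠ 0 →
      ∃ (X : Scheme.{0}) (f : X ⟶ SpecFp p), IsFiniteTypeOver p X f ∧
        topologicalKrullDim X ≤ s ∧ ∃ (i : ℤ) (y : HQ X n i), y ≠ 0

/-- For `X` separated and of finite type over `𝔽_p` and `n < 0` there is a surjective map with
finite kernel from `Hⁱ(X_et, ℤᶜ(n))` to `Hⁱ(X, ℚᶜ(n))` (Deligne, Gabber, Geisser–Levine). -/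
def FiniteTorsion (HZ : Scheme.{0} → ℤ → ℤ → AddCommGrpCat.{0})
    (HQ : Scheme.{0} → ℤ → ℤ → ModuleCat.{0} ℚ) : Prop :=
  ∀ (p : ℕ) [Fact p.Prime] (X : Scheme.{0}) (f : X ⟶ SpecFp p), IsFiniteTypeOver p X f →
    ∀ n i : ℤ, n < 0 → ∃ q : HZ X n i →+ HQ X n i, Function.Surjective q ∧ Finite q.ker

/-- Quillen: `Hʲ(k, ℚ(m)) = 0` for `m ≥ 1` and `k` an algebraic closure of `𝔽_p` -/
def Quillen (H : ℤ → ℤ → Fun) : Prop :=
  ∀ (p : ℕ) [Fact p.Prime] (k : Type) [Field k] [Algebra (ZMod p) k] [IsAlgClosure (ZMod p) k]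
    (j m : ℤ), 1 ≤ m → ∀ x : V (H j m) k, x = 0

/-- Rational motivic cohomology of rings (`Theory`), the groups `HZ X n i = Hⁱ(X_et, ℤᶜ(n))` and
`HQ X n i = Hⁱ(X, ℚᶜ(n))` of schemes, and the published facts about them. -/
structure CycleTheory extends Theory where
  HZ : Scheme.{0} → ℤ → ℤ → AddCommGrpCat.{0}
  HQ : Scheme.{0} → ℤ → ℤ → ModuleCat.{0} ℚ
  localization : Localization H
  quillen : Quillen H
  niveau : Niveau H HQ
  generic : Generic H HQ
  finiteTorsion : FiniteTorsion HZ HQ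

variable (M : CycleTheory) (p : ℕ) [Fact p.Prime] (n : ℤ) (d : ℕ)

/-- `Hⁱ(X_et, ℤᶜ(n))` is finitely generated for all `i` and all schemes `X`, separated, of finite
type and of dimension at most `d` over `𝔽_p` -/
def AllFG : Prop :=
  ∀ (X : Scheme.{0}) (f : X ⟶ SpecFp p), IsFiniteTypeOver p X f → topologicalKrullDim X ≤ d →
    ∀ i : ℤ, AddGroup.FG (M.HZ X n i)

/-- `Hⁱ(X_et, ℤᶜ(n))` is finite for all `i` and all schemes `X`, separated, of finite type and of
dimension at most `d` over `𝔽_p` -/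
def AllFinite : Prop :=
  ∀ (X : Scheme.{0}) (f : X ⟶ SpecFp p), IsFiniteTypeOver p X f → topologicalKrullDim X ≤ d →
    ∀ i : ℤ, Finite (M.HZ X n i)

/-- `Hʲ(𝔽_p(t₁, …, t_{d+1}), ℚ(d+1-n))` is finite dimensional for all `j` -/
def RationalFinite : Prop := ∀ j : ℤ, FiniteAt (M.H j (d + 1 - n)) (ZMod p) (d + 1)

/-- `Hʲ(𝔽_p(t₁, …, t_{d+1}), ℚ(d+1-n))` is zero for all `j` -/
def RationalZero : Prop := ∀ (j : ℤ) (x : (M.H j (d + 1 - n)).obj (ratRing (ZMod p) (d + 1))), x = 0

/-- `Hʲ(E, ℚ(d-n)) = 0` for all `j` and all fields `E` of transcendence degree at most `d` over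
`𝔽_p` -/
def FieldsZero : Prop := ∀ j : ℤ, VanishAt (M.H j (d - n)) (ZMod p) d

variable {M p n d}

omit M in
theorem bot_eq_top_zmod : (⊥ : Subfield (ZMod p)) = ⊤ := by
  rw [eq_top_iff]
  intro x _
  rw [← ZMod.natCast_zmod_val x]
  exact natCast_mem _ _

theorem zero_prime (j m : ℤ) (hm : 1 ≤ m) (x : V (M.H j m) (ZMod p)) : x = 0 := by
  obtain ⟨k, _, _, hk⟩ := exists_closure (ZMod p)
  exact (injective_iff_map_eq_zero _).1 ((M.good j m).inj (algebraMap (ZMod p) k)) x
    (M.quillen p k j m hm _)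

theorem law_fields (hn : n < 0) (j : ℤ) :
    [VanishAt (M.H j (d - n)) (ZMod p) d, FiniteAt (M.H (j + 1) (d + 1 - n)) (ZMod p) (d + 1),
      RigidAt (M.H (j + 1) (d + 1 - n)) (ZMod p) (d + 1)].TFAE := by
  have h0 : Module.Finite ℚ (V (M.H (j + 1) ((d : ℤ) - n + 1)) (ZMod p)) := by
    have : Subsingleton (V (M.H (j + 1) ((d : ℤ) - n + 1)) (ZMod p)) :=
      ⟨fun x y => (zero_prime _ _ (by omega) x).trans (zero_prime _ _ (by omega) y).symm⟩
    infer_instance
  have h := law M.good M.localization j (d - n) (ZMod p) bot_eq_top_zmod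
    (fun k _ _ _ => M.quillen p k j (d - n) (by omega)) h0 d
  rw [show (d : ℤ) - n + 1 = d + 1 - n by ring] at h
  exact h

theorem fieldsZero_iff_finite (hn : n < 0) : FieldsZero M p n d ↔ RationalFinite M p n d := by
  constructor
  · intro h j
    have h1 := ((law_fields (M := M) (p := p) (d := d) hn (j - 1)).out 0 1).1 (h (j - 1))
    rwa [sub_add_cancel] at h1
  · intro h j
    exact ((law_fields (M := M) (p := p) (d := d) hn j).out 0 1).2 (h (j + 1))

theorem rationalZero_iff (hn : n < 0) : RationalZero M p n d ↔ RationalFinite M p n d := by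
  constructor
  · intro h j
    have : Subsingleton ((M.H j (d + 1 - n)).obj (ratRing (ZMod p) (d + 1))) :=
      ⟨fun x y => (h j x).trans (h j y).symm⟩
    change Module.Finite ℚ ((M.H j (d + 1 - n)).obj (ratRing (ZMod p) (d + 1)))
    infer_instance
  · intro h j x
    have h1 := ((law_fields (M := M) (p := p) (d := d) hn (j - 1)).out 1 2).1
      (by rw [sub_add_cancel]; exact h j)
    rw [sub_add_cancel] at h1
    obtain ⟨y, rfl⟩ := h1.2 x
    rw [zero_prime j _ (by omega) y, map_zero]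

/-- vanishing for the fields of transcendence degree at most `d` is the vanishing of the rational
groups of the schemes of dimension at most `d` -/
theorem fieldsZero_iff (hn : n < 0) : FieldsZero M p n d ↔
    ∀ (X : Scheme.{0}) (f : X ⟶ SpecFp p), IsFiniteTypeOver p X f → topologicalKrullDim X ≤ d →
      ∀ (i : ℤ) (y : M.HQ X n i), y = 0 := by
  constructor
  · intro h X f hf hd i y
    by_contra hy
    obtain ⟨x, s, j, hs, hsd, z, hz⟩ := M.niveau p X f hf n i hn y hy
    have hsd' : s ≤ d := by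
      have h1 := hsd.trans hd
      exact_mod_cast h1
    let : Algebra (ZMod p) (X.residueField x) := residueAlgebra p X f x
    obtain ⟨F', i1, i2, h2, hex⟩ := exists_units_trdeg M.toTheory (P := ZMod p) (d - s)
      j (s - n) (X.residueField x) z hz
    have h3 : ((s : ℤ) - n) + ((d - s : ℕ) : ℤ) = d - n := by
      push_cast [hsd']
      ring
    rw [h3] at hex
    obtain ⟨y', hy'⟩ := hex
    have h4 : Algebra.trdeg (ZMod p) F' ≤ d := by
      have h5 : Algebra.trdeg (ZMod p) (X.residueField x) = s := hs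
      rw [h2, h5]
      exact_mod_cast (by omega : s + (d - s) ≤ d)
    exact hy' (h _ F' h4 y')
  · intro h j E _ _ hE x
    by_contra hx
    obtain ⟨K, _, _, hK, hKE, y, hy⟩ := exists_subfield (M.good _ _) (ZMod p) E x hx
    obtain ⟨s, hsd, hs⟩ := Cardinal.exists_nat_eq_of_le_nat (hKE.trans hE)
    obtain ⟨K', _, _, hK', h2, y', hy'⟩ := exists_extend (M.good j (d - n)) (P := ZMod p) (d - s)
      K y hy
    have h4 : Algebra.trdeg (ZMod p) K' = d := by
      rw [h2, hs]
      exact_mod_cast (by omega : s + (d - s) = d)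
    obtain ⟨X, f, hf, hX, i, y'', hy''⟩ := M.generic p K' d h4 n j hn y' hy'
    exact hy'' (h X f hf hX i y'')

omit M in
/-- a rational vector space which is finitely generated as an abelian group is zero -/
theorem eq_zero_of_fg (W : Type) [AddCommGroup W] [Module ℚ W] (h : Module.Finite ℤ W) (y : W) :
    y = 0 := by
  have hle : (⊤ : Submodule ℤ W) ≤ Ideal.span {(2 : ℤ)} • (⊤ : Submodule ℤ W) := by
    intro v _
    have h1 : v = (2 : ℤ) • ((1 / 2 : ℚ) • v) := by
      rw [← Int.cast_smul_eq_zsmul ℚ, smul_smul]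
      norm_num
    rw [h1]
    exact Submodule.smul_mem_smul (Ideal.mem_span_singleton_self 2) Submodule.mem_top
  obtain ⟨r, hr1, hr2⟩ := Submodule.exists_sub_one_mem_and_smul_eq_zero_of_fg_of_le_smul
    (Ideal.span {(2 : ℤ)}) (⊤ : Submodule ℤ W) h.fg_top hle
  obtain ⟨k, hk⟩ := Ideal.mem_span_singleton.1 hr1
  have hr : r ≠ 0 := by omega
  have h2 := hr2 y Submodule.mem_top
  rw [← Int.cast_smul_eq_zsmul ℚ] at h2
  exact (smul_eq_zero.1 h2).resolve_left (by exact_mod_cast hr)

theorem finite_of_zero {X : Scheme.{0}} {f : X ⟶ SpecFp p} (hf : IsFiniteTypeOver p X f)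
    (hn : n < 0) (i : ℤ) (h : ∀ y : M.HQ X n i, y = 0) : Finite (M.HZ X n i) := by
  obtain ⟨q, -, hq⟩ := M.finiteTorsion p X f hf n i hn
  have h1 : q.ker = ⊤ := by
    rw [eq_top_iff]
    intro x _
    exact h (q x)
  have h2 : Finite (⊤ : AddSubgroup (M.HZ X n i)) := by
    rw [← h1]
    exact hq
  exact Finite.of_equiv _ AddSubgroup.topEquiv.toEquiv

theorem zero_of_fg {X : Scheme.{0}} {f : X ⟶ SpecFp p} (hf : IsFiniteTypeOver p X f)
    (hn : n < 0) (i : ℤ) (h : AddGroup.FG (M.HZ X n i)) (y : M.HQ X n i) : y = 0 := by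
  obtain ⟨q, hq, -⟩ := M.finiteTorsion p X f hf n i hn
  have h1 : AddGroup.FG (M.HQ X n i) := AddGroup.fg_of_surjective hq
  exact eq_zero_of_fg _ (Module.Finite.iff_addGroup_fg.2 h1) y

/-- **The law in characteristic `p`.** For a prime `p`, `n < 0` and `d ≥ 0` equivalent are:

1. `Hⁱ(X_et, ℤᶜ(n))` is finitely generated for all `i` and all `X` separated, of finite type and of
   dimension at most `d` over `𝔽_p`;
2. all these groups are finite;
3. `Hʲ(𝔽_p(t₁, …, t_{d+1}), ℚ(d+1-n))` is finite dimensional for all `j`;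
4. `Hʲ(𝔽_p(t₁, …, t_{d+1}), ℚ(d+1-n)) = 0` for all `j`;
5. `Hʲ(E, ℚ(d-n)) = 0` for all `j` and all fields `E` of transcendence degree at most `d` over
   `𝔽_p`. -/
theorem main_arith (M : CycleTheory) (p : ℕ) [Fact p.Prime] (n : ℤ) (d : ℕ) (hn : n < 0) :
    [AllFG M p n d, AllFinite M p n d, RationalFinite M p n d, RationalZero M p n d,
      FieldsZero M p n d].TFAE := by
  tfae_have 3 ↔ 4 := (rationalZero_iff hn).symm
  tfae_have 3 ↔ 5 := (fieldsZero_iff_finite hn).symm
  tfae_have 5 → 2 := fun h X f hf hX i =>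
    finite_of_zero hf hn i fun y => (fieldsZero_iff hn).1 h X f hf hX i y
  tfae_have 2 → 1 := by
    intro h X f hf hX i
    have := h X f hf hX i
    infer_instance
  tfae_have 1 → 5 := fun h => (fieldsZero_iff hn).2 fun X f hf hX i y =>
    zero_of_fg hf hn i (h X f hf hX i) y
  tfae_finish

end Pool.Agent.H51BS
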