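import Pool.Agent.H51BS.Flat

/-!
# Beilinson's conjecture for integral motivic cohomology in degrees at most zero
-/

set_option autoImplicit false

namespace Pool.Agent.H51BS.Integral

open Pool.Agent.Q26.TL CategoryTheory AlgebraicGeometry TensorProduct Pool.Agent.H51BS

/-- Coniveau spectral sequence of the generic fibre: if `X` is as in the question, of dimension `d`,
and `Hʲ(X_ℚ, ℚ(m)) ≠ 0`, then `Hʲ⁻²ᶜ(κ(x), ℚ(m-c)) ≠ 0` for some point `x` of codimension `c` with
residue field of characteristic zero; its transcendence degree over `ℚ` is `d - c - 1`. -/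
def ConiveauGeneric (H : ℤ → ℤ → Fun) (HG : Scheme.{0} → ℤ → ℤ → ModuleCat.{0} ℚ) : Prop :=
  ∀ (X : Scheme.{0}) (f : X ⟶ SpecInt), IsModel X f → ∀ d : ℕ, topologicalKrullDim X = d →
    ∀ j m : ℤ, ∀ y : HG X j m, y ≠ 0 →
      ∃ (x : X) (c s : ℕ), CodimEq X x c ∧ s + c = d ∧ KronQ (X.residueField x) s ∧
        ClassAt H X x (j - 2 * c) (m - c)

/-- the restriction to the generic fibre of a class is not zero -/
def NonzeroOnFibre {V W : ModuleCat.{0} ℚ} (φ : V ⟶ W) : Prop := ∃ y : V, φ.hom y ≠ 0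

/-- Models: if `E` is a finitely generated field of transcendence degree `s - 1` over `ℚ` and
`Hʲ(E, ℚ(m)) ≠ 0`, then there is an `X` as in the question, of dimension `s` (with function field
finite over `E`, de Jong), such that a class in `Hʲ(X, ℚ(m))` does not vanish on the generic fibre
(being not zero at the generic point) or (obstruction to lifting from the generic point)
`Hʲ⁺¹⁻²ᶜ(κ(x), ℚ(m-c)) ≠ 0` for some point `x` of codimension `c ≥ 1`. -/
def ModelsGeneric (H : ℤ → ℤ → Fun) (HX HG : Scheme.{0} → ℤ → ℤ → ModuleCat.{0} ℚ)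
    (res : ∀ (X : Scheme.{0}) (j m : ℤ), HX X j m ⟶ HG X j m) : Prop :=
  ∀ (E : Type) [Field E] [Algebra.EssFiniteType ℤ E] (s : ℕ), KronQ E s → ∀ j m : ℤ,
    ∀ z : V (H j m) E, z ≠ 0 →
      ∃ (X : Scheme.{0}) (f : X ⟶ SpecInt), IsModel X f ∧ topologicalKrullDim X = s ∧
        (NonzeroOnFibre (res X j m) ∨ ∃ (x : X) (c s' : ℕ), 1 ≤ c ∧ CodimEq X x c ∧
          s' + c = s ∧ (KronQ (X.residueField x) s' ∨ KronP (X.residueField x) s') ∧
          ClassAt H X x (j + 1 - 2 * c) (m - c))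

/-- the image of `φ` -/
noncomputable def imageOf {V W : ModuleCat.{0} ℚ} (φ : V ⟶ W) : ModuleCat.{0} ℚ :=
  ModuleCat.of ℚ (LinearMap.range φ.hom)

/-- the inclusion of the image, tensored with `ℝ` -/
noncomputable def imageMap {V W : ModuleCat.{0} ℚ} (φ : V ⟶ W) :
    realify (imageOf φ) ⟶ realify W :=
  ModuleCat.ofHom (LinearMap.baseChange ℝ (LinearMap.range φ.hom).subtype)

/-- Rational motivic cohomology of rings (`Theory`), the groups `HX X j m = Hʲ(X, ℚ(m))`,
`HG X j m = Hʲ(X_ℚ, ℚ(m))` and `Del X j m = Hʲ_𝒟(X_{/ℝ}, ℝ(m))` of schemes over `ℤ`, the restriction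
`res` to the generic fibre, the regulator `reg`, and the published facts about them. -/
structure BeilinsonTheory extends Theory where
  HX : Scheme.{0} → ℤ → ℤ → ModuleCat.{0} ℚ
  HG : Scheme.{0} → ℤ → ℤ → ModuleCat.{0} ℚ
  Del : Scheme.{0} → ℤ → ℤ → ModuleCat.{0} ℝ
  res : ∀ (X : Scheme.{0}) (j m : ℤ), HX X j m ⟶ HG X j m
  reg : ∀ (X : Scheme.{0}) (j m : ℤ), realify (HG X j m) ⟶ Del X j m
  localization : Localization H
  borelClosure : BorelClosure H
  borelFinite : BorelFinite H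
  lowWeights : LowWeights H
  coniveau : ConiveauGeneric H HG
  models : ModelsGeneric H HX HG res
  deligneLow : DeligneLow Del

variable (M : BeilinsonTheory) (D : ℕ)

/-- `Hʲ_M(X_{/ℤ}, ℚ(m))`, the image of `Hʲ(X, ℚ(m))` in `Hʲ(X_ℚ, ℚ(m))` -/
noncomputable def integralPart (X : Scheme.{0}) (j m : ℤ) : ModuleCat.{0} ℚ :=
  imageOf (M.res X j m)

/-- the regulator on `Hʲ_M(X_{/ℤ}, ℚ(m)) ⊗ ℝ` -/
noncomputable def rho (X : Scheme.{0}) (j m : ℤ) :
    realify (integralPart M X j m) ⟶ M.Del X j m :=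
  imageMap (M.res X j m) ≫ M.reg X j m

/-- The question in degrees at most zero and dimension at most `D`: for all `X` as in the question,
`d = dim X ≤ D`, and all `i ≥ 1` with `2d - 1 - i ≤ 0` the map `ρⁱ` is bijective. -/
def QuestionLow : Prop :=
  ∀ (X : Scheme.{0}) (f : X ⟶ SpecInt), IsModel X f → ∀ d : ℕ, 1 ≤ d → d ≤ D →
    topologicalKrullDim X = d → ∀ i : ℤ, 1 ≤ i → 2 * d - 1 - i ≤ 0 →
      IsBij (rho M X (2 * d - 1 - i) d)

/-- `Hʲ(E, ℚ(s)) = 0` for all `j ≤ 0`, all `s` with `1 ≤ s ≤ D` and all fields `E` of transcendence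
degree at most `s - 1` over `ℚ` -/
def FieldsQ : Prop := ∀ e : ℕ, e + 1 ≤ D → ∀ j : ℤ, j ≤ 0 → VanishAt (M.H j ((e + 1 : ℕ) : ℤ)) ℚ e

/-- `Hʲ(ℚ(t₁, …, t_s), ℚ(s+1))` is finite dimensional for all `j ≤ 1` and all `s` with
`1 ≤ s ≤ D` -/
def RationalQ : Prop :=
  ∀ e : ℕ, e + 1 ≤ D → ∀ j : ℤ, j ≤ 1 → FiniteAt (M.H j (((e + 1 : ℕ) : ℤ) + 1)) ℚ (e + 1)

/-- `Hʲ(E, ℚ(s)) = 0` for all `j < 0`, all `s < D`, all primes `p` and all fields `E` of
transcendence degree at most `s` over `𝔽_p` -/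
def CharPart : Prop :=
  ∀ (p : ℕ) [Fact p.Prime] (s : ℕ), s < D → ∀ j : ℤ, j < 0 → VanishAt (M.H j s) (ZMod p) s

/-- `Hʲ(E, ℚ(2)) = 0` for all `j ≤ 0` and all fields `E` of transcendence degree at most one over
`ℚ` -/
def CurvesZero : Prop := ∀ j : ℤ, j ≤ 0 → VanishAt (M.H j 2) ℚ 1

/-- `Hʲ(ℚ(t₁, t₂), ℚ(3))` is finite dimensional for all `j ≤ 1` -/
def PlaneFinite : Prop := ∀ j : ℤ, j ≤ 1 → FiniteAt (M.H j 3) ℚ 2

variable {M D}

theorem bijective_iff (X : Scheme.{0}) (j m : ℤ) (hj : j ≤ 0) (hm : 1 ≤ m) :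
    IsBij (rho M X j m) ↔ ∀ y : M.HX X j m, (M.res X j m).hom y = 0 := by
  have hD : Subsingleton (M.Del X j m) :=
    ⟨fun a b => (M.deligneLow X j m hj hm a).trans (M.deligneLow X j m hj hm b).symm⟩
  constructor
  · intro h y
    have h0 : Function.Injective (rho M X j m).hom := h.1
    let w : LinearMap.range (M.res X j m).hom := ⟨_, y, rfl⟩
    have h1 : (1 : ℝ) ⊗ₜ[ℚ] w = (0 : ℝ ⊗[ℚ] LinearMap.range (M.res X j m).hom) :=
      h0 (Subsingleton.elim _ _)
    have h2 : Function.Injective (TensorProduct.mk ℚ ℝ (LinearMap.range (M.res X j m).hom) 1) :=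
      Module.FaithfullyFlat.tensorProduct_mk_injective (A := ℚ) (B := ℝ) _
    exact congrArg Subtype.val (h2 (h1.trans (map_zero _).symm) : w = 0)
  · intro h
    have h1 : ∀ z : ℝ ⊗[ℚ] LinearMap.range (M.res X j m).hom, z = 0 := by
      intro z
      induction z using TensorProduct.induction_on with
      | zero => rfl
      | tmul a b =>
        have hb : b = 0 := by
          obtain ⟨b, y, rfl⟩ := b
          exact Subtype.ext (h y)
        rw [hb, TensorProduct.tmul_zero]
      | add a b ha hb => rw [ha, hb, add_zero]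
    exact ⟨fun a b _ => (h1 a).trans (h1 b).symm, fun b => ⟨0, Subsingleton.elim _ _⟩⟩

theorem questionLow_iff : QuestionLow M D ↔
    ∀ (X : Scheme.{0}) (f : X ⟶ SpecInt), IsModel X f → ∀ d : ℕ, 1 ≤ d → d ≤ D →
      topologicalKrullDim X = d → ∀ j : ℤ, j ≤ 0 → ∀ y : M.HX X j d, (M.res X j d).hom y = 0 := by
  constructor
  · intro h X f hf d hd1 hd hX j hj
    have h1 := h X f hf d hd1 hd hX (2 * d - 1 - j) (by omega) (by omega)
    rw [show 2 * (d : ℤ) - 1 - (2 * d - 1 - j) = j by ring] at h1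
    exact (bijective_iff X j d hj (by omega)).1 h1
  · intro h X f hf d hd1 hd hX i hi1 hi
    exact (bijective_iff X _ d hi (by omega)).2 (h X f hf d hd1 hd hX _ hi)

theorem fieldsQ_iff : FieldsQ M D ↔ RationalQ M D := by
  have h0 : ∀ (e : ℕ) (j : ℤ), j ≤ 0 → (VanishAt (M.H j ((e + 1 : ℕ) : ℤ)) ℚ e ↔
      FiniteAt (M.H (j + 1) (((e + 1 : ℕ) : ℤ) + 1)) ℚ (e + 1)) := fun e j hj =>
    (law M.good M.localization j ((e + 1 : ℕ) : ℤ) ℚ bot_eq_top_rat'
      (fun k _ _ _ => M.borelClosure k j _ hj (by push_cast; omega))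
      (M.borelFinite (j + 1) _ (by push_cast; omega)) e).out 0 1
  constructor
  · intro h e he j hj
    have h1 := (h0 e (j - 1) (by omega)).1 (h e he (j - 1) (by omega))
    rwa [sub_add_cancel] at h1
  · intro h e he j hj
    exact (h0 e j hj).2 (h e he (j + 1) (by omega))

/-- the vanishing for fields gives the vanishing for the generic fibres -/
theorem zero_of_fieldsQ (h : FieldsQ M D) (X : Scheme.{0}) (f : X ⟶ SpecInt)
    (hf : IsModel X f) (d : ℕ) (hd : d ≤ D) (hX : topologicalKrullDim X = d) (j : ℤ) (hj : j ≤ 0)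
    (y : M.HG X j d) : y = 0 := by
  by_contra hy
  obtain ⟨x, c, s, -, hsc, hs, h2⟩ := M.coniveau X f hf d hX j d y hy
  have h1 : (d : ℤ) - c = s := by omega
  rw [h1] at h2
  obtain ⟨e, _, rfl, he⟩ := hs.exists
  obtain ⟨z, hz⟩ := h2
  exact hz (h e (by omega) (j - 2 * c) (by omega) (X.residueField x) he.le z)

theorem question_of_fieldsQ (h : FieldsQ M D) : QuestionLow M D :=
  questionLow_iff.2 fun X f hf d _ hd hX j hj _ => zero_of_fieldsQ h X f hf d hd hX j hj _

theorem fieldsQ_of_question (hp : CharPart M D) (hQ : QuestionLow M D) : FieldsQ M D := by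
  have h := questionLow_iff.1 hQ
  intro e
  induction e using Nat.strong_induction_on with
  | _ e ih =>
    intro he j hj E _ _ hE x
    by_contra hx
    obtain ⟨K, _, _, hf, hK, y, hy⟩ := exists_exact (M.good j ((e + 1 : ℕ) : ℤ)) ℚ E e hE x hx
    have hKe : Algebra.EssFiniteType ℤ K := essFiniteType_of_rat K
    have hKs : KronQ K (e + 1) := by
      refine ⟨inferInstance, ?_⟩
      rw [hK]
      push_cast
      rfl
    obtain ⟨X, f, hf, hX, ⟨z, hz⟩ | ⟨q, c, s', hc, -, hcs, hs', h2⟩⟩ :=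
      M.models K (e + 1) hKs j _ y hy
    · exact hz (h X f hf (e + 1) (by omega) he hX j hj z)
    · have h3 : ((e + 1 : ℕ) : ℤ) - c = s' := by omega
      rw [h3] at h2
      rcases hs' with hs' | ⟨p, _, _, hs'⟩
      · obtain ⟨e', _, rfl, he'⟩ := hs'.exists
        obtain ⟨z, hz⟩ := h2
        exact hz (ih e' (by omega) (by omega) (j + 1 - 2 * c) (by omega) (X.residueField q)
          he'.le z)
      · obtain ⟨z, hz⟩ := h2
        exact hz (hp p s' (by omega) (j + 1 - 2 * c) (by omega) (X.residueField q) hs'.le z)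

theorem charPart_two (M : BeilinsonTheory) : CharPart M 2 := by
  intro p _ s hs j hj E _ _ _ x
  interval_cases s
  · exact (M.lowWeights E j).1 (by omega) x
  · exact (M.lowWeights E j).2 (by omega) x

theorem curvesZero_iff : CurvesZero M ↔ FieldsQ M 2 := by
  constructor
  · intro h e he j hj
    obtain rfl | rfl : e = 0 ∨ e = 1 := by omega
    · intro E _ _ _ x
      exact (M.lowWeights E j).2 (by omega) x
    · exact h j hj
  · intro h j hj
    exact h 1 (by omega) j hj

theorem planeFinite_iff : PlaneFinite M ↔ CurvesZero M := by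
  have h0 : ∀ j : ℤ, j ≤ 0 → (VanishAt (M.H j 2) ℚ 1 ↔ FiniteAt (M.H (j + 1) (2 + 1)) ℚ (1 + 1)) :=
    fun j hj => (law M.good M.localization j 2 ℚ bot_eq_top_rat'
      (fun k _ _ _ => M.borelClosure k j 2 hj (by omega))
      (M.borelFinite (j + 1) _ (by omega)) 1).out 0 1
  constructor
  · intro h j hj
    exact (h0 j hj).2 (h (j + 1) (by omega))
  · intro h j hj
    have h1 := (h0 (j - 1) (by omega)).1 (h (j - 1) (by omega))
    rwa [sub_add_cancel] at h1

/-- the law for arithmetic surfaces -/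
theorem main_surfaces (M : BeilinsonTheory) :
    [QuestionLow M 2, CurvesZero M, PlaneFinite M].TFAE := by
  tfae_have 2 → 1 := fun h => question_of_fieldsQ (curvesZero_iff.1 h)
  tfae_have 1 → 2 := fun h => curvesZero_iff.2 (fieldsQ_of_question (charPart_two M) h)
  tfae_have 2 ↔ 3 := planeFinite_iff.symm
  tfae_finish

/-- in each dimension finiteness for rational function fields implies the question in degrees at
most zero; the converse holds given the part of positive characteristic -/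
theorem main_all (M : BeilinsonTheory) (D : ℕ) :
    (RationalQ M D → QuestionLow M D) ∧ (CharPart M D → (QuestionLow M D ↔ RationalQ M D)) :=
  ⟨fun h => question_of_fieldsQ (fieldsQ_iff.2 h), fun hp =>
    ⟨fun h => fieldsQ_iff.1 (fieldsQ_of_question hp h),
      fun h => question_of_fieldsQ (fieldsQ_iff.2 h)⟩⟩

end Pool.Agent.H51BS.Integral
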