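import Pool.Agent.H51BS.Beilinson

/-!
# Beilinson's conjecture for blow-ups of projective spaces in curves
-/

set_option autoImplicit false

namespace Pool.Agent.H51BS.Integral

open Pool.Agent.Q26.TL CategoryTheory AlgebraicGeometry TensorProduct Pool.Agent.H51BS

/-- `Z` is a regular model of a curve over `ℚ`: connected, regular, proper and flat over `ℤ`, of
dimension two -/
def IsCurveModel (Z : Scheme.{0}) : Prop :=
  ∃ f : Z ⟶ SpecInt, IsModel Z f ∧ topologicalKrullDim Z = (2 : ℕ)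

/-- Beilinson's conjecture for `X`, `i` and the weight `n = i + 1 - m`: the space
`H^{i+1}_M(X_{/ℤ}, ℚ(n))` is finite dimensional and the regulator on it is bijective after tensoring
with `ℝ`. -/
def BeilinsonAt (M : BeilinsonTheory) (X : Scheme.{0}) (i n : ℤ) : Prop :=
  Module.Finite ℚ (integralPart M X (i + 1) n) ∧ IsBij (rho M X (i + 1) n)

/-- Embeddings: a regular model `Z` of a curve has, for all large `N`, a blow-up of `ℙ^N_ℤ` along a
closed subscheme isomorphic to `Z`. -/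
def HasBlowUps (Bl : ℕ → Scheme.{0} → Scheme.{0} → Prop) : Prop :=
  ∀ Z : Scheme.{0}, IsCurveModel Z → ∃ N₀ : ℕ, ∀ N : ℕ, N₀ ≤ N → ∃ X : Scheme.{0}, Bl N Z X

/-- Blow-up formula, compatible with regulators, and the theorem of Borel for the part coming from
`ℙ^N`: for the blow-up `X` of `ℙ^N_ℤ` along `Z`, for `i = 0` or `i = 1` and `n ≥ 2`, Beilinson's
conjecture for `X`, `i` and `n` is equivalent to the bijectivity of the regulators on
`H^{i+1-2k}_M(Z_{/ℤ}, ℚ(n-k)) ⊗ ℝ` for `1 ≤ k ≤ N - 2`. -/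
def BlowUpFormula (M : BeilinsonTheory) (Bl : ℕ → Scheme.{0} → Scheme.{0} → Prop) : Prop :=
  ∀ (N : ℕ) (Z X : Scheme.{0}), IsCurveModel Z → Bl N Z X → ∀ i n : ℤ, i = 0 ∨ i = 1 → 2 ≤ n →
    (BeilinsonAt M X i n ↔ ∀ k : ℕ, 1 ≤ k → k + 2 ≤ N → IsBij (rho M Z (i + 1 - 2 * k) (n - k)))

/-- in weights at most zero and negative degrees both sides of the regulator are zero -/
def LowWeightBij (M : BeilinsonTheory) : Prop :=
  ∀ (Z : Scheme.{0}) (j w : ℤ), j < 0 → w ≤ 0 → IsBij (rho M Z j w)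

/-- Borel, Harder, Quillen: `Hʲ(E, ℚ(w)) = 0` for all `j < 0`, all `w` and all fields `E` of
Kronecker dimension at most one -/
def KronOneBelow (H : ℤ → ℤ → Fun) : Prop :=
  ∀ (E : Type) [Field E] (s : ℕ), s ≤ 1 → Kron E s → ∀ j w : ℤ, j < 0 → ∀ x : V (H j w) E, x = 0

/-- A `BeilinsonTheory` with the relation `Bl N Z X` (`X` is a blow-up of `ℙ^N_ℤ` along a closed
subscheme isomorphic to `Z`) and the published facts about it. -/
structure BlowUpTheory extends BeilinsonTheory where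
  Bl : ℕ → Scheme.{0} → Scheme.{0} → Prop
  hasBlowUps : HasBlowUps Bl
  formula : BlowUpFormula toBeilinsonTheory Bl
  lowWeightBij : LowWeightBij toBeilinsonTheory
  kronOneBelow : KronOneBelow H

variable (M : BlowUpTheory)

/-- Beilinson's conjecture holds for `i = 0` and `i = 1` and all `m < i/2`, i.e. all weights
`n ≥ 2`, for all blow-ups `X` of projective spaces `ℙ^N_ℤ` along regular models of curves -/
def BlowUpsInCurves : Prop :=
  ∀ (N : ℕ) (Z X : Scheme.{0}), IsCurveModel Z → M.Bl N Z X → ∀ i n : ℤ, i = 0 ∨ i = 1 → 2 ≤ n →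
    BeilinsonAt M.toBeilinsonTheory X i n

/-- `Hʲ_M(Z_{/ℤ}, ℚ(w)) = 0` for all `j ≤ 0`, all `w ≥ 1` and all curves `Z` -/
def CurvesIntegralZero : Prop :=
  ∀ Z : Scheme.{0}, IsCurveModel Z → ∀ j w : ℤ, j ≤ 0 → 1 ≤ w →
    ∀ y : M.HX Z j w, (M.res Z j w).hom y = 0

/-- `Hʲ(E, ℚ(w)) = 0` for all `j ≤ 0`, all `w ≥ 1` and all fields `E` of transcendence degree at
most one over `ℚ` -/
def FunctionFieldsZero : Prop := ∀ j w : ℤ, j ≤ 0 → 1 ≤ w → VanishAt (M.H j w) ℚ 1

/-- `Hʲ(ℚ(t₁, t₂), ℚ(w))` is finite dimensional for all `j ≤ 1` and all `w ≥ 2` -/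
def PlaneFiniteAll : Prop := ∀ j w : ℤ, j ≤ 1 → 2 ≤ w → FiniteAt (M.H j w) ℚ 2

variable {M}

theorem blowUps_iff : BlowUpsInCurves M ↔ CurvesIntegralZero M := by
  constructor
  · intro h Z hZ j w hj hw
    obtain ⟨N₀, hN⟩ := M.hasBlowUps Z hZ
    have key : ∀ (i : ℤ) (k : ℕ), i = 0 ∨ i = 1 → 1 ≤ k → i + 1 - 2 * k = j →
        ∀ y : M.HX Z j w, (M.res Z j w).hom y = 0 := by
      intro i k hi hk hij
      obtain ⟨X, hX⟩ := hN (N₀ + k + 2) (by omega)
      have h1 := (M.formula (N₀ + k + 2) Z X hZ hX i (w + k) hi (by omega)).1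
        (h _ Z X hZ hX i (w + k) hi (by omega)) k hk (by omega)
      rw [hij, show w + (k : ℤ) - k = w by ring] at h1
      exact (bijective_iff Z j w hj hw).1 h1
    rcases Int.even_or_odd j with ⟨a, ha⟩ | ⟨a, ha⟩
    · exact key 1 (1 - a).toNat (Or.inr rfl) (by omega) (by omega)
    · exact key 0 (-a).toNat (Or.inl rfl) (by omega) (by omega)
  · intro h N Z X hZ hX i n hi hn
    refine (M.formula N Z X hZ hX i n hi hn).2 fun k hk hkN => ?_
    rcases le_or_gt (n - k) 0 with hw | hw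
    · exact M.lowWeightBij Z _ _ (by omega) hw
    · exact (bijective_iff Z _ _ (by omega) (by omega)).2 (h Z hZ _ _ (by omega) (by omega))

theorem curves_iff : CurvesIntegralZero M ↔ FunctionFieldsZero M := by
  constructor
  · intro h j w hj hw E _ _ hE x
    by_contra hx
    obtain ⟨K, _, _, hf, hK, y, hy⟩ := exists_exact (M.good j w) ℚ E 1 hE x hx
    have hKe : Algebra.EssFiniteType ℤ K := essFiniteType_of_rat K
    have hKs : KronQ K 2 := by
      refine ⟨inferInstance, ?_⟩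
      rw [hK]
      norm_num
    obtain ⟨X, f, hf, hX, ⟨z, hz⟩ | ⟨q, c, s', hc, -, hcs, hs', z, hz⟩⟩ :=
      M.models K 2 hKs j w y hy
    · exact hz (h X ⟨f, hf, hX⟩ j w hj hw z)
    · exact hz (M.kronOneBelow (X.residueField q) s' (by omega) hs' _ _ (by omega) z)
  · rintro h Z ⟨f, hf, hZ⟩ j w hj hw y
    by_contra hy
    obtain ⟨x, c, s, -, hsc, hs, z, hz⟩ := M.coniveau Z f hf 2 hZ j w _ hy
    rcases Nat.eq_zero_or_pos c with rfl | hc
    · obtain ⟨e, _, hse, he⟩ := hs.exists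
      have he1 : e ≤ 1 := by omega
      refine hz (h _ _ (by omega) (by omega) (Z.residueField x) ?_ z)
      rw [he]
      exact_mod_cast he1
    · exact hz (M.kronOneBelow (Z.residueField x) s (by omega) (Or.inl hs) _ _ (by omega) z)

theorem plane_iff : PlaneFiniteAll M ↔ FunctionFieldsZero M := by
  have h0 : ∀ j w : ℤ, j ≤ 0 → 1 ≤ w →
      (VanishAt (M.H j w) ℚ 1 ↔ FiniteAt (M.H (j + 1) (w + 1)) ℚ (1 + 1)) :=
    fun j w hj hw => (law M.good M.localization j w ℚ bot_eq_top_rat'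
      (fun k _ _ _ => M.borelClosure k j w hj hw)
      (M.borelFinite (j + 1) _ (by omega)) 1).out 0 1
  constructor
  · intro h j w hj hw
    exact (h0 j w hj hw).2 (h (j + 1) (w + 1) (by omega) (by omega))
  · intro h j w hj hw
    have h1 := (h0 (j - 1) (w - 1) (by omega) (by omega)).1
      (h (j - 1) (w - 1) (by omega) (by omega))
    rwa [sub_add_cancel, sub_add_cancel] at h1

/-- **The law for blow-ups in curves.** Equivalent are:

1. Beilinson's conjecture holds for `i = 0` and `i = 1` and all `m < i/2` for all blow-ups of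
   projective spaces along regular models of curves;
2. `Hʲ_M(Z_{/ℤ}, ℚ(w)) = 0` for all curves `Z`, all `j ≤ 0` and `w ≥ 1`;
3. `Hʲ(E, ℚ(w)) = 0` for all fields `E` of transcendence degree at most one over `ℚ`, all `j ≤ 0`
   and `w ≥ 1`;
4. `Hʲ(ℚ(t₁, t₂), ℚ(w))` is finite dimensional for all `j ≤ 1` and `w ≥ 2`. -/
theorem main_blowUps (M : BlowUpTheory) :
    [BlowUpsInCurves M, CurvesIntegralZero M, FunctionFieldsZero M, PlaneFiniteAll M].TFAE := by
  tfae_have 1 ↔ 2 := blowUps_iff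
  tfae_have 2 ↔ 3 := curves_iff
  tfae_have 4 ↔ 3 := plane_iff
  tfae_finish

end Pool.Agent.H51BS.Integral
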