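import Pool.Agent.H51BS.Infinite
import Pool.Agent.Q26.SP.Point

/-!
# The Beilinson–Soulé conjecture for complex varieties and rational function fields over `ℚ`
-/

set_option autoImplicit false

namespace Pool.Agent.H51BS

open Pool.Agent.Q26.TL Pool.Agent.Q26.SP.Point AlgebraicGeometry CategoryTheory Cardinal

/-- Motivic cohomology and higher Chow groups with the localisation sequences of the affine lines
over fields and with the finiteness of `H⁰(ℚ, ℚ(n))` (Borel). -/
structure HigherChowLine extends HigherChow where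
  localization : Localization H
  borelZero : ∀ n : ℤ, Module.Finite ℚ (V (H 0 n) ℚ)

/-- `H⁰(ℚ(t₁, t₂, …), ℚ(n))` is finite dimensional for all `n` -/
def FiniteDegreeZero (M : HigherChowLine) : Prop := ∀ n : ℤ, FiniteInf (M.H 0 n) ℚ

/-- `H⁰(ℚ, ℚ(n)) → H⁰(ℚ(t₁, t₂, …), ℚ(n))` is bijective for all `n` -/
def RigidDegreeZero (M : HigherChowLine) : Prop := ∀ n : ℤ, RigidInf (M.H 0 n) ℚ

/-- `H⁰(F, ℚ(n)) → H⁰(F(t), ℚ(n))` is bijective for all `n` and all fields `F` of characteristic
zero -/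
def RigidInCharZero (M : HigherChowLine) : Prop :=
  ∀ (n : ℤ) (F : Type) [Field F] [CharZero F],
    Function.Bijective (mp (M.H 0 n) (algebraMap F (RatFunc F)))

variable {M : HigherChowLine}

theorem bot_eq_top_rat : (⊥ : Subfield ℚ) = ⊤ := by
  rw [eq_top_iff]
  intro x _
  have h := SubfieldClass.ratCast_mem (⊥ : Subfield ℚ) x
  simpa using h

theorem finite_rat (i n : ℤ) (hi : i < 0) : Module.Finite ℚ (V (M.H (i + 1) (n + 1)) ℚ) := by
  rcases lt_or_eq_of_le (show i + 1 ≤ 0 by omega) with h | h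
  · have h1 : ∀ x : V (M.H (i + 1) (n + 1)) ℚ, x = 0 := by
      intro x
      obtain ⟨k, _, _, hk⟩ := exists_closure ℚ
      exact (injective_iff_map_eq_zero _).1 ((M.good (i + 1) (n + 1)).inj (algebraMap ℚ k)) x
        (M.borel (i + 1) (n + 1) h k _)
    have : Subsingleton (V (M.H (i + 1) (n + 1)) ℚ) :=
      ⟨fun x y => (h1 x).trans (h1 y).symm⟩
    infer_instance
  · rw [h]
    exact M.borelZero (n + 1)

theorem law_complex (i n : ℤ) (d : ℕ) (hi : i < 0) :
    [VanishAt (M.H i n) ℚ d, FiniteAt (M.H (i + 1) (n + 1)) ℚ (d + 1),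
      RigidAt (M.H (i + 1) (n + 1)) ℚ (d + 1)].TFAE :=
  law M.good M.localization i n ℚ bot_eq_top_rat
    (fun k _ _ _ => M.borel i n hi k) (finite_rat i n hi) d

theorem fields_of_degree (h : ∀ (n : ℤ) (E : Type) [Field E] [CharZero E]
    (x : V (M.H (-1) n) E), x = 0) : VanishesOnFields M.toHigherChow := by
  intro F _ _ i n hi x
  by_contra hx
  obtain ⟨m, hm⟩ := Int.eq_ofNat_of_zero_le (show 0 ≤ -1 - i by omega)
  have h5 := M.toTheory.exists_units (P := ℚ) m i n F x hx
  rw [show i + (m : ℤ) = -1 by omega] at h5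
  obtain ⟨F', _, _, y, hy⟩ := h5
  have : CharZero F' := charZero_of_injective_algebraMap (algebraMap ℚ F').injective
  exact hy (h _ F' y)

theorem degree_of_finite (h : FiniteDegreeZero M) (n : ℤ) (E : Type) [Field E] [CharZero E]
    (x : V (M.H (-1) n) E) : x = 0 := by
  by_contra hx
  obtain ⟨d, K, _, _, hd, y, hy⟩ := exists_finite_trdeg (M.good (-1) n) ℚ E x hx
  have h1 := ((law_complex (M := M) (-1) n d (by omega)).out 0 1).2
    (finiteAt_of_finiteInf (M.good 0 (n + 1)) ℚ (h (n + 1)) (d + 1))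
  exact hy (h1 K hd y)

theorem rigid_of_vanish_complex (h : VanishesOnFields M.toHigherChow) : RigidInCharZero M := by
  intro n F _ _
  refine ⟨(M.good 0 n).inj _, ?_⟩
  obtain ⟨m, rfl⟩ : ∃ m : ℤ, n = m + 1 := ⟨n - 1, by ring⟩
  obtain ⟨δ, -, hδ⟩ := M.localization.exists_map F (-1) m
  intro y
  have h1 : δ y = 0 := by
    refine DirectSum.ext_component ℚ fun x => ?_
    have : Fact (Irreducible x.1) := ⟨x.2.2⟩
    rw [map_zero]
    have : CharZero (AdjoinRoot x.1) :=
      charZero_of_injective_algebraMap (algebraMap F (AdjoinRoot x.1)).injective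
    exact h (AdjoinRoot x.1) (-1) m (by omega) _
  have h2 : y ∈ LinearMap.ker δ := h1
  rw [hδ] at h2
  exact h2

theorem rigid_of_all_complex (h : RigidInCharZero M) : RigidDegreeZero M := by
  intro n
  refine rigidInf_of_rigidAt (M.good 0 n) ℚ bot_eq_top_rat fun d => ?_
  refine rigidAt_of_all (M.good 0 n) ℚ bot_eq_top_rat (fun F _ _ => ?_) d
  have : CharZero F := charZero_of_injective_algebraMap (algebraMap ℚ F).injective
  exact (h n F).2

/-- Let `C` be a class of smooth, separated, quasi-compact complex schemes which contains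
`Spec ℂ`, such as the smooth projective varieties. The following are equivalent:

1. `CHʲ(X, 2j - k)_ℚ = 0` for all `X` in `C`, all `j` and all `k < 0`;
2. `H⁰(ℚ(t₁, t₂, …), ℚ(n))` is finite dimensional for all `n`;
3. `H⁰(ℚ, ℚ(n)) → H⁰(ℚ(t₁, t₂, …), ℚ(n))` is bijective for all `n`;
4. `H⁰(F, ℚ(n)) → H⁰(F(t), ℚ(n))` is bijective for all `n` and all fields `F` of characteristic 0.

Moreover, for all `i < 0`, `n` and `d`, equivalent are: `Hⁱ(E, ℚ(n)) = 0` for all fields `E` of
transcendence degree at most `d` over `ℚ`; `Hⁱ⁺¹(ℚ(t₁, …, t_{d+1}), ℚ(n+1))` is finite dimensional;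
`Hⁱ⁺¹(ℚ, ℚ(n+1)) → Hⁱ⁺¹(ℚ(t₁, …, t_{d+1}), ℚ(n+1))` is bijective. -/
theorem main_complex (M : HigherChowLine) (C : VarietyClass) :
    [Vanishes M.toHigherChow C, FiniteDegreeZero M, RigidDegreeZero M, RigidInCharZero M].TFAE ∧
    ∀ (i n : ℤ) (d : ℕ), i < 0 →
      [VanishAt (M.H i n) ℚ d, FiniteAt (M.H (i + 1) (n + 1)) ℚ (d + 1),
        RigidAt (M.H (i + 1) (n + 1)) ℚ (d + 1)].TFAE := by
  have h0 : Vanishes M.toHigherChow C ↔ VanishesOnFields M.toHigherChow :=
    (main M.toHigherChow C).1.out 0 3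
  refine ⟨?_, fun i n d hi => law_complex i n d hi⟩
  tfae_have 1 → 4 := fun h => rigid_of_vanish_complex (h0.1 h)
  tfae_have 4 → 3 := fun h => rigid_of_all_complex h
  tfae_have 3 → 2 := by
    intro h n
    have := M.borelZero n
    exact Module.Finite.of_surjective _ (h n).2
  tfae_have 2 → 1 := fun h => h0.2 (fields_of_degree fun n E _ _ x => degree_of_finite h n E x)
  tfae_finish

end Pool.Agent.H51BS
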