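import Pool.Agent.Q26.TL.Core

/-!
# Rational function fields: generalities
-/

set_option autoImplicit false

namespace Pool.Agent.H51BS

open Polynomial IntermediateField

/-- `P(t₁, …, t_d)` -/
abbrev RatField (P : Type) [Field P] (d : ℕ) : Type := FractionRing (MvPolynomial (Fin d) P)

/-- the closed points of the affine line over `F` -/
abbrev ClosedPoint (F : Type) [Field F] : Type := {p : F[X] // p.Monic ∧ Irreducible p}

/-- homomorphisms from a field without proper subfields are unique -/
theorem hom_unique {P K : Type} [Field P] [Field K] (hP : (⊥ : Subfield P) = ⊤) (f g : P →+* K) :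
    f = g := by
  ext x
  have h1 : (⊥ : Subfield P) ≤ f.eqLocusField g := bot_le
  rw [hP] at h1
  exact h1 (Subfield.mem_top x)

section Succ

variable (P : Type) [Field P]

theorem polynomial_map_div (A K : Type) [CommRing A] [IsDomain A] [Field K] [Algebra A K]
    [IsFractionRing A K] (z : RatFunc K) : ∃ x y : A[X],
      z = algebraMap K[X] (RatFunc K) (x.map (algebraMap A K)) /
        algebraMap K[X] (RatFunc K) (y.map (algebraMap A K)) := by
  have h1 : ∀ f : K[X], ∃ (a : A) (g : A[X]), a ≠ 0 ∧
      g.map (algebraMap A K) = C (algebraMap A K a) * f := by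
    intro f
    obtain ⟨b, hb0, hb⟩ := IsLocalization.integerNormalization_spec (nonZeroDivisors A) f
    refine ⟨b, IsLocalization.integerNormalization (nonZeroDivisors A) f,
      nonZeroDivisors.ne_zero hb0, ?_⟩
    rw [hb]
    ext n
    rw [coeff_smul, coeff_C_mul, Algebra.smul_def]
  obtain ⟨f, g, hg, rfl⟩ := IsFractionRing.div_surjective (A := K[X]) z
  obtain ⟨a, f', ha, hf'⟩ := h1 f
  obtain ⟨b, g', hb, hg'⟩ := h1 g
  refine ⟨C b * f', C a * g', ?_⟩
  have ha' : algebraMap A K a ≠ 0 := by
    rwa [Ne, IsFractionRing.to_map_eq_zero_iff]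
  have hb' : algebraMap A K b ≠ 0 := by
    rwa [Ne, IsFractionRing.to_map_eq_zero_iff]
  have hc : ∀ c : K, c ≠ 0 → algebraMap K[X] (RatFunc K) (C c) ≠ 0 := by
    intro c hc h
    rw [map_eq_zero_iff _ (IsFractionRing.injective K[X] (RatFunc K))] at h
    exact hc (C_eq_zero.1 h)
  have hg0 : algebraMap K[X] (RatFunc K) g ≠ 0 := by
    intro h
    rw [map_eq_zero_iff _ (IsFractionRing.injective K[X] (RatFunc K))] at h
    exact (nonZeroDivisors.ne_zero hg) h
  rw [Polynomial.map_mul, Polynomial.map_mul, hf', hg', map_C, map_C, map_mul, map_mul, map_mul,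
    map_mul]
  have hA := hc _ ha'
  have hB := hc _ hb'
  generalize algebraMap K[X] (RatFunc K) (C (algebraMap A K a)) = u at hA ⊢
  generalize algebraMap K[X] (RatFunc K) (C (algebraMap A K b)) = v at hB ⊢
  generalize algebraMap K[X] (RatFunc K) f = F
  generalize algebraMap K[X] (RatFunc K) g = G at hg0 ⊢
  rw [div_eq_div_iff hg0 (mul_ne_zero hA (mul_ne_zero hB hg0))]
  ring

theorem exists_equiv_of_surj {R M : Type} [CommRing R] [IsDomain R] [Field M] (φ : R →+* M)
    (hφ : Function.Injective φ) (h : ∀ z, ∃ x y, z = φ x / φ y) :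
    Nonempty (M ≃+* FractionRing R) := by
  let : Algebra R M := φ.toAlgebra
  have h1 : FaithfulSMul R M := (faithfulSMul_iff_algebraMap_injective _ _).2 hφ
  have h2 : IsFractionRing R M := IsFractionRing.of_field R M h
  exact ⟨(IsLocalization.algEquiv (nonZeroDivisors R) M (FractionRing R)).toRingEquiv⟩

/-- `P(t₁, …, t_d)(t) = P(t₁, …, t_{d+1})` -/
theorem exists_equiv_succ (d : ℕ) : Nonempty (RatFunc (RatField P d) ≃+* RatField P (d + 1)) := by
  let A := MvPolynomial (Fin d) P
  let K := RatField P d
  let e : MvPolynomial (Fin (d + 1)) P ≃ₐ[P] A[X] := MvPolynomial.finSuccEquiv P d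
  let φ : MvPolynomial (Fin (d + 1)) P →+* RatFunc K :=
    ((algebraMap K[X] (RatFunc K)).comp (mapRingHom (algebraMap A K))).comp e.toRingEquiv.toRingHom
  have hφ : Function.Injective φ :=
    (Function.Injective.comp (IsFractionRing.injective K[X] (RatFunc K))
      (map_injective _ (IsFractionRing.injective A K))).comp e.injective
  refine exists_equiv_of_surj φ hφ fun z => ?_
  obtain ⟨x, y, hxy⟩ := polynomial_map_div A K z
  refine ⟨e.symm x, e.symm y, ?_⟩
  have h3 : ∀ w : A[X], φ (e.symm w) = algebraMap K[X] (RatFunc K) (w.map (algebraMap A K)) := by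
    intro w
    change algebraMap K[X] (RatFunc K) (mapRingHom (algebraMap A K) (e (e.symm w))) = _
    rw [AlgEquiv.apply_symm_apply]
    rfl
  rw [h3, h3]
  exact hxy

/-- `P() = P` -/
theorem exists_equiv_zero : ∃ f : RatField P 0 →+* P, Function.Injective f := by
  let e : MvPolynomial (Fin 0) P ≃+* P := (MvPolynomial.isEmptyAlgEquiv P (Fin 0)).toRingEquiv
  exact ⟨IsFractionRing.lift (A := MvPolynomial (Fin 0) P) (g := e.toRingHom) e.injective,
    RingHom.injective _⟩

end Succ

theorem trdeg_ratField (P : Type) [Field P] (d : ℕ) : Algebra.trdeg P (RatField P d) = d := by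
  have h1 := _root_.trdeg_add_eq P (MvPolynomial (Fin d) P) (A := RatField P d)
  have h2 : Algebra.trdeg (MvPolynomial (Fin d) P) (RatField P d) = 0 := by
    rw [_root_.trdeg_eq_zero_iff]
    exact IsLocalization.isAlgebraic _ (nonZeroDivisors _)
  rw [h2, add_zero, MvPolynomial.trdeg_of_isDomain] at h1
  rw [← h1]
  simp

/-- the residue fields of the affine line over `P(t₁, …, t_d)` have transcendence degree `d` -/
theorem trdeg_residue (P : Type) [Field P] (d : ℕ) (x : ClosedPoint (RatField P d)) :
    Algebra.trdeg P (AdjoinRoot x.1) = d := by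
  have : Fact (Irreducible x.1) := ⟨x.2.2⟩
  have h0 : x.1 ≠ 0 := x.2.2.ne_zero
  have hfin : Module.Finite (RatField P d) (AdjoinRoot x.1) := (AdjoinRoot.powerBasis h0).finite
  have h1 := _root_.trdeg_add_eq P (RatField P d) (A := AdjoinRoot x.1)
  have h2 : Algebra.trdeg (RatField P d) (AdjoinRoot x.1) = 0 := _root_.trdeg_eq_zero
  rw [h2, add_zero, trdeg_ratField] at h1
  exact h1.symm

/-- a finite separable extension of an infinite field is the residue field of infinitely many
closed points of the affine line -/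
theorem infinite_points (L K : Type) [Field L] [Infinite L] [Field K] [Algebra L K]
    [FiniteDimensional L K] [Algebra.IsSeparable L K] :
    {x : ClosedPoint L | Nonempty (K ≃+* AdjoinRoot x.1)}.Infinite := by
  obtain ⟨α, hα⟩ := Field.exists_primitive_element L K
  let β : L → K := fun a => α + algebraMap L K a
  have hint : ∀ a, IsIntegral L (β a) := fun a => Algebra.IsIntegral.isIntegral _
  let f : L → ClosedPoint L := fun a =>
    ⟨minpoly L (β a), minpoly.monic (hint a), minpoly.irreducible (hint a)⟩
  have htop : ∀ a, L⟮β a⟯ = ⊤ := by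
    intro a
    rw [eq_top_iff, ← hα, adjoin_simple_le_iff]
    have h1 : β a ∈ L⟮β a⟯ := mem_adjoin_simple_self L (β a)
    have h2 : algebraMap L K a ∈ L⟮β a⟯ := L⟮β a⟯.algebraMap_mem a
    have h3 := sub_mem h1 h2
    simpa [β] using h3
  have hsub : Set.range f ⊆ {x : ClosedPoint L | Nonempty (K ≃+* AdjoinRoot x.1)} := by
    rintro _ ⟨a, rfl⟩
    have e1 : AdjoinRoot (minpoly L (β a)) ≃ₐ[L] L⟮β a⟯ := adjoinRootEquivAdjoin L (hint a)
    have e2 : L⟮β a⟯ ≃ₐ[L] (⊤ : IntermediateField L K) := IntermediateField.equivOfEq (htop a)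
    exact ⟨((e1.trans e2).trans IntermediateField.topEquiv).symm.toRingEquiv⟩
  refine Set.Infinite.mono hsub ?_
  intro hfin
  have : Finite (Set.range f) := hfin
  obtain ⟨y, hy⟩ := Finite.exists_infinite_fiber (Set.rangeFactorization f)
  obtain ⟨a0⟩ : Nonempty (Set.rangeFactorization f ⁻¹' {y}) := inferInstance
  have hroots : ∀ a : (Set.rangeFactorization f ⁻¹' {y}), β a.1 ∈ (y.1.1.rootSet K) := by
    intro a
    have h1 : f a.1 = y.1 := congrArg Subtype.val a.2
    rw [mem_rootSet]
    refine ⟨y.1.2.1.ne_zero, ?_⟩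
    rw [← h1]
    exact minpoly.aeval L (β a.1)
  have hfin2 : (y.1.1.rootSet K).Finite := rootSet_finite _ _
  have : Finite (y.1.1.rootSet K) := hfin2
  have hinj : Function.Injective (fun a : (Set.rangeFactorization f ⁻¹' {y}) =>
      (⟨β a.1, hroots a⟩ : y.1.1.rootSet K)) := by
    intro a b hab
    have h1 : β a.1 = β b.1 := congrArg Subtype.val hab
    have h2 : algebraMap L K a.1 = algebraMap L K b.1 := add_left_cancel h1
    exact Subtype.ext ((algebraMap L K).injective h2)
  exact hy.not_finite (Finite.of_injective _ hinj)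

end Pool.Agent.H51BS
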