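import Pool.Agent.H51BS.Negative

/-!
# Regular proper flat arithmetic schemes in degrees at most zero
-/

set_option autoImplicit false

namespace Pool.Agent.H51BS

open Pool.Agent.Q26.TL CategoryTheory AlgebraicGeometry TensorProduct

/-- connected, regular, proper and flat over `ℤ` -/
def IsModel (X : Scheme.{0}) (f : X ⟶ SpecInt) : Prop := IsRegularProper X f ∧ Flat f

/-- the field `E` has characteristic zero and transcendence degree `s - 1` over `ℚ` -/
def KronQ (E : Type) [Field E] (s : ℕ) : Prop := ∃ _ : Algebra ℚ E, Algebra.trdeg ℚ E + 1 = s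

/-- the field `E` has transcendence degree `s` over some `𝔽_p` -/
def KronP (E : Type) [Field E] (s : ℕ) : Prop :=
  ∃ (p : ℕ) (_ : Fact p.Prime) (_ : Algebra (ZMod p) E), Algebra.trdeg (ZMod p) E = s

/-- Coniveau spectral sequence: if `X` is as in the question, of dimension `d`, and
`Hʲ(X, ℚ(m)) ≠ 0`, then `Hʲ⁻²ᶜ(κ(x), ℚ(m-c)) ≠ 0` for some point `x` of codimension `c`; its residue
field has Kronecker dimension `d - c`, and characteristic zero if `c = 0`. -/
def ConiveauFlat (H : ℤ → ℤ → Fun) (HX : Scheme.{0} → ℤ → ℤ → ModuleCat.{0} ℚ) : Prop :=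
  ∀ (X : Scheme.{0}) (f : X ⟶ SpecInt), IsModel X f → ∀ d : ℕ, topologicalKrullDim X = d →
    ∀ j m : ℤ, ∀ y : HX X j m, y ≠ 0 →
      ∃ (x : X) (c s : ℕ), CodimEq X x c ∧ s + c = d ∧
        (KronQ (X.residueField x) s ∨ (1 ≤ c ∧ KronP (X.residueField x) s)) ∧
        ClassAt H X x (j - 2 * c) (m - c)

/-- Models: if `E` is a finitely generated field of transcendence degree `s - 1` over `ℚ` and
`Hʲ(E, ℚ(m)) ≠ 0`, then there is an `X` as in the question, of dimension `s` (with function field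
finite over `E`, de Jong), such that `Hʲ(X, ℚ(m)) ≠ 0` or (obstruction to lifting from the generic
point) `Hʲ⁺¹⁻²ᶜ(κ(x), ℚ(m-c)) ≠ 0` for some point `x` of codimension `c ≥ 1`. -/
def ModelsFlat (H : ℤ → ℤ → Fun) (HX : Scheme.{0} → ℤ → ℤ → ModuleCat.{0} ℚ) : Prop :=
  ∀ (E : Type) [Field E] [Algebra.EssFiniteType ℤ E] (s : ℕ), KronQ E s → ∀ j m : ℤ,
    ∀ z : V (H j m) E, z ≠ 0 →
      ∃ (X : Scheme.{0}) (f : X ⟶ SpecInt), IsModel X f ∧ topologicalKrullDim X = s ∧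
        ((∃ y : HX X j m, y ≠ 0) ∨ ∃ (x : X) (c s' : ℕ), 1 ≤ c ∧ CodimEq X x c ∧ s' + c = s ∧
          (KronQ (X.residueField x) s' ∨ KronP (X.residueField x) s') ∧
          ClassAt H X x (j + 1 - 2 * c) (m - c))

/-- Borel: `Hʲ(k, ℚ(m)) = 0` for `j ≤ 0`, `m ≥ 1` and `k` an algebraic closure of `ℚ` -/
def BorelClosure (H : ℤ → ℤ → Fun) : Prop :=
  ∀ (k : Type) [Field k] [Algebra ℚ k] [IsAlgClosure ℚ k] (j m : ℤ), j ≤ 0 → 1 ≤ m →
    ∀ x : V (H j m) k, x = 0

/-- Borel: `Hʲ(ℚ, ℚ(m))` is finite dimensional for `m ≥ 2` -/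
def BorelFinite (H : ℤ → ℤ → Fun) : Prop :=
  ∀ j m : ℤ, 2 ≤ m → Module.Finite ℚ (V (H j m) ℚ)

/-- `Hʲ(F, ℚ(0)) = 0` for `j ≠ 0` and `Hʲ(F, ℚ(1)) = 0` for `j ≠ 1`, for all fields `F` -/
def LowWeights (H : ℤ → ℤ → Fun) : Prop :=
  ∀ (F : Type) [Field F] (j : ℤ),
    (j ≠ 0 → ∀ x : V (H j 0) F, x = 0) ∧ (j ≠ 1 → ∀ x : V (H j 1) F, x = 0)

/-- real Deligne cohomology `Hʲ_𝒟(X_{/ℝ}, ℝ(m))` vanishes for `j ≤ 0` and `m ≥ 1` -/
def DeligneLow (Del : Scheme.{0} → ℤ → ℤ → ModuleCat.{0} ℝ) : Prop :=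
  ∀ (X : Scheme.{0}) (j m : ℤ), j ≤ 0 → 1 ≤ m → ∀ x : Del X j m, x = 0

/-- the real vector space `V ⊗ ℝ` -/
noncomputable def realify (V : ModuleCat.{0} ℚ) : ModuleCat.{0} ℝ := ModuleCat.of ℝ (ℝ ⊗[ℚ] V)

/-- the map `φ` is bijective -/
def IsBij {V W : ModuleCat.{0} ℝ} (φ : V ⟶ W) : Prop := Function.Bijective φ.hom

/-- Rational motivic cohomology of rings (`Theory`), the groups `HX X j m = Hʲ(X, ℚ(m))` and
`Del X j m = Hʲ_𝒟(X_{/ℝ}, ℝ(m))` of schemes over `ℤ`, the regulator, and the published facts about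
them. -/
structure RegulatorTheory extends Theory where
  HX : Scheme.{0} → ℤ → ℤ → ModuleCat.{0} ℚ
  Del : Scheme.{0} → ℤ → ℤ → ModuleCat.{0} ℝ
  reg : ∀ (X : Scheme.{0}) (j m : ℤ), realify (HX X j m) ⟶ Del X j m
  localization : Localization H
  borelClosure : BorelClosure H
  borelFinite : BorelFinite H
  lowWeights : LowWeights H
  coniveau : ConiveauFlat H HX
  models : ModelsFlat H HX
  deligneLow : DeligneLow Del

variable (M : RegulatorTheory) (D : ℕ)

/-- The question in degrees at most zero and dimension at most `D`: for all `X` as in the question,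
`d = dim X ≤ D`, and all `i ≥ 1` with `2d - 1 - i ≤ 0` the map
`r_i : H^{2d-1-i}(X, ℚ(d)) ⊗ ℝ → H_𝒟^{2d-1-i}(X_{/ℝ}, ℝ(d))` is bijective -/
def QuestionLow : Prop :=
  ∀ (X : Scheme.{0}) (f : X ⟶ SpecInt), IsModel X f → ∀ d : ℕ, 1 ≤ d → d ≤ D →
    topologicalKrullDim X = d → ∀ i : ℤ, 1 ≤ i → 2 * d - 1 - i ≤ 0 →
      IsBij (M.reg X (2 * d - 1 - i) d)

/-- `Hʲ(E, ℚ(s)) = 0` for all `j ≤ 0`, all `s` with `1 ≤ s ≤ D` and all fields `E` of transcendence
degree at most `s - 1` over `ℚ` -/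
def FieldsQ : Prop := ∀ e : ℕ, e + 1 ≤ D → ∀ j : ℤ, j ≤ 0 → VanishAt (M.H j ((e + 1 : ℕ) : ℤ)) ℚ e

/-- `Hʲ(ℚ(t₁, …, t_s), ℚ(s+1))` is finite dimensional for all `j ≤ 1` and all `s` with
`1 ≤ s ≤ D` -/
def RationalQ : Prop :=
  ∀ e : ℕ, e + 1 ≤ D → ∀ j : ℤ, j ≤ 1 → FiniteAt (M.H j (((e + 1 : ℕ) : ℤ) + 1)) ℚ (e + 1)

/-- `Hʲ(E, ℚ(s)) = 0` for all `j < 0`, all `s < D`, all primes `p` and all fields `E` of
transcendence degree at most `s` over `𝔽_p` -/
def CharPart : Prop :=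
  ∀ (p : ℕ) [Fact p.Prime] (s : ℕ), s < D → ∀ j : ℤ, j < 0 → VanishAt (M.H j s) (ZMod p) s

variable {M D}

theorem bijective_iff (X : Scheme.{0}) (j m : ℤ) (hj : j ≤ 0) (hm : 1 ≤ m) :
    IsBij (M.reg X j m) ↔ ∀ y : M.HX X j m, y = 0 := by
  have hD : Subsingleton (M.Del X j m) :=
    ⟨fun a b => (M.deligneLow X j m hj hm a).trans (M.deligneLow X j m hj hm b).symm⟩
  constructor
  · intro h y
    have h0 : Function.Injective (M.reg X j m).hom := h.1
    have h1 : (1 : ℝ) ⊗ₜ[ℚ] y = (0 : ℝ ⊗[ℚ] M.HX X j m) := h0 (Subsingleton.elim _ _)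
    have h2 : Function.Injective (TensorProduct.mk ℚ ℝ (M.HX X j m) 1) :=
      Module.FaithfullyFlat.tensorProduct_mk_injective (A := ℚ) (B := ℝ) (M.HX X j m)
    exact h2 (h1.trans (map_zero _).symm)
  · intro h
    have h1 : ∀ z : ℝ ⊗[ℚ] M.HX X j m, z = 0 := by
      intro z
      induction z using TensorProduct.induction_on with
      | zero => rfl
      | tmul a b => rw [h b, TensorProduct.tmul_zero]
      | add a b ha hb => rw [ha, hb, add_zero]
    exact ⟨fun a b _ => (h1 a).trans (h1 b).symm, fun b => ⟨0, Subsingleton.elim _ _⟩⟩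

theorem questionLow_iff : QuestionLow M D ↔
    ∀ (X : Scheme.{0}) (f : X ⟶ SpecInt), IsModel X f → ∀ d : ℕ, 1 ≤ d → d ≤ D →
      topologicalKrullDim X = d → ∀ j : ℤ, j ≤ 0 → ∀ y : M.HX X j d, y = 0 := by
  constructor
  · intro h X f hf d hd1 hd hX j hj
    have h1 := h X f hf d hd1 hd hX (2 * d - 1 - j) (by omega) (by omega)
    rw [show 2 * (d : ℤ) - 1 - (2 * d - 1 - j) = j by ring] at h1
    exact (bijective_iff X j d hj (by omega)).1 h1
  · intro h X f hf d hd1 hd hX i hi1 hi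
    exact (bijective_iff X _ d hi (by omega)).2 (h X f hf d hd1 hd hX _ hi)

theorem fieldsQ_iff : FieldsQ M D ↔ RationalQ M D := by
  have h0 : ∀ (e : ℕ) (j : ℤ), j ≤ 0 → (VanishAt (M.H j ((e + 1 : ℕ) : ℤ)) ℚ e ↔
      FiniteAt (M.H (j + 1) (((e + 1 : ℕ) : ℤ) + 1)) ℚ (e + 1)) := fun e j hj =>
    (law M.good M.localization j ((e + 1 : ℕ) : ℤ) ℚ bot_eq_top_rat'
      (fun k _ _ _ => M.borelClosure k j _ hj (by push_cast; omega))
      (M.borelFinite (j + 1) _ (by push_cast; omega)) e).out 0 1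
  constructor
  · intro h e he j hj
    have h1 := (h0 e (j - 1) (by omega)).1 (h e he (j - 1) (by omega))
    rwa [sub_add_cancel] at h1
  · intro h e he j hj
    exact (h0 e j hj).2 (h e he (j + 1) (by omega))

theorem KronQ.exists {E : Type} [Field E] {s : ℕ} (h : KronQ E s) :
    ∃ (e : ℕ) (_ : Algebra ℚ E), s = e + 1 ∧ Algebra.trdeg ℚ E = e := by
  obtain ⟨i, hE⟩ := h
  have hs1 : 1 ≤ s := by
    by_contra hcon
    obtain rfl : s = 0 := by omega
    have h3 : (1 : Cardinal) ≤ Algebra.trdeg ℚ E + 1 := le_add_self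
    rw [hE] at h3
    exact absurd h3 (by simp)
  obtain ⟨e, rfl⟩ : ∃ e, s = e + 1 := ⟨s - 1, by omega⟩
  refine ⟨e, i, rfl, ?_⟩
  have h5 : Algebra.trdeg ℚ E + 1 = (e : Cardinal) + 1 := by
    rw [hE]
    push_cast
    rfl
  simpa using h5

theorem zero_of_fieldsQ (hp : CharPart M D) (h : FieldsQ M D) (X : Scheme.{0}) (f : X ⟶ SpecInt)
    (hf : IsModel X f) (d : ℕ) (hd : d ≤ D) (hX : topologicalKrullDim X = d) (j : ℤ) (hj : j ≤ 0)
    (y : M.HX X j d) : y = 0 := by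
  by_contra hy
  obtain ⟨x, c, s, -, hsc, hs, h2⟩ := M.coniveau X f hf d hX j d y hy
  have h1 : (d : ℤ) - c = s := by omega
  rw [h1] at h2
  rcases hs with hs | ⟨hc, p, _, _, hs⟩
  · obtain ⟨e, _, rfl, he⟩ := hs.exists
    obtain ⟨z, hz⟩ := h2
    exact hz (h e (by omega) (j - 2 * c) (by omega) (X.residueField x) he.le z)
  · obtain ⟨z, hz⟩ := h2
    exact hz (hp p s (by omega) (j - 2 * c) (by omega) (X.residueField x) hs.le z)

theorem fieldsQ_of_zero (hp : CharPart M D)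
    (h : ∀ (X : Scheme.{0}) (f : X ⟶ SpecInt), IsModel X f → ∀ d : ℕ, 1 ≤ d → d ≤ D →
      topologicalKrullDim X = d → ∀ j : ℤ, j ≤ 0 → ∀ y : M.HX X j d, y = 0) : FieldsQ M D := by
  intro e
  induction e using Nat.strong_induction_on with
  | _ e ih =>
    intro he j hj E _ _ hE x
    by_contra hx
    obtain ⟨K, _, _, hf, hK, y, hy⟩ := exists_exact (M.good j ((e + 1 : ℕ) : ℤ)) ℚ E e hE x hx
    have hKe : Algebra.EssFiniteType ℤ K := essFiniteType_of_rat K
    have hKs : KronQ K (e + 1) := by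
      refine ⟨inferInstance, ?_⟩
      rw [hK]
      push_cast
      rfl
    obtain ⟨X, f, hf, hX, ⟨z, hz⟩ | ⟨q, c, s', hc, -, hcs, hs', h2⟩⟩ :=
      M.models K (e + 1) hKs j _ y hy
    · exact hz (h X f hf (e + 1) (by omega) he hX j hj z)
    · have h3 : ((e + 1 : ℕ) : ℤ) - c = s' := by omega
      rw [h3] at h2
      rcases hs' with hs' | ⟨p, _, _, hs'⟩
      · obtain ⟨e', _, rfl, he'⟩ := hs'.exists
        obtain ⟨z, hz⟩ := h2
        exact hz (ih e' (by omega) (by omega) (j + 1 - 2 * c) (by omega) (X.residueField q)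
          he'.le z)
      · obtain ⟨z, hz⟩ := h2
        exact hz (hp p s' (by omega) (j + 1 - 2 * c) (by omega) (X.residueField q) hs'.le z)

/-- the law for each dimension, given the part of positive characteristic -/
theorem main_flat (M : RegulatorTheory) (D : ℕ) (hp : CharPart M D) :
    [QuestionLow M D, FieldsQ M D, RationalQ M D].TFAE := by
  tfae_have 2 ↔ 3 := fieldsQ_iff
  tfae_have 2 → 1 := fun h => questionLow_iff.2 fun X f hf d _ hd hX j hj y =>
    zero_of_fieldsQ hp h X f hf d hd hX j hj y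
  tfae_have 1 → 2 := fun h => fieldsQ_of_zero hp (questionLow_iff.1 h)
  tfae_finish

variable (M) in
/-- `Hʲ(E, ℚ(2)) = 0` for all `j ≤ 0` and all fields `E` of transcendence degree at most one over
`ℚ` -/
def CurvesZero : Prop := ∀ j : ℤ, j ≤ 0 → VanishAt (M.H j 2) ℚ 1

variable (M) in
/-- `Hʲ(ℚ(t₁, t₂), ℚ(3))` is finite dimensional for all `j ≤ 1` -/
def PlaneFinite : Prop := ∀ j : ℤ, j ≤ 1 → FiniteAt (M.H j 3) ℚ 2

/-- the part of positive characteristic is known for `D = 2` -/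
theorem charPart_two (M : RegulatorTheory) : CharPart M 2 := by
  intro p _ s hs j hj E _ _ _ x
  interval_cases s
  · exact (M.lowWeights E j).1 (by omega) x
  · exact (M.lowWeights E j).2 (by omega) x

theorem curvesZero_iff : CurvesZero M ↔ FieldsQ M 2 := by
  constructor
  · intro h e he j hj
    obtain rfl | rfl : e = 0 ∨ e = 1 := by omega
    · intro E _ _ _ x
      exact (M.lowWeights E j).2 (by omega) x
    · exact h j hj
  · intro h j hj
    exact h 1 (by omega) j hj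

theorem planeFinite_iff : PlaneFinite M ↔ CurvesZero M := by
  have h0 : ∀ j : ℤ, j ≤ 0 → (VanishAt (M.H j 2) ℚ 1 ↔ FiniteAt (M.H (j + 1) (2 + 1)) ℚ (1 + 1)) :=
    fun j hj => (law M.good M.localization j 2 ℚ bot_eq_top_rat'
      (fun k _ _ _ => M.borelClosure k j 2 hj (by omega))
      (M.borelFinite (j + 1) _ (by omega)) 1).out 0 1
  constructor
  · intro h j hj
    exact (h0 j hj).2 (h (j + 1) (by omega))
  · intro h j hj
    have h1 := (h0 (j - 1) (by omega)).1 (h (j - 1) (by omega))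
    rwa [sub_add_cancel] at h1

/-- the law for arithmetic surfaces -/
theorem main_surfaces (M : RegulatorTheory) :
    [QuestionLow M 2, CurvesZero M, PlaneFinite M].TFAE := by
  have h := main_flat M 2 (charPart_two M)
  tfae_have 1 ↔ 2 := (h.out 0 1).trans curvesZero_iff.symm
  tfae_have 2 ↔ 3 := planeFinite_iff.symm
  tfae_finish

end Pool.Agent.H51BS
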