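import Pool.Agent.H51BS.Proper

/-!
# The homological Parshin conjecture in negative weights and rational function fields
-/

set_option autoImplicit false

namespace Pool.Agent.H51BS

open Pool.Agent.Q26.TL CategoryTheory AlgebraicGeometry

attribute [local instance] MvPolynomial.gradedAlgebra in
/-- the projective space of dimension `N` over `𝔽_p` -/
noncomputable def projSpace (p : ℕ) [Fact p.Prime] (N : ℕ) : Scheme.{0} :=
  Proj (MvPolynomial.homogeneousSubmodule (Fin (N + 1)) (ZMod p))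

/-- smooth and projective over `𝔽_p` -/
def IsSmoothProjective (p : ℕ) [Fact p.Prime] (X : Scheme.{0}) : Prop :=
  ∃ f : X ⟶ SpecFp p, Smooth f ∧ ∃ (N : ℕ) (g : X ⟶ projSpace p N), IsClosedImmersion g

/-- The groups `HB X m i = H_i^c(X, ℤ(m))` and the maps to `HQ X m (-i) = H_i^c(X, ℚ(m))`, the
tensor product with `ℚ`: a class is torsion if and only if its image is zero, and every class with
rational coefficients is a rational multiple of an image. -/
def IsRationalPart (HB : Scheme.{0} → ℤ → ℤ → AddCommGrpCat.{0})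
    (HQ : Scheme.{0} → ℤ → ℤ → ModuleCat.{0} ℚ) : Prop :=
  ∀ (X : Scheme.{0}) (m i : ℤ), ∃ q : HB X m i →+ HQ X m (-i),
    (∀ a, q a = 0 ↔ IsOfFinAddOrder a) ∧ ∀ y, ∃ (r : ℚ) (a : HB X m i), y = r • q a

/-- Consequence of the alterations of de Jong, localisation and transfer: as `Alterations`, with `Y`
smooth and projective over `𝔽_p`. -/
def AlterationsProjective (HQ : Scheme.{0} → ℤ → ℤ → ModuleCat.{0} ℚ) : Prop :=
  ∀ (p : ℕ) [Fact p.Prime] (X : Scheme.{0}) (f : X ⟶ SpecFp p), IsFiniteTypeOver p X f →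
    ∀ n i : ℤ, n < 0 → ∀ y : HQ X n i, y ≠ 0 →
      ∃ Y : Scheme.{0}, IsSmoothProjective p Y ∧
        topologicalKrullDim Y ≤ topologicalKrullDim X ∧ ∃ (j : ℤ) (z : HQ Y n j), z ≠ 0

/-- projective schemes are separated and of finite type -/
def ProjectiveFiniteType : Prop :=
  ∀ (p : ℕ) [Fact p.Prime] (X : Scheme.{0}), IsSmoothProjective p X →
    ∃ f : X ⟶ SpecFp p, IsFiniteTypeOver p X f

/-- `H_{2m}^c(X, ℚ(m)) = CH_m(X) ⊗ ℚ = 0` for `m < 0` -/
def NoCycles (HQ : Scheme.{0} → ℤ → ℤ → ModuleCat.{0} ℚ) : Prop :=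
  ∀ (X : Scheme.{0}) (m : ℤ), m < 0 → ∀ y : HQ X m (-(2 * m)), y = 0

/-- A `CycleTheory` with the groups `HB X m i = H_i^c(X, ℤ(m))`, and further published facts. -/
structure HomologicalTheory extends CycleTheory where
  HB : Scheme.{0} → ℤ → ℤ → AddCommGrpCat.{0}
  rational : IsRationalPart HB HQ
  alterations : AlterationsProjective HQ
  projective : ProjectiveFiniteType
  noCycles : NoCycles HQ

/-- `P_m(d)` over `𝔽_p`: `H_i^c(X, ℤ(m))` is torsion for all `i ≠ 2m` and all smooth projective `X`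
over `𝔽_p` of dimension at most `d` -/
def ParshinAt (M : HomologicalTheory) (p : ℕ) [Fact p.Prime] (m : ℤ) (d : ℕ) : Prop :=
  ∀ X : Scheme.{0}, IsSmoothProjective p X → topologicalKrullDim X ≤ d →
    ∀ i : ℤ, i ≠ 2 * m → ∀ a : M.HB X m i, IsOfFinAddOrder a

/-- For a prime `p`, `m < 0` and `d ≥ 0` equivalent are: `P_m(d)` over `𝔽_p`; finite dimensionality
of `Hʲ(𝔽_p(t₁, …, t_{d+1}), ℚ(d+1-m))` for all `j`; vanishing of these spaces; vanishing of
`Hʲ(E, ℚ(d-m))` for all `j` and all fields `E` of transcendence degree at most `d` over `𝔽_p`. -/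
theorem main_homological (M : HomologicalTheory) (p : ℕ) [Fact p.Prime] (m : ℤ) (d : ℕ)
    (hm : m < 0) :
    [ParshinAt M p m d, RationalFinite M.toCycleTheory p m d, RationalZero M.toCycleTheory p m d,
      FieldsZero M.toCycleTheory p m d].TFAE := by
  have h := main_arith M.toCycleTheory p m d hm
  tfae_have 2 ↔ 3 := h.out 2 3
  tfae_have 3 ↔ 4 := h.out 3 4
  tfae_have 4 → 1 := by
    intro h X hX hd i _ a
    obtain ⟨f, hf⟩ := M.projective p X hX
    obtain ⟨q, hq, -⟩ := M.rational X m i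
    exact (hq a).1 ((fieldsZero_iff hm).1 h X f hf hd (-i) (q a))
  tfae_have 1 → 4 := by
    intro h
    refine (fieldsZero_iff hm).2 fun X f hf hX i y => ?_
    by_contra hy
    obtain ⟨Y, hY, hYX, j, z, hz⟩ := M.alterations p X f hf m i hm y hy
    rcases eq_or_ne (-j) (2 * m) with hj | hj
    · obtain rfl : j = -(2 * m) := by omega
      exact hz (M.noCycles Y m hm z)
    · obtain ⟨q, hq, hq2⟩ := M.rational Y m (-j)
      obtain ⟨r, a, ha⟩ := hq2 (cast (by rw [neg_neg]) z)
      have h1 : q a = 0 := (hq a).2 (h Y hY (hYX.trans hX) (-j) hj a)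
      rw [h1, smul_zero] at ha
      have h2 : ∀ (k : ℤ) (hk : k = j) (y : M.HQ Y m k), HEq y z → y = 0 → z = 0 := by
        rintro k rfl y h3 h4
        rw [← eq_of_heq h3, h4]
      exact hz (h2 (- -j) (neg_neg j) _ (cast_heq _ _) ha)
  tfae_finish

end Pool.Agent.H51BS
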