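import Pool.Agent.H51BS.Law

/-!
# The rational function field in infinitely many variables
-/

set_option autoImplicit false

namespace Pool.Agent.H51BS

open Pool.Agent.Q26.TL Polynomial IntermediateField CategoryTheory

/-- `P(t₁, t₂, …)` -/
abbrev InfField (P : Type) [Field P] : Type := FractionRing (MvPolynomial ℕ P)

/-- the ring `P(t₁, t₂, …)` -/
noncomputable def infRing (P : Type) [Field P] : CommRingCat.{0} := CommRingCat.of (InfField P)

/-- the inclusion of `P` in `P(t₁, t₂, …)` -/
noncomputable def infHom (P : Type) [Field P] : CommRingCat.of P ⟶ infRing P :=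
  CommRingCat.ofHom (algebraMap P (InfField P))

/-- `H(P(t₁, t₂, …))` is finite dimensional -/
def FiniteInf (H : Fun) (P : Type) [Field P] : Prop := FiniteDim H (infRing P)

/-- `H(P) → H(P(t₁, t₂, …))` is bijective -/
def RigidInf (H : Fun) (P : Type) [Field P] : Prop := Bijects H (infHom P)

/-- the subfields generated by finite sets of variables are rational function fields -/
theorem exists_finite_subfield (P : Type) [Field P] (s : Finset (InfField P)) :
    ∃ (d : ℕ) (L : IntermediateField P (InfField P)), (∀ z ∈ s, z ∈ L) ∧
      Nonempty (L ≃+* RatField P d) := by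
  classical
  let b : ℕ → InfField P := fun i => algebraMap (MvPolynomial ℕ P) (InfField P) (MvPolynomial.X i)
  have hb : AlgebraicIndependent P b :=
    (MvPolynomial.algebraicIndependent_X ℕ P).map' (f := IsScalarTower.toAlgHom P
      (MvPolynomial ℕ P) (InfField P)) (IsFractionRing.injective _ _)
  have htop : IntermediateField.adjoin P (Set.range b) = ⊤ := by
    rw [eq_top_iff]
    intro z _
    obtain ⟨x, y, -, rfl⟩ := IsFractionRing.div_surjective (A := MvPolynomial ℕ P) z
    have h1 : ∀ w : MvPolynomial ℕ P, algebraMap (MvPolynomial ℕ P) (InfField P) w ∈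
        IntermediateField.adjoin P (Set.range b) := by
      intro w
      have h2 : algebraMap (MvPolynomial ℕ P) (InfField P) w = MvPolynomial.aeval b w := by
        have h3 : (IsScalarTower.toAlgHom P (MvPolynomial ℕ P) (InfField P)) =
            MvPolynomial.aeval b := by
          apply MvPolynomial.algHom_ext
          intro i
          rw [MvPolynomial.aeval_X]
          rfl
        exact congrArg (fun g => g w) h3
      rw [h2]
      have h4 : MvPolynomial.aeval b w ∈ Algebra.adjoin P (Set.range b) := by
        rw [Algebra.adjoin_range_eq_range_aeval]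
        exact ⟨w, rfl⟩
      exact IntermediateField.algebra_adjoin_le_adjoin P _ h4
    exact div_mem (h1 x) (h1 y)
  have hT : ∀ z : InfField P, ∃ T : Finset (InfField P), (T : Set (InfField P)) ⊆ Set.range b ∧
      z ∈ IntermediateField.adjoin P (T : Set (InfField P)) := by
    intro z
    have hz : z ∈ IntermediateField.adjoin P (Set.range b) := by
      rw [htop]
      exact IntermediateField.mem_top
    exact IntermediateField.exists_finset_of_mem_adjoin hz
  choose T hT1 hT2 using hT
  let U : Finset (InfField P) := s.biUnion T
  have hU : (U : Set (InfField P)) ⊆ Set.range b := by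
    intro z hz
    obtain ⟨w, -, hw⟩ := Finset.mem_biUnion.1 (Finset.mem_coe.1 hz)
    exact hT1 w hw
  refine ⟨U.card, IntermediateField.adjoin P (U : Set (InfField P)), ?_, ?_⟩
  · intro z hz
    refine IntermediateField.adjoin.mono P _ _ ?_ (hT2 z)
    exact Finset.coe_subset.2 (Finset.subset_biUnion_of_mem T hz)
  · have h1 : AlgebraicIndependent P ((↑) : U → InfField P) :=
      AlgebraicIndependent.mono hU hb.to_subtype_range
    have h3 : Set.range ((↑) : U → InfField P) = (U : Set (InfField P)) := by simp
    let e2 : FractionRing (MvPolynomial U P) ≃ₐ[P] IntermediateField.adjoin P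
      (Set.range ((↑) : U → InfField P)) := h1.aevalEquivField
    let e3 : IntermediateField.adjoin P (U : Set (InfField P)) ≃ₐ[P]
        IntermediateField.adjoin P (Set.range ((↑) : U → InfField P)) :=
      IntermediateField.equivOfEq (by rw [h3])
    let e4 : MvPolynomial U P ≃+* MvPolynomial (Fin U.card) P :=
      (MvPolynomial.renameEquiv P U.equivFin).toRingEquiv
    let e5 : FractionRing (MvPolynomial U P) ≃+* RatField P U.card :=
      IsFractionRing.ringEquivOfRingEquiv e4
    exact ⟨(e3.trans e2.symm).toRingEquiv.trans e5⟩

theorem rigidInf_of_rigidAt {H : Fun} (good : Good H) (P : Type) [Field P]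
    (hP : (⊥ : Subfield P) = ⊤) (h : ∀ d, RigidAt H P d) : RigidInf H P := by
  suffices hs : Function.Surjective (mp H (algebraMap P (InfField P))) from
    ⟨good.inj (algebraMap P (InfField P)), hs⟩
  have h' : ∀ d, Function.Surjective (mp H (algebraMap P (RatField P d))) := fun d => (h d).2
  intro y
  obtain ⟨s, y0, rfl⟩ := good.fin1 (InfField P) y
  obtain ⟨d, L, hL, ⟨e⟩⟩ := exists_finite_subfield P s
  have hle : Subring.closure (s : Set (InfField P)) ≤ L.toSubring := by
    rw [Subring.closure_le]
    exact hL
  let ι : Subring.closure (s : Set (InfField P)) →+* L := Subring.inclusion hle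
  have h1 : toField H (clos s) y0 = mp H (algebraMap L (InfField P)) (mp H ι y0) := by
    rw [mp_mp]
    rfl
  obtain ⟨y3, hy3⟩ := h' d (mp H e.toRingHom (mp H ι y0))
  have h2 : mp H e.symm.toRingHom (mp H e.toRingHom (mp H ι y0)) = mp H ι y0 := by
    rw [mp_mp]
    have h4 : e.symm.toRingHom.comp e.toRingHom = RingHom.id L := by
      ext x
      exact congrArg Subtype.val (e.symm_apply_apply x)
    rw [h4, mp_id]
  refine ⟨y3, ?_⟩
  rw [h1, ← h2, ← hy3, mp_mp, mp_mp]
  congr 2
  exact hom_unique hP _ _

theorem finiteAt_of_finiteInf {H : Fun} (good : Good H) (P : Type) [Field P]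
    (h : FiniteInf H P) (d : ℕ) : FiniteAt H P d := by
  let g1 : MvPolynomial (Fin d) P →+* InfField P :=
    (algebraMap (MvPolynomial ℕ P) (InfField P)).comp
      (MvPolynomial.rename (Fin.val : Fin d → ℕ)).toRingHom
  have hg1 : Function.Injective g1 :=
    (IsFractionRing.injective _ _).comp (MvPolynomial.rename_injective _ Fin.val_injective)
  let g2 : RatField P d →+* InfField P := IsFractionRing.lift hg1
  have : Module.Finite ℚ (V H (InfField P)) := h
  exact Module.Finite.of_injective _ (good.inj g2)

end Pool.Agent.H51BS
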