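import Pool.Agent.H51BS.Arith

/-!
# The Bass conjecture over finite fields in degrees above the dimension
-/

set_option autoImplicit false

namespace Pool.Agent.H51BS

open Pool.Agent.Q26.TL CategoryTheory AlgebraicGeometry

/-- of finite type over `𝔽_p` -/
def IsFT (p : ℕ) [Fact p.Prime] (X : Scheme.{0}) (f : X ⟶ SpecFp p) : Prop :=
  LocallyOfFiniteType f ∧ QuasiCompact f

/-- all local rings are regular -/
def IsRegularSch (X : Scheme.{0}) : Prop := ∀ x : X, IsRegularLocalRing (X.presheaf.stalk x)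

/-- there is a nonzero class in `K_n(κ(x)) ⊗ ℚ` -/
def KClassAt (K : ℤ → Fun) (X : Scheme.{0}) (x : X) (n : ℤ) : Prop :=
  ∃ z : V (K n) (X.residueField x), z ≠ 0

/-- Quillen: `K_n(k) ⊗ ℚ = 0` for `n ≥ 1` and `k` an algebraic closure of `𝔽_p` -/
def QuillenK (K : ℤ → Fun) : Prop :=
  ∀ (p : ℕ) [Fact p.Prime] (k : Type) [Field k] [Algebra (ZMod p) k] [IsAlgClosure (ZMod p) k]
    (n : ℤ), 1 ≤ n → ∀ x : V (K n) k, x = 0

/-- Consequence of the spectral sequence of Brown, Gersten and Quillen: if `X` is of finite type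
over `𝔽_p` and `K'_n(X) ⊗ ℚ ≠ 0`, then `K_n(κ(x)) ⊗ ℚ ≠ 0` for some point `x` of `X`; the residue
field of `x` has transcendence degree at most `dim X`. -/
def NiveauK (K : ℤ → Fun) (GQ : Scheme.{0} → ℤ → ModuleCat.{0} ℚ) : Prop :=
  ∀ (p : ℕ) [Fact p.Prime] (X : Scheme.{0}) (f : X ⟶ SpecFp p), IsFT p X f →
    ∀ n : ℤ, ∀ y : GQ X n, y ≠ 0 →
      ∃ (x : X) (s : ℕ), PointDegree p X f x s ∧ s ≤ topologicalKrullDim X ∧ KClassAt K X x n

/-- Continuity: if `E` is a finitely generated field of transcendence degree `s` over `𝔽_p` and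
`K_n(E) ⊗ ℚ ≠ 0`, then `K'_n(X) ⊗ ℚ ≠ 0` for some regular `X`, of finite type and of dimension at
most `s` over `𝔽_p`. -/
def GenericK (K : ℤ → Fun) (GQ : Scheme.{0} → ℤ → ModuleCat.{0} ℚ) : Prop :=
  ∀ (p : ℕ) [Fact p.Prime] (E : Type) [Field E] [Algebra (ZMod p) E]
    [Algebra.EssFiniteType (ZMod p) E] (s : ℕ), Algebra.trdeg (ZMod p) E = s →
    ∀ n : ℤ, ∀ z : V (K n) E, z ≠ 0 →
      ∃ (X : Scheme.{0}) (f : X ⟶ SpecFp p), IsFT p X f ∧ IsRegularSch X ∧
        topologicalKrullDim X ≤ s ∧ ∃ y : GQ X n, y ≠ 0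

/-- For `X` of finite type over `𝔽_p` and `n > dim X` there is a surjective map with finite kernel
from `K'_n(X)` to `K'_n(X) ⊗ ℚ`: the groups `K'_m(X; ℚ/ℤ)` are finite for `m > dim X` (Voevodsky
and Rost, Geisser and Levine, Deligne). -/
def FiniteTorsionK (G : Scheme.{0} → ℤ → AddCommGrpCat.{0})
    (GQ : Scheme.{0} → ℤ → ModuleCat.{0} ℚ) : Prop :=
  ∀ (p : ℕ) [Fact p.Prime] (X : Scheme.{0}) (f : X ⟶ SpecFp p), IsFT p X f →
    ∀ (d : ℕ) (n : ℤ), topologicalKrullDim X ≤ d → (d : ℤ) < n →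
      ∃ q : G X n →+ GQ X n, Function.Surjective q ∧ Finite q.ker

/-- The functors `K n = K_n(-) ⊗ ℚ` on rings, the groups `G X n = K'_n(X)` and
`GQ X n = K'_n(X) ⊗ ℚ` of schemes, and the published facts about them. -/
structure QuillenTheory where
  K : ℤ → Fun
  G : Scheme.{0} → ℤ → AddCommGrpCat.{0}
  GQ : Scheme.{0} → ℤ → ModuleCat.{0} ℚ
  good : ∀ n, Good (K n)
  localization : Localization fun n _ => K n
  quillen : QuillenK K
  niveau : NiveauK K GQ
  generic : GenericK K GQ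
  finiteTorsion : FiniteTorsionK G GQ

variable (M : QuillenTheory) (p : ℕ) [Fact p.Prime] (n : ℤ) (d : ℕ)

/-- `K'_n(X)` is finitely generated for all regular schemes `X`, of finite type and of dimension at
most `d` over `𝔽_p` -/
def RegularFG : Prop :=
  ∀ (X : Scheme.{0}) (f : X ⟶ SpecFp p), IsFT p X f → IsRegularSch X →
    topologicalKrullDim X ≤ d → AddGroup.FG (M.G X n)

/-- `K'_n(X)` is finite for all schemes `X`, of finite type and of dimension at most `d` over
`𝔽_p` -/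
def AllFiniteK : Prop :=
  ∀ (X : Scheme.{0}) (f : X ⟶ SpecFp p), IsFT p X f → topologicalKrullDim X ≤ d →
    Finite (M.G X n)

/-- `K_{n+1}(𝔽_p(t₁, …, t_{d+1})) ⊗ ℚ` is finite dimensional -/
def RationalFiniteK : Prop := FiniteAt (M.K (n + 1)) (ZMod p) (d + 1)

/-- `K_{n+1}(𝔽_p(t₁, …, t_{d+1})) ⊗ ℚ` is zero -/
def RationalZeroK : Prop := ∀ x : (M.K (n + 1)).obj (ratRing (ZMod p) (d + 1)), x = 0

/-- `K_n(E) ⊗ ℚ = 0` for all fields `E` of transcendence degree at most `d` over `𝔽_p` -/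
def FieldsZeroK : Prop := VanishAt (M.K n) (ZMod p) d

variable {M p n d}

theorem zeroK_prime (m : ℤ) (hm : 1 ≤ m) (x : V (M.K m) (ZMod p)) : x = 0 := by
  obtain ⟨k, _, _, hk⟩ := exists_closure (ZMod p)
  exact (injective_iff_map_eq_zero _).1 ((M.good m).inj (algebraMap (ZMod p) k)) x
    (M.quillen p k m hm _)

theorem law_K (hn : 1 ≤ n) :
    [FieldsZeroK M p n d, RationalFiniteK M p n d,
      RigidAt (M.K (n + 1)) (ZMod p) (d + 1)].TFAE := by
  have h0 : Module.Finite ℚ (V (M.K (n + 1)) (ZMod p)) := by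
    have : Subsingleton (V (M.K (n + 1)) (ZMod p)) :=
      ⟨fun x y => (zeroK_prime _ (by omega) x).trans (zeroK_prime _ (by omega) y).symm⟩
    infer_instance
  exact law (H := fun n _ => M.K n) (fun i _ => M.good i) M.localization n n (ZMod p)
    bot_eq_top_zmod (fun k _ _ _ => M.quillen p k n hn) h0 d

theorem rationalZeroK_iff (hn : 1 ≤ n) : RationalZeroK M p n d ↔ RationalFiniteK M p n d := by
  constructor
  · intro h
    have : Subsingleton ((M.K (n + 1)).obj (ratRing (ZMod p) (d + 1))) :=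
      ⟨fun x y => (h x).trans (h y).symm⟩
    change Module.Finite ℚ ((M.K (n + 1)).obj (ratRing (ZMod p) (d + 1)))
    infer_instance
  · intro h x
    have h1 := ((law_K (M := M) (p := p) (d := d) hn).out 1 2).1 h
    obtain ⟨y, rfl⟩ := h1.2 x
    rw [zeroK_prime (n + 1) (by omega) y, map_zero]

theorem zeroK_of_fields (h : FieldsZeroK M p n d) (X : Scheme.{0}) (f : X ⟶ SpecFp p)
    (hf : IsFT p X f) (hX : topologicalKrullDim X ≤ d) (y : M.GQ X n) : y = 0 := by
  by_contra hy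
  obtain ⟨x, s, hs, hsd, z, hz⟩ := M.niveau p X f hf n y hy
  have hsd' : s ≤ d := by
    have h1 := hsd.trans hX
    exact_mod_cast h1
  let : Algebra (ZMod p) (X.residueField x) := residueAlgebra p X f x
  refine hz (h (X.residueField x) ?_ z)
  have h5 : Algebra.trdeg (ZMod p) (X.residueField x) = s := hs
  rw [h5]
  exact_mod_cast hsd'

theorem fields_of_zeroK (h : ∀ (X : Scheme.{0}) (f : X ⟶ SpecFp p), IsFT p X f → IsRegularSch X →
    topologicalKrullDim X ≤ d → ∀ y : M.GQ X n, y = 0) : FieldsZeroK M p n d := by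
  intro E _ _ hE x
  by_contra hx
  obtain ⟨K, _, _, hK, hKE, y, hy⟩ := exists_subfield (M.good n) (ZMod p) E x hx
  obtain ⟨s, hsd, hs⟩ := Cardinal.exists_nat_eq_of_le_nat (hKE.trans hE)
  obtain ⟨X, f, hf, hreg, hX, y', hy'⟩ := M.generic p K s hs n y hy
  refine hy' (h X f hf hreg (hX.trans ?_) y')
  exact_mod_cast hsd

/-- **The law for `K`-groups in characteristic `p`.** For a prime `p` and `n > d ≥ 0` equivalent
are:

1. `K'_n(X)` is finitely generated for all regular `X`, of finite type and of dimension at most `d`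
   over `𝔽_p`;
2. `K'_n(X)` is finite for all `X`, of finite type and of dimension at most `d` over `𝔽_p`;
3. `K_{n+1}(𝔽_p(t₁, …, t_{d+1})) ⊗ ℚ` is finite dimensional;
4. `K_{n+1}(𝔽_p(t₁, …, t_{d+1})) ⊗ ℚ = 0`;
5. `K_n(E) ⊗ ℚ = 0` for all fields `E` of transcendence degree at most `d` over `𝔽_p`. -/
theorem main_K (M : QuillenTheory) (p : ℕ) [Fact p.Prime] (n : ℤ) (d : ℕ) (hn : (d : ℤ) < n) :
    [RegularFG M p n d, AllFiniteK M p n d, RationalFiniteK M p n d, RationalZeroK M p n d,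
      FieldsZeroK M p n d].TFAE := by
  have hn1 : 1 ≤ n := by omega
  tfae_have 3 ↔ 4 := (rationalZeroK_iff hn1).symm
  tfae_have 3 ↔ 5 := ((law_K hn1).out 0 1).symm
  tfae_have 5 → 2 := by
    intro h X f hf hX
    obtain ⟨q, -, hq⟩ := M.finiteTorsion p X f hf d n hX hn
    have h1 : q.ker = ⊤ := by
      rw [eq_top_iff]
      intro x _
      exact zeroK_of_fields h X f hf hX (q x)
    have h2 : Finite (⊤ : AddSubgroup (M.G X n)) := by
      rw [← h1]
      exact hq
    exact Finite.of_equiv _ AddSubgroup.topEquiv.toEquiv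
  tfae_have 2 → 1 := by
    intro h X f hf _ hX
    have := h X f hf hX
    infer_instance
  tfae_have 1 → 5 := by
    intro h
    refine fields_of_zeroK fun X f hf hreg hX y => ?_
    obtain ⟨q, hq, -⟩ := M.finiteTorsion p X f hf d n hX hn
    have h0 := h X f hf hreg hX
    have h1 : AddGroup.FG (M.GQ X n) := AddGroup.fg_of_surjective hq
    exact eq_zero_of_fg _ (Module.Finite.iff_addGroup_fg.2 h1) y
  tfae_finish

end Pool.Agent.H51BS
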