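import Pool.Agent.H51BS.Fields

/-!
# Finiteness over rational function fields and vanishing in the preceding degree and weight
-/

set_option autoImplicit false

namespace Pool.Agent.H51BS

open Pool.Agent.Q26.TL Polynomial IntermediateField CategoryTheory

/-- `H(A)` is finite dimensional -/
def FiniteDim (H : Fun) (A : CommRingCat.{0}) : Prop := Module.Finite ℚ (H.obj A)

/-- `H(A) → H(B)` is bijective -/
def Bijects (H : Fun) {A B : CommRingCat.{0}} (f : A ⟶ B) : Prop :=
  Function.Bijective (H.map f).hom

/-- the residue field `κ(x) = F[X]/(p)` of the closed point `x` of the affine line given by `p` -/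
noncomputable def residueRing {F : Type} [Field F] (x : ClosedPoint F) : CommRingCat.{0} :=
  CommRingCat.of (AdjoinRoot x.1)

/-- the direct sum of the `H(κ(x))` over the closed points `x` of the affine line over `F` -/
noncomputable def pointClasses (H : Fun) (F : Type) [Field F] : ModuleCat.{0} ℚ :=
  ModuleCat.of ℚ (DirectSum (ClosedPoint F) fun x => H.obj (residueRing x))

/-- the inclusion of `F` in `F(t)` -/
noncomputable def lineHom (F : Type) [Field F] : CommRingCat.of F ⟶ CommRingCat.of (RatFunc F) :=
  CommRingCat.ofHom (algebraMap F (RatFunc F))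

/-- there is an exact sequence `H'(F) → H'(F(t)) → ⊕ₓ H(κ(x)) → 0` -/
def LineExact (H H' : Fun) (F : Type) [Field F] : Prop :=
  ∃ δ : H'.obj (CommRingCat.of (RatFunc F)) ⟶ pointClasses H F,
    Function.Surjective δ.hom ∧ LinearMap.ker δ.hom = LinearMap.range (H'.map (lineHom F)).hom

/-- The localisation sequence of the affine line over a field, with homotopy invariance:
`Hⁱ⁺¹(F, ℚ(n+1)) → Hⁱ⁺¹(F(t), ℚ(n+1)) → ⊕ₓ Hⁱ(κ(x), ℚ(n)) → 0` is exact, where `x` runs through the
closed points of the affine line, i.e. the monic irreducible polynomials `p`, and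
`κ(x) = F[X]/(p)`. -/
def Localization (H : ℤ → ℤ → Fun) : Prop :=
  ∀ (F : Type) [Field F] (i n : ℤ), LineExact (H i n) (H (i + 1) (n + 1)) F

theorem Localization.exists_map {H : ℤ → ℤ → Fun} (loc : Localization H) (F : Type) [Field F]
    (i n : ℤ) : ∃ δ : V (H (i + 1) (n + 1)) (RatFunc F) →ₗ[ℚ]
        DirectSum (ClosedPoint F) (fun x => V (H i n) (AdjoinRoot x.1)),
      Function.Surjective δ ∧
      LinearMap.ker δ = LinearMap.range (mp (H (i + 1) (n + 1)) (algebraMap F (RatFunc F))) := by
  obtain ⟨δ, h1, h2⟩ := loc F i n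
  exact ⟨δ.hom, h1, h2⟩

/-- the ring `P(t₁, …, t_d)` -/
noncomputable def ratRing (P : Type) [Field P] (d : ℕ) : CommRingCat.{0} :=
  CommRingCat.of (RatField P d)

/-- the inclusion of `P` in `P(t₁, …, t_d)` -/
noncomputable def ratHom (P : Type) [Field P] (d : ℕ) : CommRingCat.of P ⟶ ratRing P d :=
  CommRingCat.ofHom (algebraMap P (RatField P d))

/-- `H` vanishes on all fields of transcendence degree at most `d` over `P` -/
def VanishAt (H : Fun) (P : Type) [Field P] (d : ℕ) : Prop :=
  ∀ (E : Type) [Field E] [Algebra P E], Algebra.trdeg P E ≤ d → ∀ x : V H E, x = 0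

/-- `H(P(t₁, …, t_d))` is finite dimensional -/
def FiniteAt (H : Fun) (P : Type) [Field P] (d : ℕ) : Prop := FiniteDim H (ratRing P d)

/-- `H(P) → H(P(t₁, …, t_d))` is bijective -/
def RigidAt (H : Fun) (P : Type) [Field P] (d : ℕ) : Prop := Bijects H (ratHom P d)

theorem exists_closure (P : Type) [Field P] :
    ∃ (k : Type) (_ : Field k) (_ : Algebra P k), IsAlgClosure P k :=
  ⟨AlgebraicClosure P, inferInstance, inferInstance, inferInstance⟩

theorem mp_id (H : Fun) {A : Type} [CommRing A] (x : V H A) : mp H (RingHom.id A) x = x := by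
  unfold mp
  have h : CommRingCat.ofHom (RingHom.id A) = CategoryTheory.CategoryStruct.id _ := rfl
  rw [h, H.map_id]
  rfl

theorem mp_surjective_of_equiv (H : Fun) {A B : Type} [CommRing A] [CommRing B] (e : A ≃+* B) :
    Function.Surjective (mp H e.toRingHom) := by
  intro y
  refine ⟨mp H e.symm.toRingHom y, ?_⟩
  rw [mp_mp]
  have h : e.toRingHom.comp e.symm.toRingHom = RingHom.id B := by
    ext x
    exact e.apply_symm_apply x
  rw [h, mp_id]

theorem mp_injective_of_equiv (H : Fun) {A B : Type} [CommRing A] [CommRing B] (e : A ≃+* B) :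
    Function.Injective (mp H e.toRingHom) := by
  intro x y hxy
  have h1 := congrArg (mp H e.symm.toRingHom) hxy
  rw [mp_mp, mp_mp] at h1
  have h : e.symm.toRingHom.comp e.toRingHom = RingHom.id A := by
    ext x
    exact e.symm_apply_apply x
  rwa [h, mp_id, mp_id] at h1

/-- infinitely many closed points with classes give infinitely many independent classes over the
rational function field -/
theorem not_finite_of_points {H : ℤ → ℤ → Fun} (loc : Localization H) (i n : ℤ) (F : Type)
    [Field F] (S : Set (ClosedPoint F)) (hS : S.Infinite)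
    (h : ∀ x ∈ S, ∃ y : V (H i n) (AdjoinRoot x.1), y ≠ 0) :
    ¬ Module.Finite ℚ (V (H (i + 1) (n + 1)) (RatFunc F)) := by
  classical
  intro hfin
  obtain ⟨δ, hδ, -⟩ := loc.exists_map F i n
  have h1 : Module.Finite ℚ (DirectSum (ClosedPoint F) (fun x => V (H i n) (AdjoinRoot x.1))) :=
    Module.Finite.of_surjective δ hδ
  choose y hy using fun x : S => h x.1 x.2
  have h2 : LinearIndependent ℚ (fun x : S =>
      (DirectSum.lof ℚ (ClosedPoint F) (fun x => V (H i n) (AdjoinRoot x.1)) x.1 (y x))) := by
    rw [linearIndependent_iff']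
    intro s g hg x hx
    have h3 := congrArg (DirectSum.component ℚ (ClosedPoint F)
      (fun x => V (H i n) (AdjoinRoot x.1)) x.1) hg
    rw [map_sum, map_zero, Finset.sum_eq_single x] at h3
    · rw [map_smul, DirectSum.component.lof_self] at h3
      exact (smul_eq_zero.1 h3).resolve_right (hy x)
    · intro b _ hb
      rw [map_smul, DirectSum.component.of]
      have hne : b.1 ≠ x.1 := fun h => hb (Subtype.ext h)
      rw [dif_neg hne, smul_zero]
    · intro h
      exact absurd hx h
  have h4 : Finite S := h2.finite
  exact hS h4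

/-- classes over rational function fields come from the prime field if there are no classes in
the preceding degree and weight on fields of smaller transcendence degree -/
theorem surjective_of_vanish {H : ℤ → ℤ → Fun} (loc : Localization H) (i n : ℤ) (P : Type)
    [Field P] (hP : (⊥ : Subfield P) = ⊤) (d : ℕ)
    (h : VanishAt (H i n) P d) :
    ∀ j : ℕ, j ≤ d + 1 → ∀ f : P →+* RatField P j,
      Function.Surjective (mp (H (i + 1) (n + 1)) f) := by
  intro j
  induction j with
  | zero =>
    intro _ f y
    obtain ⟨g, hg⟩ := exists_equiv_zero P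
    refine ⟨mp _ g y, ?_⟩
    rw [mp_mp]
    have h1 : g.comp (f.comp g) = g := by
      rw [← RingHom.comp_assoc, hom_unique hP (g.comp f) (RingHom.id P), RingHom.id_comp]
    have h2 : f.comp g = RingHom.id _ := by
      ext x
      exact hg (RingHom.congr_fun h1 x)
    rw [h2, mp_id]
  | succ j ih =>
    intro hj f y
    obtain ⟨e⟩ := exists_equiv_succ P j
    obtain ⟨y1, rfl⟩ := mp_surjective_of_equiv (H (i + 1) (n + 1)) e y
    obtain ⟨δ, -, hδ⟩ := loc.exists_map (RatField P j) i n
    have h1 : δ y1 = 0 := by
      refine DirectSum.ext_component ℚ fun x => ?_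
      have : Fact (Irreducible x.1) := ⟨x.2.2⟩
      have h2 : Algebra.trdeg P (AdjoinRoot x.1) ≤ d := by
        rw [trdeg_residue]
        exact_mod_cast (by omega : j ≤ d)
      rw [map_zero]
      exact h (AdjoinRoot x.1) h2 _
    have h2 : y1 ∈ LinearMap.ker δ := h1
    rw [hδ] at h2
    obtain ⟨y2, rfl⟩ := h2
    obtain ⟨y3, rfl⟩ := ih (by omega) (algebraMap P (RatField P j)) y2
    refine ⟨y3, ?_⟩
    rw [mp_mp, mp_mp]
    congr 2
    exact hom_unique hP _ _

/-- a class on a field of transcendence degree at most `d` gives infinitely many independent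
classes over `P(t₁, …, t_{d+1})` in the next degree and weight -/
theorem not_finite_of_class {H : ℤ → ℤ → Fun} (good : ∀ i n, Good (H i n))
    (loc : Localization H) (i n : ℤ) (P : Type) [Field P] (hP : (⊥ : Subfield P) = ⊤)
    (base : ∀ (k : Type) [Field k] [Algebra P k] [IsAlgClosure P k] (x : V (H i n) k), x = 0)
    (d : ℕ) (E : Type) [Field E] [Algebra P E] (hd : Algebra.trdeg P E ≤ d) (x : V (H i n) E)
    (hx : x ≠ 0) : ¬ Module.Finite ℚ (V (H (i + 1) (n + 1)) (RatField P (d + 1))) := by
  classical
  have hperf : PerfectField P := by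
    obtain h0 | ⟨p, hp, hc⟩ := CharP.exists' P
    · infer_instance
    · have : ExpChar P p := .prime hp.out
      have hsurj : Function.Surjective (frobenius P p) := by
        have h1 : (⊥ : Subfield P) ≤ (frobenius P p).fieldRange := bot_le
        rw [hP] at h1
        intro x
        exact h1 (Subfield.mem_top x)
      have : PerfectRing P p := PerfectRing.ofSurjective P p hsurj
      exact PerfectRing.toPerfectField P p
  obtain ⟨s, y, hy⟩ := (good i n).fin1 E x
  let K := IntermediateField.adjoin P (s : Set E)
  have hK : Algebra.EssFiniteType P K := by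
    rw [IntermediateField.essFiniteType_iff]
    exact ⟨s, rfl⟩
  have hsK : ∀ z ∈ s, z ∈ K := fun z hz => IntermediateField.subset_adjoin P _ hz
  have hle : Subring.closure (s : Set E) ≤ K.toSubring := by
    rw [Subring.closure_le]
    exact hsK
  let ι : Subring.closure (s : Set E) →+* K := Subring.inclusion hle
  have hy' : mp (H i n) ι y ≠ 0 := by
    intro h
    apply hx
    rw [← hy]
    have h1 := congrArg (mp (H i n) (algebraMap K E)) h
    rw [mp_mp, map_zero] at h1
    exact h1
  have hdK : Algebra.trdeg P K ≤ d :=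
    (trdeg_le_of_injective K.val K.val.injective).trans hd
  obtain ⟨t, ht, hsep⟩ := exists_isTranscendenceBasis_and_isSeparable_of_perfectField P K
  let L := IntermediateField.adjoin P (t : Set K)
  have hLK : Algebra.EssFiniteType L K := Algebra.EssFiniteType.of_comp P L K
  have hsep' : Algebra.IsSeparable L K := hsep
  have hfin : FiniteDimensional L K := Algebra.finite_of_essFiniteType_of_isAlgebraic
  have hcard : t.card ≤ d := by
    have h1 := ht.cardinalMk_eq_trdeg
    rw [← h1] at hdK
    simpa using hdK
  have hinf : Infinite L := by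
    by_contra hL
    rw [not_infinite_iff_finite] at hL
    have h1 : Module.Finite P L := Module.Finite.of_finite
    have h2 : Algebra.IsAlgebraic P K := Algebra.IsAlgebraic.trans P L K
    have h3 : IsAlgClosure P (AlgebraicClosure K) :=
      IsAlgClosure.ofAlgebraic P K (AlgebraicClosure K)
    have h4 := base (AlgebraicClosure K) (mp (H i n) (algebraMap K (AlgebraicClosure K))
      (mp (H i n) ι y))
    exact hy' ((injective_iff_map_eq_zero _).1 ((good i n).inj (algebraMap K _)) _ h4)
  have hpts := infinite_points L K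
  have h1 := not_finite_of_points loc i n L _ hpts (by
    rintro p ⟨e⟩
    refine ⟨mp (H i n) e.toRingHom (mp (H i n) ι y), fun h => hy' ?_⟩
    exact (injective_iff_map_eq_zero _).1 (mp_injective_of_equiv (H i n) e) _ h)
  intro h2
  apply h1
  obtain ⟨f⟩ : Nonempty (RatFunc L →+* RatField P (d + 1)) := by
    obtain ⟨e1⟩ := exists_equiv_succ P d
    let e2 : FractionRing (MvPolynomial t P) ≃ₐ[P] IntermediateField.adjoin P
      (Set.range ((↑) : t → K)) := ht.1.aevalEquivField
    have h3 : Set.range ((↑) : t → K) = (t : Set K) := by simp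
    let e3 : L ≃ₐ[P] IntermediateField.adjoin P (Set.range ((↑) : t → K)) :=
      IntermediateField.equivOfEq (by rw [h3])
    let r : t → Fin d := fun z => Fin.castLE hcard (t.equivFin z)
    have hr : Function.Injective r := (Fin.castLE_injective hcard).comp t.equivFin.injective
    let g1 : MvPolynomial t P →+* RatField P d :=
      (algebraMap (MvPolynomial (Fin d) P) (RatField P d)).comp (MvPolynomial.rename r).toRingHom
    have hg1 : Function.Injective g1 :=
      (IsFractionRing.injective _ _).comp (MvPolynomial.rename_injective r hr)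
    let g2 : FractionRing (MvPolynomial t P) →+* RatField P d := IsFractionRing.lift hg1
    let f0 : L →+* RatField P d := g2.comp ((e3.trans e2.symm).toRingEquiv.toRingHom)
    let g3 : L[X] →+* RatFunc (RatField P d) :=
      (algebraMap (RatField P d)[X] (RatFunc (RatField P d))).comp (mapRingHom f0)
    have hg3 : Function.Injective g3 := by
      intro a b hab
      exact map_injective _ f0.injective
        (IsFractionRing.injective (RatField P d)[X] (RatFunc (RatField P d)) hab)
    let g4 : RatFunc L →+* RatFunc (RatField P d) := IsFractionRing.lift hg3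
    exact ⟨e1.toRingHom.comp g4⟩
  have h4 : Function.Injective (mp (H (i + 1) (n + 1)) f) := (good _ _).inj f
  exact Module.Finite.of_injective _ h4

/-- every nonzero class comes from a nonzero class on a field of finite transcendence degree -/
theorem exists_finite_trdeg {H : Fun} (good : Good H) (P F : Type) [Field P] [Field F]
    [Algebra P F] (x : V H F) (hx : x ≠ 0) :
    ∃ (d : ℕ) (K : Type) (_ : Field K) (_ : Algebra P K), Algebra.trdeg P K ≤ d ∧
      ∃ y : V H K, y ≠ 0 := by
  obtain ⟨s, y, hy⟩ := good.fin1 F x
  let K := IntermediateField.adjoin P (s : Set F)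
  have hK : Algebra.EssFiniteType P K := by
    rw [IntermediateField.essFiniteType_iff]
    exact ⟨s, rfl⟩
  have hsK : ∀ z ∈ s, z ∈ K := fun z hz => IntermediateField.subset_adjoin P _ hz
  have hle : Subring.closure (s : Set F) ≤ K.toSubring := by
    rw [Subring.closure_le]
    exact hsK
  let ι : Subring.closure (s : Set F) →+* K := Subring.inclusion hle
  have hy' : mp H ι y ≠ 0 := by
    intro h
    apply hx
    rw [← hy]
    have h1 := congrArg (mp H (algebraMap K F)) h
    rw [mp_mp, map_zero] at h1
    exact h1
  obtain ⟨t, ht⟩ := IntermediateField.fg_top P K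
  have halg : Algebra.IsAlgebraic (Algebra.adjoin P (t : Set K)) K := by
    rw [← isAlgebraic_adjoin_iff_top, ht, Algebra.isAlgebraic_iff_isIntegral]
    exact Algebra.isIntegral_of_surjective topEquiv.surjective
  refine ⟨t.card, K, inferInstance, inferInstance, ?_, mp H ι y, hy'⟩
  have h1 := Algebra.IsAlgebraic.trdeg_le_cardinalMk P (t : Set K)
  simpa using h1

/-- **The law.** Let `P` be a prime field and assume that there are no classes in `Hⁱ(-, ℚ(n))` over
algebraic closures of `P` and that `Hⁱ⁺¹(P, ℚ(n+1))` is finite dimensional. For each `d` the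
following are equivalent: `Hⁱ(E, ℚ(n)) = 0` for all fields `E` of transcendence degree at most `d`
over `P`; `Hⁱ⁺¹(P(t₁, …, t_{d+1}), ℚ(n+1))` is finite dimensional; the map from `Hⁱ⁺¹(P, ℚ(n+1))` to
`Hⁱ⁺¹(P(t₁, …, t_{d+1}), ℚ(n+1))` is bijective. -/
theorem law {H : ℤ → ℤ → Fun} (good : ∀ i n, Good (H i n)) (loc : Localization H) (i n : ℤ)
    (P : Type) [Field P] (hP : (⊥ : Subfield P) = ⊤)
    (base : ∀ (k : Type) [Field k] [Algebra P k] [IsAlgClosure P k] (x : V (H i n) k), x = 0)
    (fin : Module.Finite ℚ (V (H (i + 1) (n + 1)) P)) (d : ℕ) :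
    [VanishAt (H i n) P d, FiniteAt (H (i + 1) (n + 1)) P (d + 1),
      RigidAt (H (i + 1) (n + 1)) P (d + 1)].TFAE := by
  tfae_have 1 → 3 := fun h => ⟨(good _ _).inj _,
    surjective_of_vanish loc i n P hP d h (d + 1) le_rfl _⟩
  tfae_have 3 → 2 := fun h => Module.Finite.of_surjective _ h.2
  tfae_have 2 → 1 := by
    intro h E _ _ hE x
    by_contra hx
    exact not_finite_of_class good loc i n P hP base d E hE x hx h
  tfae_finish

/-- rigidity for all fields of the characteristic of `P` gives rigidity for `P(t₁, …, t_d)` -/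
theorem rigidAt_of_all {H : Fun} (good : Good H) (P : Type) [Field P]
    (hP : (⊥ : Subfield P) = ⊤)
    (h : ∀ (F : Type) [Field F] [Algebra P F],
      Function.Surjective (mp H (algebraMap F (RatFunc F)))) (d : ℕ) : RigidAt H P d := by
  suffices hs : Function.Surjective (mp H (algebraMap P (RatField P d))) from
    ⟨good.inj (algebraMap P (RatField P d)), hs⟩
  induction d with
  | zero =>
    intro y
    obtain ⟨g, hg⟩ := exists_equiv_zero P
    refine ⟨mp _ g y, ?_⟩
    rw [mp_mp]
    have h1 : g.comp ((algebraMap P (RatField P 0)).comp g) = g := by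
      rw [← RingHom.comp_assoc, hom_unique hP (g.comp (algebraMap P (RatField P 0)))
        (RingHom.id P), RingHom.id_comp]
    have h2 : (algebraMap P (RatField P 0)).comp g = RingHom.id _ := by
      ext x
      exact hg (RingHom.congr_fun h1 x)
    rw [h2, mp_id]
  | succ d ih =>
    intro y
    obtain ⟨e⟩ := exists_equiv_succ P d
    obtain ⟨y1, rfl⟩ := mp_surjective_of_equiv H e y
    obtain ⟨y2, rfl⟩ := h (RatField P d) y1
    obtain ⟨y3, rfl⟩ := ih y2
    refine ⟨y3, ?_⟩
    rw [mp_mp, mp_mp]
    congr 2
    exact hom_unique hP _ _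

end Pool.Agent.H51BS
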