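import Pool.Agent.H51BS.Arith

/-!
# Negative degrees in the weight of the dimension, and rational function fields
-/

set_option autoImplicit false

namespace Pool.Agent.H51BS

open Pool.Agent.Q26.TL CategoryTheory AlgebraicGeometry

/-- `Spec ℤ` -/
noncomputable abbrev SpecInt : Scheme.{0} := Spec (.of ℤ)

/-- proper over `Spec ℤ`, regular and connected -/
def IsRegularProper (X : Scheme.{0}) (f : X ⟶ SpecInt) : Prop :=
  IsProper f ∧ ConnectedSpace X ∧ ∀ x : X, IsRegularLocalRing (X.presheaf.stalk x)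

/-- the field `E` has Kronecker dimension `s`: transcendence degree `s - 1` over `ℚ` or `s` over
some `𝔽_p` -/
def Kron (E : Type) [Field E] (s : ℕ) : Prop :=
  (∃ _ : Algebra ℚ E, Algebra.trdeg ℚ E + 1 = s) ∨
    ∃ (p : ℕ) (_ : Fact p.Prime) (_ : Algebra (ZMod p) E), Algebra.trdeg (ZMod p) E = s

/-- the codimension of the point `x` is `c` -/
def CodimEq (X : Scheme.{0}) (x : X) (c : ℕ) : Prop := ringKrullDim (X.presheaf.stalk x) = c

/-- Coniveau spectral sequence: if `X` is regular, connected and proper over `ℤ`, of dimension `d`,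
and `Hⁱ(X, ℚ(m)) ≠ 0` with `i < 0`, then `Hⁱ⁻²ᶜ(κ(x), ℚ(m-c)) ≠ 0` for some point `x` of
codimension `c`; its residue field has Kronecker dimension `d - c`. -/
def ConiveauBelow (H : ℤ → ℤ → Fun) (HX : Scheme.{0} → ℤ → ℤ → ModuleCat.{0} ℚ) : Prop :=
  ∀ (X : Scheme.{0}) (f : X ⟶ SpecInt), IsRegularProper X f → ∀ d : ℕ,
    topologicalKrullDim X = d → ∀ i m : ℤ, i < 0 → ∀ y : HX X i m, y ≠ 0 →
      ∃ (x : X) (c s : ℕ), CodimEq X x c ∧ Kron (X.residueField x) s ∧ s + c = d ∧
        ClassAt H X x (i - 2 * c) (m - c)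

/-- Models: if `E` is a finitely generated field of Kronecker dimension `s` and `Hⁱ(E, ℚ(m)) ≠ 0`
with `i < 0`, then there is an `X`, regular, connected and proper over `ℤ`, of dimension `s` (with
function field finite over `E`, de Jong), such that `Hⁱ(X, ℚ(m)) ≠ 0` or (obstruction to lifting
from the generic point) `Hⁱ⁺¹⁻²ᶜ(κ(x), ℚ(m-c)) ≠ 0` for some point `x` of codimension `c ≥ 1`. -/
def Models (H : ℤ → ℤ → Fun) (HX : Scheme.{0} → ℤ → ℤ → ModuleCat.{0} ℚ) : Prop :=
  ∀ (E : Type) [Field E] [Algebra.EssFiniteType ℤ E] (s : ℕ), Kron E s → ∀ i m : ℤ, i < 0 →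
    ∀ z : V (H i m) E, z ≠ 0 →
      ∃ (X : Scheme.{0}) (f : X ⟶ SpecInt), IsRegularProper X f ∧ topologicalKrullDim X = s ∧
        ((∃ y : HX X i m, y ≠ 0) ∨ ∃ (x : X) (c s' : ℕ), 1 ≤ c ∧ Kron (X.residueField x) s' ∧
          s' + c = s ∧ ClassAt H X x (i + 1 - 2 * c) (m - c))

/-- `Hⁱ(X_et, ℤ(d)) = Hⁱ(X, ℚ(d))` for `i < 0` and `X` regular, connected and proper over `ℤ`, of
dimension `d` -/
def NegativeRational (HE : Scheme.{0} → ℤ → ℤ → AddCommGrpCat.{0})
    (HX : Scheme.{0} → ℤ → ℤ → ModuleCat.{0} ℚ) : Prop :=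
  ∀ (X : Scheme.{0}) (f : X ⟶ SpecInt), IsRegularProper X f → ∀ d : ℕ,
    topologicalKrullDim X = d → ∀ i : ℤ, i < 0 → Nonempty (HE X i d ≃+ HX X i d)

/-- Borel, Quillen: `Hⁱ(k, ℚ(m)) = 0` for `i < 0` and `k` an algebraic closure of a prime field -/
def BorelBelow (H : ℤ → ℤ → Fun) : Prop :=
  ∀ (P k : Type) [Field P] [Field k] [Algebra P k] [IsAlgClosure P k], (⊥ : Subfield P) = ⊤ →
    ∀ i m : ℤ, i < 0 → ∀ x : V (H i m) k, x = 0

/-- Borel, Quillen: `H⁰(P, ℚ(m))` is finite dimensional for prime fields `P` -/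
def BorelZero (H : ℤ → ℤ → Fun) : Prop :=
  ∀ (P : Type) [Field P], (⊥ : Subfield P) = ⊤ → ∀ m : ℤ, Module.Finite ℚ (V (H 0 m) P)

/-- Rational motivic cohomology of rings (`Theory`), the groups `HE X i m = Hⁱ(X_et, ℤ(m))` and
`HX X i m = Hⁱ(X, ℚ(m))` of schemes, and the published facts about them. -/
structure TopWeightTheory extends Theory where
  HE : Scheme.{0} → ℤ → ℤ → AddCommGrpCat.{0}
  HX : Scheme.{0} → ℤ → ℤ → ModuleCat.{0} ℚ
  localization : Localization H
  borelBelow : BorelBelow H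
  borelZero : BorelZero H
  coniveau : ConiveauBelow H HX
  models : Models H HX
  negative : NegativeRational HE HX

variable (M : TopWeightTheory) (D : ℕ)

/-- `Hⁱ(X_et, ℤ(dim X))` is finitely generated for all `i < 0` and all `X`, regular, connected and
proper over `ℤ`, of dimension at most `D` -/
def NegativeFG : Prop :=
  ∀ (X : Scheme.{0}) (f : X ⟶ SpecInt), IsRegularProper X f → ∀ d : ℕ, d ≤ D →
    topologicalKrullDim X = d → ∀ i : ℤ, i < 0 → AddGroup.FG (M.HE X i d)

/-- `Hⁱ(X, ℚ(dim X)) = 0` for all `i < 0` and all `X`, regular, connected and proper over `ℤ`, of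
dimension at most `D` -/
def NegativeZero : Prop :=
  ∀ (X : Scheme.{0}) (f : X ⟶ SpecInt), IsRegularProper X f → ∀ d : ℕ, d ≤ D →
    topologicalKrullDim X = d → ∀ i : ℤ, i < 0 → ∀ y : M.HX X i d, y = 0

/-- `Hⁱ(E, ℚ(s)) = 0` for all `i < 0` and all fields `E` of Kronecker dimension `s ≤ D` -/
def KronZero : Prop :=
  ∀ (E : Type) [Field E] (s : ℕ), s ≤ D → Kron E s → ∀ i : ℤ, i < 0 → ∀ x : V (M.H i s) E, x = 0

/-- `Hⁱ(𝔽_p(t₁, …, t_{s+1}), ℚ(s+1))` is finite dimensional for all `i ≤ 0`, all `s ≤ D` and all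
primes `p`, and `Hⁱ(ℚ(t₁, …, t_s), ℚ(s+1))` is finite dimensional for all `i ≤ 0` and `1 ≤ s ≤ D` -/
def KronFinite : Prop :=
  (∀ (p : ℕ) [Fact p.Prime] (s : ℕ), s ≤ D → ∀ i : ℤ, i ≤ 0 →
    FiniteAt (M.H i (s + 1)) (ZMod p) (s + 1)) ∧
  ∀ s : ℕ, 1 ≤ s → s ≤ D → ∀ i : ℤ, i ≤ 0 → FiniteAt (M.H i (s + 1)) ℚ s

variable {M D}

/-- a nonzero class on a field of transcendence degree at most `d` gives one on a finitely
generated field of transcendence degree `d` -/
theorem exists_exact {H : Fun} (good : Good H) (P : Type) [Field P] (E : Type) [Field E]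
    [Algebra P E] (d : ℕ) (hd : Algebra.trdeg P E ≤ d) (x : V H E) (hx : x ≠ 0) :
    ∃ (K : Type) (_ : Field K) (_ : Algebra P K), Algebra.EssFiniteType P K ∧
      Algebra.trdeg P K = d ∧ ∃ y : V H K, y ≠ 0 := by
  obtain ⟨K, _, _, hK, hKE, y, hy⟩ := exists_subfield good P E x hx
  obtain ⟨s, hsd, hs⟩ := Cardinal.exists_nat_eq_of_le_nat (hKE.trans hd)
  obtain ⟨K', i1, i2, hK', h2, y', hy'⟩ := exists_extend good (P := P) (d - s) K y hy
  refine ⟨K', i1, i2, hK', ?_, y', hy'⟩
  rw [h2, hs]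
  exact_mod_cast (by omega : s + (d - s) = d)

theorem bot_eq_top_rat' : (⊥ : Subfield ℚ) = ⊤ := by
  rw [eq_top_iff]
  intro x _
  have h := SubfieldClass.ratCast_mem (⊥ : Subfield ℚ) x
  simpa using h

theorem essFiniteType_of_rat (K : Type) [Field K] [Algebra ℚ K] [Algebra.EssFiniteType ℚ K] :
    Algebra.EssFiniteType ℤ K := by
  have h1 : Algebra.EssFiniteType ℤ ℚ :=
    Algebra.EssFiniteType.of_isLocalization _ (nonZeroDivisors ℤ)
  exact Algebra.EssFiniteType.comp ℤ ℚ K

theorem essFiniteType_of_zmod (p : ℕ) [Fact p.Prime] (K : Type) [Field K] [Algebra (ZMod p) K]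
    [Algebra.EssFiniteType (ZMod p) K] : Algebra.EssFiniteType ℤ K := by
  have h0 : Algebra.FiniteType ℤ (ZMod p) :=
    Algebra.FiniteType.of_surjective (Algebra.ofId ℤ (ZMod p)) (ZMod.intCast_surjective)
  have h1 : Algebra.EssFiniteType ℤ (ZMod p) := inferInstance
  exact Algebra.EssFiniteType.comp ℤ (ZMod p) K

theorem fin_prime (P : Type) [Field P] (hP : (⊥ : Subfield P) = ⊤) (i m : ℤ) (hi : i ≤ 0) :
    Module.Finite ℚ (V (M.H i m) P) := by
  rcases lt_or_eq_of_le hi with h | h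
  · have h1 : ∀ x : V (M.H i m) P, x = 0 := by
      intro x
      obtain ⟨k, _, _, hk⟩ := exists_closure P
      exact (injective_iff_map_eq_zero _).1 ((M.good i m).inj (algebraMap P k)) x
        (M.borelBelow P k hP i m h _)
    have : Subsingleton (V (M.H i m) P) := ⟨fun x y => (h1 x).trans (h1 y).symm⟩
    infer_instance
  · subst h
    exact M.borelZero P hP m

theorem law_below (P : Type) [Field P] (hP : (⊥ : Subfield P) = ⊤) (i m : ℤ) (hi : i < 0)
    (e : ℕ) : VanishAt (M.H i m) P e ↔ FiniteAt (M.H (i + 1) (m + 1)) P (e + 1) :=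
  (law M.good M.localization i m P hP (fun k _ _ _ => M.borelBelow P k hP i m hi)
    (fin_prime P hP (i + 1) (m + 1) (by omega)) e).out 0 1

/-- vanishing for the fields of characteristic `p` -/
theorem vanishAt_zmod (h : KronZero M D) (p : ℕ) [Fact p.Prime] (s : ℕ) (hs : s ≤ D) (i : ℤ)
    (hi : i < 0) : VanishAt (M.H i s) (ZMod p) s := by
  intro E _ _ hE x
  by_contra hx
  obtain ⟨K, _, _, -, hK, y, hy⟩ := exists_exact (M.good i s) (ZMod p) E s hE x hx
  exact hy (h K s hs (Or.inr ⟨p, inferInstance, inferInstance, hK⟩) i hi y)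

/-- vanishing for the fields of characteristic zero -/
theorem vanishAt_rat (h : KronZero M D) (e : ℕ) (hs : e + 1 ≤ D) (i : ℤ)
    (hi : i < 0) : VanishAt (M.H i ((e + 1 : ℕ) : ℤ)) ℚ e := by
  intro E _ _ hE x
  by_contra hx
  obtain ⟨K, _, _, -, hK, y, hy⟩ := exists_exact (M.good i ((e + 1 : ℕ) : ℤ)) ℚ E e hE x hx
  refine hy (h K (e + 1) hs (Or.inl ⟨inferInstance, ?_⟩) i hi y)
  rw [hK]
  push_cast
  rfl

theorem kronZero_iff : KronZero M D ↔ KronFinite M D := by
  constructor
  · intro h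
    refine ⟨fun p _ s hs i hi => ?_, fun s h1 hs i hi => ?_⟩
    · have h2 := (law_below (M := M) (ZMod p) bot_eq_top_zmod (i - 1) s (by omega) s).1
        (vanishAt_zmod h p s hs (i - 1) (by omega))
      rwa [sub_add_cancel] at h2
    · obtain ⟨e, rfl⟩ : ∃ e, s = e + 1 := ⟨s - 1, by omega⟩
      have h2 := (law_below (M := M) ℚ bot_eq_top_rat' (i - 1) ((e + 1 : ℕ) : ℤ) (by omega) e).1
        (vanishAt_rat h e hs (i - 1) (by omega))
      rwa [sub_add_cancel] at h2
  · rintro ⟨h1, h2⟩ E _ s hs hE i hi x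
    rcases hE with ⟨_, hE⟩ | ⟨p, _, _, hE⟩
    · obtain ⟨e, rfl⟩ : ∃ e, s = e + 1 := by
        rcases s with _ | e
        · exfalso
          have h3 : (1 : Cardinal) ≤ Algebra.trdeg ℚ E + 1 := le_add_self
          rw [hE] at h3
          exact absurd h3 (by simp)
        · exact ⟨e, rfl⟩
      have h3 := (law_below (M := M) ℚ bot_eq_top_rat' i ((e + 1 : ℕ) : ℤ) hi e).2
        (h2 (e + 1) (by omega) hs (i + 1) (by omega))
      refine h3 E ?_ x
      have h4 : Algebra.trdeg ℚ E + 1 = (e : Cardinal) + 1 := by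
        rw [hE]
        push_cast
        rfl
      exact le_of_eq (by simpa using h4)
    · have h3 := (law_below (M := M) (ZMod p) bot_eq_top_zmod i s hi s).2
        (h1 p s hs (i + 1) (by omega))
      exact h3 E hE.le x

theorem negativeZero_of_kronZero (h : KronZero M D) : NegativeZero M D := by
  intro X f hf d hd hX i hi y
  by_contra hy
  obtain ⟨x, c, s, -, hs, hsc, h2⟩ := M.coniveau X f hf d hX i d hi y hy
  have h1 : (d : ℤ) - c = s := by omega
  rw [h1] at h2
  obtain ⟨z, hz⟩ := h2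
  exact hz (h (X.residueField x) s (by omega) hs (i - 2 * c) (by omega) z)

theorem kronZero_of_negativeZero (h : NegativeZero M D) : KronZero M D := by
  have h1 : ∀ s : ℕ, s ≤ D → ∀ (E : Type) [Field E], Kron E s → ∀ i : ℤ, i < 0 →
      ∀ x : V (M.H i s) E, x = 0 := by
    intro s
    induction s using Nat.strong_induction_on with
    | _ s ih =>
      intro hs E _ hE i hi x
      by_contra hx
      obtain ⟨K, _, _, hK, y, hy⟩ : ∃ (K : Type) (_ : Field K) (_ : Algebra.EssFiniteType ℤ K),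
          Kron K s ∧ ∃ y : V (M.H i s) K, y ≠ 0 := by
        rcases hE with ⟨_, hE⟩ | ⟨p, _, _, hE⟩
        · obtain ⟨e, rfl⟩ : ∃ e, s = e + 1 := by
            rcases s with _ | e
            · exfalso
              have h3 : (1 : Cardinal) ≤ Algebra.trdeg ℚ E + 1 := le_add_self
              rw [hE] at h3
              exact absurd h3 (by simp)
            · exact ⟨e, rfl⟩
          have h4 : Algebra.trdeg ℚ E = e := by
            have h4 : Algebra.trdeg ℚ E + 1 = (e : Cardinal) + 1 := by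
              rw [hE]
              push_cast
              rfl
            simpa using h4
          obtain ⟨K, _, _, hf, hK, y, hy⟩ :=
            exists_exact (M.good i ((e + 1 : ℕ) : ℤ)) ℚ E e h4.le x hx
          refine ⟨K, inferInstance, essFiniteType_of_rat K, Or.inl ⟨inferInstance, ?_⟩, y, hy⟩
          rw [hK]
          push_cast
          rfl
        · obtain ⟨K, _, _, hf, hK, y, hy⟩ := exists_exact (M.good i s) (ZMod p) E s hE.le x hx
          exact ⟨K, inferInstance, essFiniteType_of_zmod p K,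
            Or.inr ⟨p, inferInstance, inferInstance, hK⟩, y, hy⟩
      obtain ⟨X, f, hf, hX, ⟨z, hz⟩ | ⟨q, c, s', hc, hs', hcs, h2⟩⟩ :=
        M.models K s hK i s hi y hy
      · exact hz (h X f hf s hs hX i hi z)
      · have h3 : (s : ℤ) - c = s' := by omega
        rw [h3] at h2
        obtain ⟨z, hz⟩ := h2
        exact hz (ih s' (by omega) (by omega) (X.residueField q) hs' (i + 1 - 2 * c) (by omega) z)
  exact fun E _ s hs hE i hi x => h1 s hs E hE i hi x

theorem negativeFG_iff : NegativeFG M D ↔ NegativeZero M D := by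
  constructor
  · intro h X f hf d hd hX i hi y
    obtain ⟨e⟩ := M.negative X f hf d hX i hi
    have h1 := h X f hf d hd hX i hi
    have h2 : AddGroup.FG (M.HX X i d) :=
      AddGroup.fg_of_surjective (f := e.toAddMonoidHom) e.surjective
    exact eq_zero_of_fg _ (Module.Finite.iff_addGroup_fg.2 h2) y
  · intro h X f hf d hd hX i hi
    obtain ⟨e⟩ := M.negative X f hf d hX i hi
    have h1 : Subsingleton (M.HE X i d) := by
      refine ⟨fun a b => e.injective ?_⟩
      rw [h X f hf d hd hX i hi (e a), h X f hf d hd hX i hi (e b)]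
    infer_instance

/-- **Negative degrees in the weight of the dimension.** For every `D` equivalent are:

1. `Hⁱ(X_et, ℤ(dim X))` is finitely generated for all `i < 0` and all `X`, regular, connected and
   proper over `ℤ`, of dimension at most `D`;
2. `Hⁱ(X, ℚ(dim X)) = 0` for these `i` and `X`;
3. `Hⁱ(E, ℚ(s)) = 0` for all `i < 0` and all fields `E` of Kronecker dimension `s ≤ D`;
4. `Hⁱ(𝔽_p(t₁, …, t_{s+1}), ℚ(s+1))` is finite dimensional for all `i ≤ 0`, `s ≤ D` and primes `p`,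
   and `Hⁱ(ℚ(t₁, …, t_s), ℚ(s+1))` is finite dimensional for all `i ≤ 0` and `1 ≤ s ≤ D`. -/
theorem main_negative (M : TopWeightTheory) (D : ℕ) :
    [NegativeFG M D, NegativeZero M D, KronZero M D, KronFinite M D].TFAE := by
  tfae_have 1 ↔ 2 := negativeFG_iff
  tfae_have 2 → 3 := kronZero_of_negativeZero
  tfae_have 3 → 2 := negativeZero_of_kronZero
  tfae_have 3 ↔ 4 := kronZero_iff
  tfae_finish

end Pool.Agent.H51BS
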