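import Pool.Agent.H51BS.Arith

/-!
# Proper regular schemes over finite fields and rational function fields
-/

set_option autoImplicit false

namespace Pool.Agent.H51BS

open Pool.Agent.Q26.TL CategoryTheory AlgebraicGeometry

/-- smooth and proper over `𝔽_p`, which is the same as regular and proper over `𝔽_p` -/
def IsSmoothProper (p : ℕ) [Fact p.Prime] (X : Scheme.{0}) (f : X ⟶ SpecFp p) : Prop :=
  Smooth f ∧ IsProper f

/-- Consequence of the alterations of de Jong, localisation and transfer (`n < 0`): if `X` is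
separated and of finite type over `𝔽_p` and `Hⁱ(X, ℚᶜ(n)) ≠ 0`, then `Hʲ(Y, ℚᶜ(n)) ≠ 0` for some
`j` and some `Y`, smooth and proper over `𝔽_p` and of dimension at most `dim X`. -/
def Alterations (HQ : Scheme.{0} → ℤ → ℤ → ModuleCat.{0} ℚ) : Prop :=
  ∀ (p : ℕ) [Fact p.Prime] (X : Scheme.{0}) (f : X ⟶ SpecFp p), IsFiniteTypeOver p X f →
    ∀ n i : ℤ, n < 0 → ∀ y : HQ X n i, y ≠ 0 →
      ∃ (Y : Scheme.{0}) (g : Y ⟶ SpecFp p), IsSmoothProper p Y g ∧
        topologicalKrullDim Y ≤ topologicalKrullDim X ∧ ∃ (j : ℤ) (z : HQ Y n j), z ≠ 0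

/-- `Hⁱ(X, ℚᶜ(n)) = 0` for `i > -2n` -/
def UpperBound (HQ : Scheme.{0} → ℤ → ℤ → ModuleCat.{0} ℚ) : Prop :=
  ∀ (p : ℕ) [Fact p.Prime] (X : Scheme.{0}) (f : X ⟶ SpecFp p), IsFiniteTypeOver p X f →
    ∀ n i : ℤ, -2 * n < i → ∀ y : HQ X n i, y = 0

/-- A `CycleTheory` with the facts `Alterations` and `UpperBound`. -/
structure ProperTheory extends CycleTheory where
  alterations : Alterations HQ
  upperBound : UpperBound HQ

/-- the question in weight `n` for proper regular schemes over `𝔽_p` of dimension at most `d`: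
`Hⁱ(X_et, ℤᶜ(n))` is finitely generated for `i ≤ -2n+1` -/
def QuestionUpTo (M : ProperTheory) (p : ℕ) [Fact p.Prime] (n : ℤ) (d : ℕ) : Prop :=
  ∀ (X : Scheme.{0}) (f : X ⟶ SpecFp p), IsSmoothProper p X f → topologicalKrullDim X ≤ d →
    ∀ i : ℤ, i ≤ -2 * n + 1 → AddGroup.FG (M.HZ X n i)

theorem IsSmoothProper.isFiniteTypeOver {p : ℕ} [Fact p.Prime] {X : Scheme.{0}}
    {f : X ⟶ SpecFp p} (h : IsSmoothProper p X f) : IsFiniteTypeOver p X f := by
  have := h.2
  exact ⟨inferInstance, inferInstance, inferInstance⟩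

/-- For a prime `p`, `n < 0` and `d ≥ 0` equivalent are:

1. `Hⁱ(X_et, ℤᶜ(n))` is finitely generated for all `i ≤ -2n+1` and all proper regular `X` over
   `𝔽_p` of dimension at most `d`;
2. `Hⁱ(X_et, ℤᶜ(n))` is finite for all `i` and all `X` separated, of finite type and of dimension
   at most `d` over `𝔽_p`;
3. `Hʲ(𝔽_p(t₁, …, t_{d+1}), ℚ(d+1-n))` is finite dimensional for all `j`;
4. `Hʲ(𝔽_p(t₁, …, t_{d+1}), ℚ(d+1-n)) = 0` for all `j`;
5. `Hʲ(E, ℚ(d-n)) = 0` for all `j` and all fields `E` of transcendence degree at most `d` over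
   `𝔽_p`. -/
theorem main_proper (M : ProperTheory) (p : ℕ) [Fact p.Prime] (n : ℤ) (d : ℕ) (hn : n < 0) :
    [QuestionUpTo M p n d, AllFinite M.toCycleTheory p n d, RationalFinite M.toCycleTheory p n d,
      RationalZero M.toCycleTheory p n d, FieldsZero M.toCycleTheory p n d].TFAE := by
  have h := main_arith M.toCycleTheory p n d hn
  tfae_have 2 ↔ 3 := h.out 1 2
  tfae_have 3 ↔ 4 := h.out 2 3
  tfae_have 4 ↔ 5 := h.out 3 4
  tfae_have 2 → 1 := by
    intro h X f hf hX i _
    have := h X f hf.isFiniteTypeOver hX i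
    infer_instance
  tfae_have 1 → 5 := by
    intro h
    refine (fieldsZero_iff hn).2 fun X f hf hX i y => ?_
    by_contra hy
    obtain ⟨Y, g, hg, hYX, j, z, hz⟩ := M.alterations p X f hf n i hn y hy
    have hj : j ≤ -2 * n := by
      by_contra hj
      exact hz (M.upperBound p Y g hg.isFiniteTypeOver n j (by omega) z)
    exact hz (zero_of_fg hg.isFiniteTypeOver hn j
      (h Y g hg (hYX.trans hX) j (by omega)) z)
  tfae_finish

end Pool.Agent.H51BS
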