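import Pool.Agent.H51BS.Homological
import Pool.Agent.H51BS.Flat

/-!
# Restriction to the generic fibre for blow-ups of projective spaces in varieties over finite fields
-/

set_option autoImplicit false

namespace Pool.Agent.H51BS

open Pool.Agent.Q26.TL CategoryTheory AlgebraicGeometry

/-- smooth, projective and connected over `𝔽_p`, of dimension `e` -/
def IsSmoothProjectiveOf (p : ℕ) [Fact p.Prime] (Y : Scheme.{0}) (e : ℕ) : Prop :=
  IsSmoothProjective p Y ∧ ConnectedSpace Y ∧ topologicalKrullDim Y = e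

/-- Consequence of the alterations of de Jong, localisation and transfer: if `X` is separated and
of finite type over `𝔽_p`, `n < 0`, and `Hⁱ(X, ℚᶜ(n)) ≠ 0` for some `i`, then `Hʲ(Y, ℚᶜ(n)) ≠ 0` for
some `j` and some `Y`, smooth, projective and connected over `𝔽_p`, of dimension at most `dim X`. -/
def AlterationsConnected (HQ : Scheme.{0} → ℤ → ℤ → ModuleCat.{0} ℚ) : Prop :=
  ∀ (p : ℕ) [Fact p.Prime] (X : Scheme.{0}) (f : X ⟶ SpecFp p), IsFiniteTypeOver p X f →
    ∀ n i : ℤ, n < 0 → ∀ y : HQ X n i, y ≠ 0 →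
      ∃ (Y : Scheme.{0}) (e : ℕ), IsSmoothProjectiveOf p Y e ∧ e ≤ topologicalKrullDim X ∧
        ∃ (j : ℤ) (z : HQ Y n j), z ≠ 0

/-- `Hⁱ(X, ℚᶜ(n)) = CH_n(X, -i-2n) ⊗ ℚ` is zero for `n < 0` and `i ≥ -2n` -/
def NoCyclesAbove (HQ : Scheme.{0} → ℤ → ℤ → ModuleCat.{0} ℚ) : Prop :=
  ∀ (p : ℕ) [Fact p.Prime] (X : Scheme.{0}) (f : X ⟶ SpecFp p), IsFiniteTypeOver p X f →
    ∀ n i : ℤ, n < 0 → -2 * n ≤ i → ∀ y : HQ X n i, y = 0

/-- Embeddings: if `Y` is smooth, projective and connected over `𝔽_p`, then for all large `N` there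
is a blow-up of `ℙ^N_ℤ` along a closed subscheme of `ℙ^N_{𝔽_p}` isomorphic to `Y`. -/
def HasBlowUpsP (Bl : ℕ → ℕ → Scheme.{0} → Scheme.{0} → Prop) : Prop :=
  ∀ (p : ℕ) [Fact p.Prime] (Y : Scheme.{0}) (e : ℕ), IsSmoothProjectiveOf p Y e →
    ∃ N₀ : ℕ, ∀ N : ℕ, N₀ ≤ N → ∃ X : Scheme.{0}, Bl p N Y X

/-- these blow-ups are connected, regular, proper and flat over `ℤ`, of dimension `N + 1` -/
def BlowUpsAreModels (Bl : ℕ → ℕ → Scheme.{0} → Scheme.{0} → Prop) : Prop :=
  ∀ (p : ℕ) [Fact p.Prime] (N e : ℕ) (Y X : Scheme.{0}), IsSmoothProjectiveOf p Y e →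
    Bl p N Y X → (∃ f : X ⟶ SpecInt, IsModel X f) ∧ topologicalKrullDim X = (N + 1 : ℕ)

/-- Blow-up formula. Let `X` be the blow-up of `ℙ^N_ℤ` along `Y`, of dimension `e`, and let
`d = N + 1`. Then `H^{2d-1-i}(X, ℚ(d))` is the sum of `H^{2d-1-i}(ℙ^N_ℤ, ℚ(d))`, which injects into
the cohomology of the generic fibre `ℙ^N_ℚ`, and of the groups
`H^{2d-1-i-2k}(Y, ℚ(d-k)) = H^{-2n-1-i}(Y, ℚᶜ(n))`, `n = e - d + k`, `1 ≤ k ≤ N - e`, which restrict
to zero. So the restriction is injective if and only if the latter groups are zero. -/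
def BlowUpKernel (HQ HX HG : Scheme.{0} → ℤ → ℤ → ModuleCat.{0} ℚ)
    (res : ∀ (X : Scheme.{0}) (i m : ℤ), HX X i m ⟶ HG X i m)
    (Bl : ℕ → ℕ → Scheme.{0} → Scheme.{0} → Prop) : Prop :=
  ∀ (p : ℕ) [Fact p.Prime] (N e : ℕ) (Y X : Scheme.{0}), IsSmoothProjectiveOf p Y e →
    Bl p N Y X → ∀ i : ℤ, 0 ≤ i →
      (Function.Injective (res X (2 * (N + 1 : ℕ) - 1 - i) (N + 1 : ℕ)).hom ↔
        ∀ n : ℤ, e - N ≤ n → n < 0 → ∀ y : HQ Y n (-2 * n - 1 - i), y = 0)

/-- A `CycleTheory` with the groups `HX X i m = Hⁱ(X, ℚ(m))` of regular schemes, the groups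
`HG X i m = Hⁱ(X_ℚ, ℚ(m))` of their generic fibres, the restrictions `res`, the relation `Bl p N Y X`
(`X` is a blow-up of `ℙ^N_ℤ` along a closed subscheme of `ℙ^N_{𝔽_p}` isomorphic to `Y`) and the
published facts about them. -/
structure RestrictionTheory extends CycleTheory where
  HX : Scheme.{0} → ℤ → ℤ → ModuleCat.{0} ℚ
  HG : Scheme.{0} → ℤ → ℤ → ModuleCat.{0} ℚ
  res : ∀ (X : Scheme.{0}) (i m : ℤ), HX X i m ⟶ HG X i m
  Bl : ℕ → ℕ → Scheme.{0} → Scheme.{0} → Prop
  alterations : AlterationsConnected HQ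
  projective : ProjectiveFiniteType
  noCycles : NoCyclesAbove HQ
  hasBlowUps : HasBlowUpsP Bl
  models : BlowUpsAreModels Bl
  kernel : BlowUpKernel HQ HX HG res Bl

variable (M : RestrictionTheory)

/-- the restriction `H^{2d-1-i}(X, ℚ(d)) → H^{2d-1-i}(X_ℚ, ℚ(d))` is injective -/
def InjectiveAt (X : Scheme.{0}) (d : ℕ) (i : ℤ) : Prop :=
  Function.Injective (M.res X (2 * d - 1 - i) d).hom

/-- The question: the restriction is injective for all `i ≥ 0` and all `X`, connected, regular,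
proper and flat over `ℤ`, `d = dim X`. -/
def RestrictionQuestion : Prop :=
  ∀ (X : Scheme.{0}) (f : X ⟶ SpecInt), IsModel X f → ∀ d : ℕ, topologicalKrullDim X = d →
    ∀ i : ℤ, 0 ≤ i → InjectiveAt M X d i

/-- the restriction is injective for all `i ≥ 0` and all blow-ups `X` of projective spaces `ℙ^N_ℤ`
along subschemes `Y` of `ℙ^N_{𝔽_p}`, smooth, projective and connected, of dimension at most `D` -/
def BlowUpsInFibres (p : ℕ) [Fact p.Prime] (D : ℕ) : Prop :=
  ∀ (N e : ℕ) (Y X : Scheme.{0}), e ≤ D → IsSmoothProjectiveOf p Y e → M.Bl p N Y X →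
    ∀ i : ℤ, 0 ≤ i → InjectiveAt M X (N + 1) i

/-- `Hʲ(𝔽_p(t₁, …, t_{D+1}), ℚ(m))` is finite dimensional for all `j` and all `m ≥ D + 2` -/
def FiniteAbove (p : ℕ) [Fact p.Prime] (D : ℕ) : Prop :=
  ∀ j m : ℤ, D + 2 ≤ m → FiniteAt (M.H j m) (ZMod p) (D + 1)

/-- `Hʲ(𝔽_p(t₁, …, t_{D+1}), ℚ(m))` is zero for all `j` and all `m ≥ D + 2` -/
def ZeroAbove (p : ℕ) [Fact p.Prime] (D : ℕ) : Prop :=
  ∀ j m : ℤ, D + 2 ≤ m → ∀ x : (M.H j m).obj (ratRing (ZMod p) (D + 1)), x = 0

/-- `Hʲ(E, ℚ(m)) = 0` for all `j`, all `m > D` and all fields `E` of transcendence degree at most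
`D` over `𝔽_p` -/
def FieldsZeroAbove (p : ℕ) [Fact p.Prime] (D : ℕ) : Prop :=
  ∀ j m : ℤ, D < m → VanishAt (M.H j m) (ZMod p) D

variable {M} {p : ℕ} [Fact p.Prime] {D : ℕ}

theorem finiteAbove_iff :
    FiniteAbove M p D ↔ ∀ n : ℤ, n < 0 → RationalFinite M.toCycleTheory p n D := by
  constructor
  · intro h n hn j
    exact h j (D + 1 - n) (by omega)
  · intro h j m hm
    have h1 := h (D + 1 - m) (by omega) j
    rwa [show (D : ℤ) + 1 - (D + 1 - m) = m by ring] at h1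

theorem zeroAbove_iff :
    ZeroAbove M p D ↔ ∀ n : ℤ, n < 0 → RationalZero M.toCycleTheory p n D := by
  constructor
  · intro h n hn j
    exact h j (D + 1 - n) (by omega)
  · intro h j m hm
    have h1 := h (D + 1 - m) (by omega) j
    rwa [show (D : ℤ) + 1 - (D + 1 - m) = m by ring] at h1

theorem fieldsZeroAbove_iff :
    FieldsZeroAbove M p D ↔ ∀ n : ℤ, n < 0 → FieldsZero M.toCycleTheory p n D := by
  constructor
  · intro h n hn j
    exact h j (D - n) (by omega)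
  · intro h j m hm
    have h1 := h (D - m) (by omega) j
    rwa [show (D : ℤ) - (D - m) = m by ring] at h1

theorem blowUps_of_fields (h : FieldsZeroAbove M p D) : BlowUpsInFibres M p D := by
  intro N e Y X he hY hX i hi
  refine (M.kernel p N e Y X hY hX i hi).2 fun n _ hn y => ?_
  obtain ⟨f, hf⟩ := M.projective p Y hY.1
  have h1 := fieldsZeroAbove_iff.1 h n hn
  refine (fieldsZero_iff hn).1 h1 Y f hf ?_ _ y
  rw [hY.2.2]
  exact_mod_cast he

theorem fields_of_blowUps (h : BlowUpsInFibres M p D) : FieldsZeroAbove M p D := by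
  refine fieldsZeroAbove_iff.2 fun n hn => (fieldsZero_iff hn).2 fun X f hf hX i y => ?_
  by_contra hy
  obtain ⟨Y, e, hY, heX, j, z, hz⟩ := M.alterations p X f hf n i hn y hy
  have heD : e ≤ D := by
    have h1 := heX.trans hX
    exact_mod_cast h1
  obtain ⟨g, hg⟩ := M.projective p Y hY.1
  have hj : j < -2 * n := by
    by_contra hj
    exact hz (M.noCycles p Y g hg n j hn (by omega) z)
  obtain ⟨N₀, hN₀⟩ := M.hasBlowUps p Y e hY
  obtain ⟨W, hW⟩ := hN₀ (N₀ + (e - n).toNat) (by omega)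
  have h1 := h _ e Y W heD hY hW (-2 * n - 1 - j) (by omega)
  have h2 := (M.kernel p _ e Y W hY hW (-2 * n - 1 - j) (by omega)).1 h1 n (by omega) hn
  rw [show -2 * n - 1 - (-2 * n - 1 - j) = j by ring] at h2
  exact hz (h2 z)

/-- **Restriction to the generic fibre for blow-ups in varieties over `𝔽_p`.** For every prime `p`
and every `D` equivalent are:

1. the restriction to the generic fibre is injective (for all `i ≥ 0`) for all blow-ups of
   projective spaces `ℙ^N_ℤ` along subschemes of `ℙ^N_{𝔽_p}`, smooth, projective and connected, of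
   dimension at most `D`;
2. `Hʲ(𝔽_p(t₁, …, t_{D+1}), ℚ(m))` is finite dimensional for all `j` and all `m ≥ D + 2`;
3. these spaces are zero;
4. `Hʲ(E, ℚ(m)) = 0` for all `j`, all `m > D` and all fields `E` of transcendence degree at most `D`
   over `𝔽_p`. -/
theorem main_restriction (M : RestrictionTheory) (p : ℕ) [Fact p.Prime] (D : ℕ) :
    [BlowUpsInFibres M p D, FiniteAbove M p D, ZeroAbove M p D, FieldsZeroAbove M p D].TFAE := by
  tfae_have 1 → 4 := fields_of_blowUps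
  tfae_have 4 → 1 := blowUps_of_fields
  tfae_have 2 ↔ 3 := by
    rw [finiteAbove_iff, zeroAbove_iff]
    exact ⟨fun h n hn => (rationalZero_iff hn).2 (h n hn),
      fun h n hn => (rationalZero_iff hn).1 (h n hn)⟩
  tfae_have 2 ↔ 4 := by
    rw [finiteAbove_iff, fieldsZeroAbove_iff]
    exact ⟨fun h n hn => (fieldsZero_iff_finite hn).2 (h n hn),
      fun h n hn => (fieldsZero_iff_finite hn).1 (h n hn)⟩
  tfae_finish

/-- a positive answer implies the statements of `main_restriction` for all `p` and `D` -/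
theorem blowUps_of_question (M : RestrictionTheory) (h : RestrictionQuestion M) (p : ℕ)
    [Fact p.Prime] (D : ℕ) : BlowUpsInFibres M p D := by
  intro N e Y X _ hY hX i hi
  obtain ⟨⟨f, hf⟩, hd⟩ := M.models p N e Y X hY hX
  exact h X f hf (N + 1) hd i hi

end Pool.Agent.H51BS
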