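import Pool.Agent.H51BS.Infinite
import Pool.Agent.Q26.SP.Zero

/-!
# The Beilinson–Soulé conjecture in one characteristic and rational function fields
-/

set_option autoImplicit false

namespace Pool.Agent.H51BS

open Pool.Agent.Q26.TL Pool.Agent.Q26.SP.Zero AlgebraicGeometry CategoryTheory Cardinal

/-- Motivic cohomology with the localisation sequences of the affine lines over fields and with the
finiteness of `H¹(P, ℚ(n))` for prime fields `P` and `n ≥ 2` (Borel for `P = ℚ`, Quillen for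
`P = 𝔽_p`). -/
structure MotivicLine extends Motivic where
  localization : Localization H
  borel : ∀ (P : Type) [Field P], IsPrimeField P → ∀ n : ℤ, 2 ≤ n → Module.Finite ℚ (V (H 1 n) P)

variable (M : MotivicLine) (P : Type) [Field P]

/-- `H¹(P(t₁, t₂, …), ℚ(n))` is finite dimensional for all `n ≥ 2` -/
def FiniteDegreeOne : Prop := ∀ n : ℤ, 2 ≤ n → FiniteInf (M.H 1 n) P

/-- `H¹(P, ℚ(n)) → H¹(P(t₁, t₂, …), ℚ(n))` is bijective for all `n ≥ 2` -/
def RigidDegreeOne : Prop := ∀ n : ℤ, 2 ≤ n → RigidInf (M.H 1 n) P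

/-- `H¹(F, ℚ(n)) → H¹(F(t), ℚ(n))` is bijective for all `n ≥ 2` and all fields `F` of the
characteristic of `P` -/
def RigidForAllFields : Prop :=
  ∀ (n : ℤ) (F : Type) [Field F] [Algebra P F], 2 ≤ n →
    Function.Bijective (mp (M.H 1 n) (algebraMap F (RatFunc F)))

/-- `Hⁱ(E, ℤ(n)) = 0` for all fields `E` of transcendence degree at most `d` over `P` -/
def VanishUpTo (i n : ℤ) (d : ℕ) : Prop :=
  ∀ (E : Type) [Field E] [Algebra P E], Algebra.trdeg P E ≤ d → Subsingleton (M.HZ E i n)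

variable {M P}

theorem subsingleton_iff (i n : ℤ) (hi : i ≤ 0) (hn : 1 ≤ n) (F : Type) [Field F] :
    Subsingleton (M.HZ F i n) ↔ ∀ x : V (M.H i n) F, x = 0 := by
  refine ⟨fun h x => rational_zero M.toMotivic F i n h x, fun h => ?_⟩
  obtain ⟨q, hq, -⟩ := M.rational F i n
  refine ⟨fun x y => ?_⟩
  have h1 : q (x - y) = 0 := h _
  obtain ⟨m, hm, h2⟩ := hq _ h1
  exact sub_eq_zero.1 (M.torsionFree F i n hi hn _ m hm h2)

theorem finite_prime (hP : IsPrimeField P) (i n : ℤ) (hi : i ≤ 0) (hn : 1 ≤ n) :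
    Module.Finite ℚ (V (M.H (i + 1) (n + 1)) P) := by
  rcases lt_or_eq_of_le hi with h | h
  · have h1 : ∀ x : V (M.H (i + 1) (n + 1)) P, x = 0 := by
      intro x
      refine (injective_iff_map_eq_zero _).1
        ((M.good (i + 1) (n + 1)).inj (algebraMap P (AlgebraicClosure P))) x ?_
      exact M.base P (AlgebraicClosure P) hP (i + 1) (n + 1) (by omega) (by omega) _
    have : Subsingleton (V (M.H (i + 1) (n + 1)) P) :=
      ⟨fun x y => (h1 x).trans (h1 y).symm⟩
    infer_instance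
  · subst h
    exact M.borel P hP (n + 1) (by omega)

theorem law_sheaves (hP : IsPrimeField P) (i n : ℤ) (d : ℕ) (hi : i ≤ 0) (hn : 1 ≤ n) :
    [VanishUpTo M P i n d, FiniteAt (M.H (i + 1) (n + 1)) P (d + 1),
      RigidAt (M.H (i + 1) (n + 1)) P (d + 1)].TFAE := by
  have h := law M.good M.localization i n P hP
    (fun k _ _ _ => M.base P k hP i n hi hn) (finite_prime hP i n hi hn) d
  have h1 : VanishUpTo M P i n d ↔ VanishAt (M.H i n) P d := by
    constructor
    · intro h E _ _ hE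
      exact (subsingleton_iff i n hi hn E).1 (h E hE)
    · intro h E _ _ hE
      exact (subsingleton_iff i n hi hn E).2 (h E hE)
  tfae_have 1 ↔ 2 := h1.trans (h.out 0 1)
  tfae_have 2 ↔ 3 := h.out 1 2
  tfae_finish

theorem fieldsVanish_iff (hP : IsPrimeField P) :
    SheavesVanish M.toMotivic P ↔ FieldsVanish M.toMotivic P := by
  let K := FractionRing (MvPolynomial ℕ P)
  have : Algebra.IsAlgebraic (MvPolynomial ℕ P) K := IsLocalization.isAlgebraic _ (nonZeroDivisors _)
  have hb : IsTranscendenceBasis P (algebraMap K (AlgebraicClosure K) ∘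
      (algebraMap (MvPolynomial ℕ P) K ∘ MvPolynomial.X)) :=
    ((IsTranscendenceBasis.mvPolynomial ℕ P).algebraMap_comp (A := K)).algebraMap_comp
  exact ((main M.toMotivic).2 P (AlgebraicClosure K) ℕ _ hP hb).1.out 0 3

/-- no class in degree zero implies no class in negative degrees -/
theorem fieldsVanish_of_zero
    (h : ∀ (n : ℤ), 1 ≤ n → ∀ (E : Type) [Field E] [Algebra P E] (x : V (M.H 0 n) E), x = 0) :
    FieldsVanish M.toMotivic P := by
  intro F _ _ i n hi hn
  rw [subsingleton_iff i n hi hn]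
  intro x
  by_contra hx
  obtain ⟨m, hm⟩ := Int.eq_ofNat_of_zero_le (show 0 ≤ -i by omega)
  have h5 := M.toTheory.exists_units (P := P) m i n F x hx
  rw [show i + (m : ℤ) = 0 by omega] at h5
  obtain ⟨F', _, _, y, hy⟩ := h5
  exact hy (h _ (by omega) F' y)

theorem zero_of_finite (hP : IsPrimeField P) (h : FiniteDegreeOne M P) (n : ℤ) (hn : 1 ≤ n)
    (E : Type) [Field E] [Algebra P E] (x : V (M.H 0 n) E) : x = 0 := by
  by_contra hx
  obtain ⟨d, K, _, _, hd, y, hy⟩ := exists_finite_trdeg (M.good 0 n) P E x hx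
  have h1 := ((law_sheaves hP 0 n d le_rfl hn).out 0 1).2
    (finiteAt_of_finiteInf (M.good 1 (n + 1)) P (h (n + 1) (by omega)) (d + 1))
  exact hy ((subsingleton_iff 0 n le_rfl hn K).1 (h1 K hd) y)

theorem rigid_of_vanish (h : FieldsVanish M.toMotivic P) : RigidForAllFields M P := by
  intro n F _ _ hn
  refine ⟨(M.good 1 n).inj _, ?_⟩
  obtain ⟨m, rfl⟩ : ∃ m : ℤ, n = m + 1 := ⟨n - 1, by ring⟩
  obtain ⟨δ, -, hδ⟩ := M.localization.exists_map F 0 m
  intro y
  have h1 : δ y = 0 := by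
    refine DirectSum.ext_component ℚ fun x => ?_
    have : Fact (Irreducible x.1) := ⟨x.2.2⟩
    rw [map_zero]
    let : Algebra P (AdjoinRoot x.1) :=
      ((algebraMap F (AdjoinRoot x.1)).comp (algebraMap P F)).toAlgebra
    exact (subsingleton_iff 0 m le_rfl (by omega) (AdjoinRoot x.1)).1
      (h (AdjoinRoot x.1) 0 m le_rfl (by omega)) _
  have h2 : y ∈ LinearMap.ker δ := h1
  rw [hδ] at h2
  exact h2

theorem rigid_of_all (hP : IsPrimeField P) (h : RigidForAllFields M P) : RigidDegreeOne M P :=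
  fun n hn => rigidInf_of_rigidAt (M.good 1 n) P hP fun d =>
    rigidAt_of_all (M.good 1 n) P hP (fun F _ _ => (h n F hn).2) d

/-- Let `P` be a prime field. The following are equivalent:

1. `ℋⁱ(ℤ(n)) = 0` on `Sm/k` for all fields `k` of the characteristic of `P`, `n ≥ 1`, `i ≤ 0`;
2. `H¹(P(t₁, t₂, …), ℚ(n))` is finite dimensional for all `n ≥ 2`;
3. `H¹(P, ℚ(n)) → H¹(P(t₁, t₂, …), ℚ(n))` is bijective for all `n ≥ 2`;
4. `H¹(F, ℚ(n)) → H¹(F(t), ℚ(n))` is bijective for all `n ≥ 2` and all fields `F ⊇ P`.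

Moreover, for all `i ≤ 0`, `n ≥ 1` and `d`, equivalent are: `Hⁱ(E, ℤ(n)) = 0` for all fields `E` of
transcendence degree at most `d` over `P`; `Hⁱ⁺¹(P(t₁, …, t_{d+1}), ℚ(n+1))` is finite dimensional;
`Hⁱ⁺¹(P, ℚ(n+1)) → Hⁱ⁺¹(P(t₁, …, t_{d+1}), ℚ(n+1))` is bijective. -/
theorem main_sheaves (M : MotivicLine) :
    (Question M.toMotivic ↔ ∀ (P : Type) [Field P], IsPrimeField P →
      SheavesVanish M.toMotivic P) ∧
    ∀ (P : Type) [Field P], IsPrimeField P →
      [SheavesVanish M.toMotivic P, FiniteDegreeOne M P, RigidDegreeOne M P,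
        RigidForAllFields M P].TFAE ∧
      ∀ (i n : ℤ) (d : ℕ), i ≤ 0 → 1 ≤ n →
        [VanishUpTo M P i n d, FiniteAt (M.H (i + 1) (n + 1)) P (d + 1),
          RigidAt (M.H (i + 1) (n + 1)) P (d + 1)].TFAE := by
  refine ⟨(main M.toMotivic).1, fun P _ hP => ⟨?_, fun i n d hi hn =>
    law_sheaves hP i n d hi hn⟩⟩
  tfae_have 1 → 4 := fun h => rigid_of_vanish ((fieldsVanish_iff hP).1 h)
  tfae_have 4 → 3 := fun h => rigid_of_all hP h
  tfae_have 3 → 2 := by
    intro h n hn
    have := M.borel P hP n hn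
    exact Module.Finite.of_surjective _ (h n hn).2
  tfae_have 2 → 1 := fun h => (fieldsVanish_iff hP).2
    (fieldsVanish_of_zero fun n hn E _ _ x => zero_of_finite hP h n hn E x)
  tfae_finish

end Pool.Agent.H51BS
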