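import Pool.Agent.H51BS.Negative

/-!
# Regular proper schemes over the integers in negative weights, in the degrees at most `-2 dim X`
-/

set_option autoImplicit false

namespace Pool.Agent.H51BS

open Pool.Agent.Q26.TL CategoryTheory AlgebraicGeometry

/-- Coniveau spectral sequence: if `X` is regular, connected and proper over `ℤ`, of dimension `d`,
and `Hⁱ(X, ℚ(m)) ≠ 0` with `i ≤ 0`, then `Hⁱ⁻²ᶜ(κ(x), ℚ(m-c)) ≠ 0` for some point `x` of
codimension `c`; its residue field has Kronecker dimension `d - c`. -/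
def ConiveauZ (H : ℤ → ℤ → Fun) (HX : Scheme.{0} → ℤ → ℤ → ModuleCat.{0} ℚ) : Prop :=
  ∀ (X : Scheme.{0}) (f : X ⟶ SpecInt), IsRegularProper X f → ∀ d : ℕ,
    topologicalKrullDim X = d → ∀ i m : ℤ, i ≤ 0 → ∀ y : HX X i m, y ≠ 0 →
      ∃ (x : X) (c s : ℕ), CodimEq X x c ∧ Kron (X.residueField x) s ∧ s + c = d ∧
        ClassAt H X x (i - 2 * c) (m - c)

/-- Models: if `E` is a finitely generated field of Kronecker dimension `s` and `Hⁱ(E, ℚ(m)) ≠ 0`
with `i ≤ 0`, then there is an `X`, regular, connected and proper over `ℤ`, of dimension `s` (with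
function field finite over `E`, de Jong), such that `Hⁱ(X, ℚ(m)) ≠ 0` or (obstruction to lifting
from the generic point) `Hⁱ⁺¹⁻²ᶜ(κ(x), ℚ(m-c)) ≠ 0` for some point `x` of codimension `c ≥ 1`. -/
def ModelsZ (H : ℤ → ℤ → Fun) (HX : Scheme.{0} → ℤ → ℤ → ModuleCat.{0} ℚ) : Prop :=
  ∀ (E : Type) [Field E] [Algebra.EssFiniteType ℤ E] (s : ℕ), Kron E s → ∀ i m : ℤ, i ≤ 0 →
    ∀ z : V (H i m) E, z ≠ 0 →
      ∃ (X : Scheme.{0}) (f : X ⟶ SpecInt), IsRegularProper X f ∧ topologicalKrullDim X = s ∧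
        ((∃ y : HX X i m, y ≠ 0) ∨ ∃ (x : X) (c s' : ℕ), 1 ≤ c ∧ Kron (X.residueField x) s' ∧
          s' + c = s ∧ ClassAt H X x (i + 1 - 2 * c) (m - c))

/-- `Hⁱ(X_et, ℤᶜ(n)) = H²ᵈ⁺ⁱ(X, ℚ(d-n))` for `n < 0`, `i ≤ -2d` and `X` regular, connected and
proper over `ℤ`, of dimension `d` (the étale cohomology with coefficients `ℚ/ℤ(d-n)` vanishes in
negative degrees and is finite in degree zero) -/
def ShiftedRational (HZ : Scheme.{0} → ℤ → ℤ → AddCommGrpCat.{0})
    (HX : Scheme.{0} → ℤ → ℤ → ModuleCat.{0} ℚ) : Prop :=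
  ∀ (X : Scheme.{0}) (f : X ⟶ SpecInt), IsRegularProper X f → ∀ d : ℕ,
    topologicalKrullDim X = d → ∀ n i : ℤ, n < 0 → i ≤ -2 * d →
      Nonempty (HZ X n i ≃+ HX X (2 * d + i) (d - n))

/-- Borel, Quillen: `Hʲ(k, ℚ(m)) = 0` for `j ≤ 0 < m` and `k` an algebraic closure of a prime
field -/
def BorelClosed (H : ℤ → ℤ → Fun) : Prop :=
  ∀ (P k : Type) [Field P] [Field k] [Algebra P k] [IsAlgClosure P k], (⊥ : Subfield P) = ⊤ →
    ∀ j m : ℤ, j ≤ 0 → 0 < m → ∀ x : V (H j m) k, x = 0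

/-- Borel, Quillen: `H¹(P, ℚ(m))` is finite dimensional for prime fields `P` and `m ≥ 2` -/
def BorelOne (H : ℤ → ℤ → Fun) : Prop :=
  ∀ (P : Type) [Field P], (⊥ : Subfield P) = ⊤ → ∀ m : ℤ, 2 ≤ m → Module.Finite ℚ (V (H 1 m) P)

/-- Rational motivic cohomology of rings (`Theory`), the groups `HZ X n i = Hⁱ(X_et, ℤᶜ(n))` and
`HX X i m = Hⁱ(X, ℚ(m))` of schemes, and the published facts about them. -/
structure NegativeWeightTheory extends Theory where
  HZ : Scheme.{0} → ℤ → ℤ → AddCommGrpCat.{0}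
  HX : Scheme.{0} → ℤ → ℤ → ModuleCat.{0} ℚ
  localization : Localization H
  borelClosed : BorelClosed H
  borelOne : BorelOne H
  coniveau : ConiveauZ H HX
  models : ModelsZ H HX
  shifted : ShiftedRational HZ HX

variable (M : NegativeWeightTheory) (n J : ℤ) (D : ℕ)

/-- `Hⁱ(X_et, ℤᶜ(n))` is finitely generated for all `i ≤ J - 2 dim X` and all `X`, regular,
connected and proper over `ℤ`, of dimension at most `D` -/
def LowDegreesFG : Prop :=
  ∀ (X : Scheme.{0}) (f : X ⟶ SpecInt), IsRegularProper X f → ∀ d : ℕ, d ≤ D →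
    topologicalKrullDim X = d → ∀ i : ℤ, i ≤ J - 2 * d → AddGroup.FG (M.HZ X n i)

/-- `Hⁱ(X_et, ℤᶜ(n)) = 0` for all `i ≤ J - 2 dim X` and all `X`, regular, connected and proper over
`ℤ`, of dimension at most `D` -/
def LowDegreesZero : Prop :=
  ∀ (X : Scheme.{0}) (f : X ⟶ SpecInt), IsRegularProper X f → ∀ d : ℕ, d ≤ D →
    topologicalKrullDim X = d → ∀ i : ℤ, i ≤ J - 2 * d → ∀ y : M.HZ X n i, y = 0

/-- `Hʲ(E, ℚ(s-n)) = 0` for all `j ≤ J` and all fields `E` of Kronecker dimension `s ≤ D` -/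
def KronZeroShifted : Prop :=
  ∀ (E : Type) [Field E] (s : ℕ), s ≤ D → Kron E s → ∀ j : ℤ, j ≤ J →
    ∀ x : V (M.H j (s - n)) E, x = 0

/-- `Hʲ(𝔽_p(t₁, …, t_{s+1}), ℚ(s+1-n))` is finite dimensional for all `j ≤ J + 1`, all `s ≤ D` and
all primes `p`, and `Hʲ(ℚ(t₁, …, t_s), ℚ(s+1-n))` is finite dimensional for all `j ≤ J + 1` and
`1 ≤ s ≤ D` -/
def KronFiniteShifted : Prop :=
  (∀ (p : ℕ) [Fact p.Prime] (s : ℕ), s ≤ D → ∀ j : ℤ, j ≤ J + 1 →
    FiniteAt (M.H j (s + 1 - n)) (ZMod p) (s + 1)) ∧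
  ∀ s : ℕ, 1 ≤ s → s ≤ D → ∀ j : ℤ, j ≤ J + 1 → FiniteAt (M.H j (s + 1 - n)) ℚ s

variable {M n J D}

theorem fin_primeW (P : Type) [Field P] (hP : (⊥ : Subfield P) = ⊤) (i m : ℤ) (hi : i ≤ 1)
    (hm : 2 ≤ m) : Module.Finite ℚ (V (M.H i m) P) := by
  rcases lt_or_eq_of_le hi with h | h
  · have h1 : ∀ x : V (M.H i m) P, x = 0 := by
      intro x
      obtain ⟨k, _, _, hk⟩ := exists_closure P
      exact (injective_iff_map_eq_zero _).1 ((M.good i m).inj (algebraMap P k)) x
        (M.borelClosed P k hP i m (by omega) (by omega) _)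
    have : Subsingleton (V (M.H i m) P) := ⟨fun x y => (h1 x).trans (h1 y).symm⟩
    infer_instance
  · subst h
    exact M.borelOne P hP m hm

theorem law_belowW (P : Type) [Field P] (hP : (⊥ : Subfield P) = ⊤) (i : ℤ) (s : ℕ) (n : ℤ)
    (hn : n < 0) (hi : i ≤ 0) (e : ℕ) :
    VanishAt (M.H i (s - n)) P e ↔ FiniteAt (M.H (i + 1) (s + 1 - n)) P (e + 1) := by
  have h1 : (s : ℤ) + 1 - n = s - n + 1 := by ring
  rw [h1]
  exact (law M.good M.localization i (s - n) P hP
    (fun k _ _ _ => M.borelClosed P k hP i (s - n) hi (by omega))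
    (fin_primeW P hP (i + 1) (s - n + 1) (by omega) (by omega)) e).out 0 1

/-- vanishing for the fields of characteristic `p` -/
theorem vanishAt_zmodW (h : KronZeroShifted M n J D) (p : ℕ) [Fact p.Prime] (s : ℕ) (hs : s ≤ D)
    (i : ℤ) (hi : i ≤ J) : VanishAt (M.H i (s - n)) (ZMod p) s := by
  intro E _ _ hE x
  by_contra hx
  obtain ⟨K, _, _, -, hK, y, hy⟩ := exists_exact (M.good i (s - n)) (ZMod p) E s hE x hx
  exact hy (h K s hs (Or.inr ⟨p, inferInstance, inferInstance, hK⟩) i hi y)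

/-- vanishing for the fields of characteristic zero -/
theorem vanishAt_ratW (h : KronZeroShifted M n J D) (e : ℕ) (hs : e + 1 ≤ D) (i : ℤ)
    (hi : i ≤ J) : VanishAt (M.H i (((e + 1 : ℕ) : ℤ) - n)) ℚ e := by
  intro E _ _ hE x
  by_contra hx
  obtain ⟨K, _, _, -, hK, y, hy⟩ :=
    exists_exact (M.good i (((e + 1 : ℕ) : ℤ) - n)) ℚ E e hE x hx
  refine hy (h K (e + 1) hs (Or.inl ⟨inferInstance, ?_⟩) i hi y)
  rw [hK]
  push_cast
  rfl

theorem kronZeroShifted_iff (hn : n < 0) (hJ : J ≤ 0) :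
    KronZeroShifted M n J D ↔ KronFiniteShifted M n J D := by
  constructor
  · intro h
    refine ⟨fun p _ s hs i hi => ?_, fun s h1 hs i hi => ?_⟩
    · have h2 := (law_belowW (M := M) (ZMod p) bot_eq_top_zmod (i - 1) s n hn (by omega) s).1
        (vanishAt_zmodW h p s hs (i - 1) (by omega))
      rwa [sub_add_cancel] at h2
    · obtain ⟨e, rfl⟩ : ∃ e, s = e + 1 := ⟨s - 1, by omega⟩
      have h2 := (law_belowW (M := M) ℚ bot_eq_top_rat' (i - 1) (e + 1) n hn (by omega) e).1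
        (vanishAt_ratW h e hs (i - 1) (by omega))
      rwa [sub_add_cancel] at h2
  · rintro ⟨h1, h2⟩ E _ s hs hE i hi x
    rcases hE with ⟨_, hE⟩ | ⟨p, _, _, hE⟩
    · obtain ⟨e, rfl⟩ : ∃ e, s = e + 1 := by
        rcases s with _ | e
        · exfalso
          have h3 : (1 : Cardinal) ≤ Algebra.trdeg ℚ E + 1 := le_add_self
          rw [hE] at h3
          exact absurd h3 (by simp)
        · exact ⟨e, rfl⟩
      have h3 := (law_belowW (M := M) ℚ bot_eq_top_rat' i (e + 1) n hn (by omega) e).2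
        (h2 (e + 1) (by omega) hs (i + 1) (by omega))
      refine h3 E ?_ x
      have h4 : Algebra.trdeg ℚ E + 1 = (e : Cardinal) + 1 := by
        rw [hE]
        push_cast
        rfl
      exact le_of_eq (by simpa using h4)
    · have h3 := (law_belowW (M := M) (ZMod p) bot_eq_top_zmod i s n hn (by omega) s).2
        (h1 p s hs (i + 1) (by omega))
      exact h3 E hE.le x

/-- `Hʲ(X, ℚ(dim X - n)) = 0` for all `j ≤ J` and all `X`, regular, connected and proper over `ℤ`,
of dimension at most `D` -/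
def RationalBelow (M : NegativeWeightTheory) (n J : ℤ) (D : ℕ) : Prop :=
  ∀ (X : Scheme.{0}) (f : X ⟶ SpecInt), IsRegularProper X f → ∀ d : ℕ, d ≤ D →
    topologicalKrullDim X = d → ∀ j : ℤ, j ≤ J → ∀ y : M.HX X j (d - n), y = 0

theorem rationalBelow_of_kron (hJ : J ≤ 0) (h : KronZeroShifted M n J D) :
    RationalBelow M n J D := by
  intro X f hf d hd hX i hi y
  by_contra hy
  obtain ⟨x, c, s, -, hs, hsc, h2⟩ := M.coniveau X f hf d hX i (d - n) (by omega) y hy
  have h1 : (d : ℤ) - n - c = s - n := by omega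
  rw [h1] at h2
  obtain ⟨z, hz⟩ := h2
  exact hz (h (X.residueField x) s (by omega) hs (i - 2 * c) (by omega) z)

theorem kron_of_rationalBelow (hJ : J ≤ 0) (h : RationalBelow M n J D) :
    KronZeroShifted M n J D := by
  have h1 : ∀ s : ℕ, s ≤ D → ∀ (E : Type) [Field E], Kron E s → ∀ i : ℤ, i ≤ J →
      ∀ x : V (M.H i (s - n)) E, x = 0 := by
    intro s
    induction s using Nat.strong_induction_on with
    | _ s ih =>
      intro hs E _ hE i hi x
      by_contra hx
      obtain ⟨K, _, _, hK, y, hy⟩ : ∃ (K : Type) (_ : Field K) (_ : Algebra.EssFiniteType ℤ K),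
          Kron K s ∧ ∃ y : V (M.H i (s - n)) K, y ≠ 0 := by
        rcases hE with ⟨_, hE⟩ | ⟨p, _, _, hE⟩
        · obtain ⟨e, rfl⟩ : ∃ e, s = e + 1 := by
            rcases s with _ | e
            · exfalso
              have h3 : (1 : Cardinal) ≤ Algebra.trdeg ℚ E + 1 := le_add_self
              rw [hE] at h3
              exact absurd h3 (by simp)
            · exact ⟨e, rfl⟩
          have h4 : Algebra.trdeg ℚ E = e := by
            have h4 : Algebra.trdeg ℚ E + 1 = (e : Cardinal) + 1 := by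
              rw [hE]
              push_cast
              rfl
            simpa using h4
          obtain ⟨K, _, _, hf, hK, y, hy⟩ :=
            exists_exact (M.good i (((e + 1 : ℕ) : ℤ) - n)) ℚ E e h4.le x hx
          refine ⟨K, inferInstance, essFiniteType_of_rat K, Or.inl ⟨inferInstance, ?_⟩, y, hy⟩
          rw [hK]
          push_cast
          rfl
        · obtain ⟨K, _, _, hf, hK, y, hy⟩ :=
            exists_exact (M.good i (s - n)) (ZMod p) E s hE.le x hx
          exact ⟨K, inferInstance, essFiniteType_of_zmod p K,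
            Or.inr ⟨p, inferInstance, inferInstance, hK⟩, y, hy⟩
      obtain ⟨X, f, hf, hX, ⟨z, hz⟩ | ⟨q, c, s', hc, hs', hcs, h2⟩⟩ :=
        M.models K s hK i (s - n) (by omega) y hy
      · exact hz (h X f hf s hs hX i hi z)
      · have h3 : (s : ℤ) - n - c = s' - n := by omega
        rw [h3] at h2
        obtain ⟨z, hz⟩ := h2
        exact hz (ih s' (by omega) (by omega) (X.residueField q) hs' (i + 1 - 2 * c) (by omega) z)
  exact fun E _ s hs hE i hi x => h1 s hs E hE i hi x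

theorem rational_of_lowFG (hn : n < 0) (hJ : J ≤ 0) (h : LowDegreesFG M n J D) :
    RationalBelow M n J D := by
  intro X f hf d hd hX j hj y
  have h0 : 2 * (d : ℤ) + (j - 2 * d) = j := by ring
  obtain ⟨e⟩ := M.shifted X f hf d hX n (j - 2 * d) hn (by omega)
  rw [h0] at e
  have h1 := h X f hf d hd hX (j - 2 * d) (by omega)
  have h2 : AddGroup.FG (M.HX X j (d - n)) :=
    AddGroup.fg_of_surjective (f := e.toAddMonoidHom) e.surjective
  exact eq_zero_of_fg _ (Module.Finite.iff_addGroup_fg.2 h2) y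

theorem lowZero_of_rational (hn : n < 0) (hJ : J ≤ 0) (h : RationalBelow M n J D) :
    LowDegreesZero M n J D := by
  intro X f hf d hd hX i hi y
  obtain ⟨e⟩ := M.shifted X f hf d hX n i hn (by omega)
  exact e.injective ((h X f hf d hd hX (2 * d + i) (by omega) (e y)).trans (map_zero e).symm)

/-- **Degrees at most `-2 dim X` in negative weights.** For `n < 0`, `J ≤ 0` and all `D` equivalent
are:

1. `Hⁱ(X_et, ℤᶜ(n))` is finitely generated for all `i ≤ J - 2 dim X` and all `X`, regular,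
   connected and proper over `ℤ`, of dimension at most `D`;
2. these groups are zero;
3. `Hʲ(E, ℚ(s-n)) = 0` for all `j ≤ J` and all fields `E` of Kronecker dimension `s ≤ D`;
4. `Hʲ(𝔽_p(t₁, …, t_{s+1}), ℚ(s+1-n))` is finite dimensional for all `j ≤ J + 1`, `s ≤ D` and
   primes `p`, and `Hʲ(ℚ(t₁, …, t_s), ℚ(s+1-n))` is finite dimensional for all `j ≤ J + 1` and
   `1 ≤ s ≤ D`. -/
theorem main_shifted (M : NegativeWeightTheory) (n J : ℤ) (D : ℕ) (hn : n < 0) (hJ : J ≤ 0) :
    [LowDegreesFG M n J D, LowDegreesZero M n J D, KronZeroShifted M n J D,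
      KronFiniteShifted M n J D].TFAE := by
  tfae_have 1 → 3 := fun h => kron_of_rationalBelow hJ (rational_of_lowFG hn hJ h)
  tfae_have 3 → 2 := fun h => lowZero_of_rational hn hJ (rationalBelow_of_kron hJ h)
  tfae_have 2 → 1 := by
    intro h X f hf d hd hX i hi
    have : Subsingleton (M.HZ X n i) :=
      ⟨fun a b => (h X f hf d hd hX i hi a).trans (h X f hf d hd hX i hi b).symm⟩
    infer_instance
  tfae_have 3 ↔ 4 := kronZeroShifted_iff hn hJ
  tfae_finish

end Pool.Agent.H51BS
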