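import Pool.Agent.H51BS.Negative
import Pool.Agent.H51BS.Proper

/-!
# The weight of the dimension over finite fields, in degrees below the dimension
-/

set_option autoImplicit false

namespace Pool.Agent.H51BS

open Pool.Agent.Q26.TL CategoryTheory AlgebraicGeometry

/-- smooth, proper and connected over `𝔽_p` -/
def IsSPC (p : ℕ) [Fact p.Prime] (X : Scheme.{0}) (f : X ⟶ SpecFp p) : Prop :=
  IsSmoothProper p X f ∧ ConnectedSpace X

/-- Quillen: `Hʲ(k, ℚ(m)) = 0` for `(j, m) ≠ (0, 0)` and `k` an algebraic closure of `𝔽_p` -/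
def QuillenAll (H : ℤ → ℤ → Fun) : Prop :=
  ∀ (p : ℕ) [Fact p.Prime] (k : Type) [Field k] [Algebra (ZMod p) k] [IsAlgClosure (ZMod p) k]
    (j m : ℤ), j ≠ 0 ∨ m ≠ 0 → ∀ x : V (H j m) k, x = 0

/-- Coniveau spectral sequence: if `X` is smooth, proper and connected over `𝔽_p`, of dimension `d`,
and `Hⁱ(X, ℚ(m)) ≠ 0`, then `Hⁱ⁻²ᶜ(κ(x), ℚ(m-c)) ≠ 0` for some point `x` of codimension `c`; its
residue field has transcendence degree `d - c`. -/
def ConiveauP (H : ℤ → ℤ → Fun) (HX : Scheme.{0} → ℤ → ℤ → ModuleCat.{0} ℚ) : Prop :=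
  ∀ (p : ℕ) [Fact p.Prime] (X : Scheme.{0}) (f : X ⟶ SpecFp p), IsSPC p X f → ∀ d : ℕ,
    topologicalKrullDim X = d → ∀ i m : ℤ, ∀ y : HX X i m, y ≠ 0 →
      ∃ (x : X) (c s : ℕ), CodimEq X x c ∧ PointDegree p X f x s ∧ s + c = d ∧
        ClassAt H X x (i - 2 * c) (m - c)

/-- Models: if `E` is a finitely generated field of transcendence degree `s` over `𝔽_p` and
`Hⁱ(E, ℚ(m)) ≠ 0`, then there is an `X`, smooth, proper and connected over `𝔽_p`, of dimension `s`
(with function field finite over `E`, de Jong), such that `Hⁱ(X, ℚ(m)) ≠ 0` or (obstruction to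
lifting from the generic point) `Hⁱ⁺¹⁻²ᶜ(κ(x), ℚ(m-c)) ≠ 0` for some point `x` of codimension
`c ≥ 1`. -/
def ModelsP (H : ℤ → ℤ → Fun) (HX : Scheme.{0} → ℤ → ℤ → ModuleCat.{0} ℚ) : Prop :=
  ∀ (p : ℕ) [Fact p.Prime] (E : Type) [Field E] [Algebra (ZMod p) E]
    [Algebra.EssFiniteType (ZMod p) E] (s : ℕ), Algebra.trdeg (ZMod p) E = s → ∀ i m : ℤ,
    ∀ z : V (H i m) E, z ≠ 0 →
      ∃ (X : Scheme.{0}) (f : X ⟶ SpecFp p), IsSPC p X f ∧ topologicalKrullDim X = s ∧
        ((∃ y : HX X i m, y ≠ 0) ∨ ∃ (x : X) (c s' : ℕ), 1 ≤ c ∧ CodimEq X x c ∧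
          PointDegree p X f x s' ∧ s' + c = s ∧ ClassAt H X x (i + 1 - 2 * c) (m - c))

/-- For `X` smooth, proper and connected over `𝔽_p`, of dimension `d`, and `i < 2d` there is a
surjective map with finite kernel from `Hⁱ(X_et, ℤ(d))` to `Hⁱ(X, ℚ(d))`: the groups
`Hʲ(X_et, ℚ/ℤ(d))` are finite for `j < 2d` (Deligne, Gabber, Geisser–Levine, Milne). -/
def TorsionTop (HE : Scheme.{0} → ℤ → ℤ → AddCommGrpCat.{0})
    (HX : Scheme.{0} → ℤ → ℤ → ModuleCat.{0} ℚ) : Prop :=
  ∀ (p : ℕ) [Fact p.Prime] (X : Scheme.{0}) (f : X ⟶ SpecFp p), IsSPC p X f → ∀ d : ℕ,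
    topologicalKrullDim X = d → ∀ i : ℤ, i < 2 * d →
      ∃ q : HE X i d →+ HX X i d, Function.Surjective q ∧ Finite q.ker

/-- Projective bundle formula for `X × ℙʳ`: `Hⁱ(X, ℚ(m))` is a direct summand of
`Hⁱ⁺²ʳ(X × ℙʳ, ℚ(m+r))`. -/
def Bundle (HX : Scheme.{0} → ℤ → ℤ → ModuleCat.{0} ℚ) : Prop :=
  ∀ (p : ℕ) [Fact p.Prime] (X : Scheme.{0}) (f : X ⟶ SpecFp p), IsSPC p X f → ∀ d : ℕ,
    topologicalKrullDim X = d → ∀ i m : ℤ, ∀ y : HX X i m, y ≠ 0 → ∀ r : ℕ,
      ∃ (X' : Scheme.{0}) (f' : X' ⟶ SpecFp p), IsSPC p X' f' ∧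
        topologicalKrullDim X' = (d + r : ℕ) ∧ ∃ y' : HX X' (i + 2 * r) (m + r), y' ≠ 0

/-- Rational motivic cohomology of rings (`Theory`), the groups `HE X i m = Hⁱ(X_et, ℤ(m))` and
`HX X i m = Hⁱ(X, ℚ(m))` of schemes, and the published facts about them. -/
structure TopTheory extends Theory where
  HE : Scheme.{0} → ℤ → ℤ → AddCommGrpCat.{0}
  HX : Scheme.{0} → ℤ → ℤ → ModuleCat.{0} ℚ
  localization : Localization H
  quillen : QuillenAll H
  coniveau : ConiveauP H HX
  models : ModelsP H HX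
  torsion : TorsionTop HE HX
  bundle : Bundle HX

variable (M : TopTheory) (p : ℕ) [Fact p.Prime] (D : ℕ)

/-- `Hⁱ(X_et, ℤ(dim X))` is finitely generated for all `i < dim X` and all `X`, smooth, proper,
connected and of dimension at most `D` over `𝔽_p` -/
def LowerFG : Prop :=
  ∀ (X : Scheme.{0}) (f : X ⟶ SpecFp p), IsSPC p X f → ∀ d : ℕ, d ≤ D →
    topologicalKrullDim X = d → ∀ i : ℤ, i < d → AddGroup.FG (M.HE X i d)

/-- `Hⁱ(X_et, ℤ(dim X))` is finite for all `i < dim X` and all `X`, smooth, proper, connected and of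
dimension at most `D` over `𝔽_p` -/
def LowerFinite : Prop :=
  ∀ (X : Scheme.{0}) (f : X ⟶ SpecFp p), IsSPC p X f → ∀ d : ℕ, d ≤ D →
    topologicalKrullDim X = d → ∀ i : ℤ, i < d → Finite (M.HE X i d)

/-- `Hⁱ(𝔽_p(t₁, …, t_{D+1}), ℚ(D+1))` is finite dimensional for all `i < D+1` -/
def TopRationalFinite : Prop :=
  ∀ i : ℤ, i < D + 1 → FiniteAt (M.H i (D + 1)) (ZMod p) (D + 1)

/-- `Hⁱ(𝔽_p(t₁, …, t_{D+1}), ℚ(D+1)) = 0` for all `i < D+1` -/
def TopRationalZero : Prop :=
  ∀ i : ℤ, i < D + 1 → ∀ x : (M.H i (D + 1)).obj (ratRing (ZMod p) (D + 1)), x = 0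

/-- `Hⁱ(E, ℚ(D)) = 0` for all `i < D` and all fields `E` of transcendence degree at most `D` over
`𝔽_p` -/
def TopFieldsZero : Prop := ∀ i : ℤ, i < D → VanishAt (M.H i D) (ZMod p) D

/-- `Hⁱ(X_et, ℤ(dim X))` is finitely generated for all `i` with `0 ≤ i < dim X` and all `X`, smooth,
proper and connected over `𝔽_p` -/
def LowerHalf : Prop :=
  ∀ (X : Scheme.{0}) (f : X ⟶ SpecFp p), IsSPC p X f → ∀ d : ℕ,
    topologicalKrullDim X = d → ∀ i : ℤ, 0 ≤ i → i < d → AddGroup.FG (M.HE X i d)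

variable {M p D}

theorem zeroTop_prime (j m : ℤ) (hm : j ≠ 0 ∨ m ≠ 0) (x : V (M.H j m) (ZMod p)) : x = 0 := by
  obtain ⟨k, _, _, hk⟩ := exists_closure (ZMod p)
  exact (injective_iff_map_eq_zero _).1 ((M.good j m).inj (algebraMap (ZMod p) k)) x
    (M.quillen p k j m hm _)

theorem law_top (i : ℤ) (hi : i < D) :
    [VanishAt (M.H i D) (ZMod p) D, FiniteAt (M.H (i + 1) (D + 1)) (ZMod p) (D + 1),
      RigidAt (M.H (i + 1) (D + 1)) (ZMod p) (D + 1)].TFAE := by
  have h0 : Module.Finite ℚ (V (M.H (i + 1) ((D : ℤ) + 1)) (ZMod p)) := by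
    have : Subsingleton (V (M.H (i + 1) ((D : ℤ) + 1)) (ZMod p)) :=
      ⟨fun x y => (zeroTop_prime _ _ (Or.inr (by omega)) x).trans
        (zeroTop_prime _ _ (Or.inr (by omega)) y).symm⟩
    infer_instance
  exact law M.good M.localization i D (ZMod p) bot_eq_top_zmod
    (fun k _ _ _ => M.quillen p k i D (by omega)) h0 D

theorem topFields_iff : TopFieldsZero M p D ↔ TopRationalFinite M p D := by
  constructor
  · intro h j hj
    have h1 := ((law_top (M := M) (p := p) (D := D) (j - 1) (by omega)).out 0 1).1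
      (h (j - 1) (by omega))
    rwa [sub_add_cancel] at h1
  · intro h j hj
    exact ((law_top (M := M) (p := p) (D := D) j hj).out 0 1).2 (h (j + 1) (by omega))

theorem topZero_iff : TopRationalZero M p D ↔ TopRationalFinite M p D := by
  constructor
  · intro h j hj
    have : Subsingleton ((M.H j (D + 1)).obj (ratRing (ZMod p) (D + 1))) :=
      ⟨fun x y => (h j hj x).trans (h j hj y).symm⟩
    change Module.Finite ℚ ((M.H j (D + 1)).obj (ratRing (ZMod p) (D + 1)))
    infer_instance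
  · intro h j hj x
    have h1 := ((law_top (M := M) (p := p) (D := D) (j - 1) (by omega)).out 1 2).1
      (by rw [sub_add_cancel]; exact h j hj)
    rw [sub_add_cancel] at h1
    obtain ⟨y, rfl⟩ := h1.2 x
    rw [zeroTop_prime j _ (Or.inr (by omega)) y, map_zero]

/-- the condition for `D` implies the condition for all `s ≤ D` -/
theorem TopFieldsZero.mono (h : TopFieldsZero M p D) {s : ℕ} (hs : s ≤ D) :
    TopFieldsZero M p s := by
  intro i hi E _ _ hE x
  by_contra hx
  obtain ⟨F', i1, i2, h2, hex⟩ := exists_units_trdeg M.toTheory (P := ZMod p) (D - s) i s E x hx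
  have h3 : (s : ℤ) + ((D - s : ℕ) : ℤ) = D := by
    push_cast [hs]
    ring
  rw [h3] at hex
  obtain ⟨y, hy⟩ := hex
  refine hy (h _ (by omega) F' ?_ y)
  rw [h2]
  calc Algebra.trdeg (ZMod p) E + ((D - s : ℕ) : Cardinal) ≤ s + ((D - s : ℕ) : Cardinal) := by
        gcongr
    _ = ((s + (D - s) : ℕ) : Cardinal) := by push_cast; rfl
    _ ≤ D := by exact_mod_cast (by omega : s + (D - s) ≤ D)

/-- the vanishing for fields gives the vanishing for smooth proper schemes -/
theorem zero_of_topFields (h : TopFieldsZero M p D) (X : Scheme.{0}) (f : X ⟶ SpecFp p)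
    (hf : IsSPC p X f) (d : ℕ) (hd : d ≤ D) (hX : topologicalKrullDim X = d) (i : ℤ) (hi : i < d)
    (y : M.HX X i d) : y = 0 := by
  by_contra hy
  obtain ⟨x, c, s, -, hs, hsc, h2⟩ := M.coniveau p X f hf d hX i d y hy
  have h1 : (d : ℤ) - c = s := by omega
  rw [h1] at h2
  obtain ⟨z, hz⟩ := h2
  let : Algebra (ZMod p) (X.residueField x) := residueAlgebra p X f x
  refine hz (h.mono (by omega : s ≤ D) (i - 2 * c) (by omega) (X.residueField x) ?_ z)
  have h5 : Algebra.trdeg (ZMod p) (X.residueField x) = s := hs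
  exact h5.le

/-- the vanishing for smooth proper schemes gives the vanishing for fields -/
theorem topFields_of_zero (h : ∀ (X : Scheme.{0}) (f : X ⟶ SpecFp p), IsSPC p X f → ∀ d : ℕ,
    d ≤ D → topologicalKrullDim X = d → ∀ i : ℤ, i < d → ∀ y : M.HX X i d, y = 0) :
    TopFieldsZero M p D := by
  have h1 : ∀ s : ℕ, s ≤ D → TopFieldsZero M p s := by
    intro s
    induction s using Nat.strong_induction_on with
    | _ s ih =>
      intro hs i hi E _ _ hE x
      by_contra hx
      obtain ⟨K, _, _, hf, hK, y, hy⟩ := exists_exact (M.good i s) (ZMod p) E s hE x hx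
      obtain ⟨X, f, hf, hX, ⟨z, hz⟩ | ⟨q, c, s', hc, -, hs', hcs, h2⟩⟩ :=
        M.models p K s hK i s y hy
      · exact hz (h X f hf s hs hX i hi z)
      · have h3 : (s : ℤ) - c = s' := by omega
        rw [h3] at h2
        obtain ⟨z, hz⟩ := h2
        let : Algebra (ZMod p) (X.residueField q) := residueAlgebra p X f q
        refine hz (ih s' (by omega) (by omega) (i + 1 - 2 * c) (by omega) (X.residueField q) ?_ z)
        have h5 : Algebra.trdeg (ZMod p) (X.residueField q) = s' := hs'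
        exact h5.le
  exact h1 D le_rfl

theorem zero_of_FG_top (X : Scheme.{0}) (f : X ⟶ SpecFp p) (hf : IsSPC p X f) (d : ℕ)
    (hX : topologicalKrullDim X = d) (i : ℤ) (hi : i < 2 * d) (h : AddGroup.FG (M.HE X i d))
    (y : M.HX X i d) : y = 0 := by
  obtain ⟨q, hq, -⟩ := M.torsion p X f hf d hX i hi
  have h1 : AddGroup.FG (M.HX X i d) := AddGroup.fg_of_surjective hq
  exact eq_zero_of_fg _ (Module.Finite.iff_addGroup_fg.2 h1) y

theorem finite_of_zero_top (X : Scheme.{0}) (f : X ⟶ SpecFp p) (hf : IsSPC p X f) (d : ℕ)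
    (hX : topologicalKrullDim X = d) (i : ℤ) (hi : i < 2 * d) (h : ∀ y : M.HX X i d, y = 0) :
    Finite (M.HE X i d) := by
  obtain ⟨q, -, hq⟩ := M.torsion p X f hf d hX i hi
  have h1 : q.ker = ⊤ := by
    rw [eq_top_iff]
    intro x _
    exact h (q x)
  have h2 : Finite (⊤ : AddSubgroup (M.HE X i d)) := by
    rw [← h1]
    exact hq
  exact Finite.of_equiv _ AddSubgroup.topEquiv.toEquiv

/-- **The law in the weight of the dimension.** For a prime `p` and `D ≥ 0` equivalent are: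

1. `Hⁱ(X_et, ℤ(dim X))` is finitely generated for all `i < dim X` and all `X`, smooth, proper,
   connected and of dimension at most `D` over `𝔽_p`;
2. all these groups are finite;
3. `Hⁱ(𝔽_p(t₁, …, t_{D+1}), ℚ(D+1))` is finite dimensional for all `i < D+1`;
4. `Hⁱ(𝔽_p(t₁, …, t_{D+1}), ℚ(D+1)) = 0` for all `i < D+1`;
5. `Hⁱ(E, ℚ(D)) = 0` for all `i < D` and all fields `E` of transcendence degree at most `D` over
   `𝔽_p`. -/
theorem main_top (M : TopTheory) (p : ℕ) [Fact p.Prime] (D : ℕ) :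
    [LowerFG M p D, LowerFinite M p D, TopRationalFinite M p D, TopRationalZero M p D,
      TopFieldsZero M p D].TFAE := by
  tfae_have 3 ↔ 4 := topZero_iff.symm
  tfae_have 3 ↔ 5 := topFields_iff.symm
  tfae_have 5 → 2 := by
    intro h X f hf d hd hX i hi
    exact finite_of_zero_top X f hf d hX i (by omega)
      fun y => zero_of_topFields h X f hf d hd hX i hi y
  tfae_have 2 → 1 := by
    intro h X f hf d hd hX i hi
    have := h X f hf d hd hX i hi
    infer_instance
  tfae_have 1 → 5 := by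
    intro h
    refine topFields_of_zero fun X f hf d hd hX i hi y => ?_
    exact zero_of_FG_top X f hf d hX i (by omega) (h X f hf d hd hX i hi) y
  tfae_finish

/-- all degrees `i < dim X` follow from the degrees `0 ≤ i < dim X` -/
theorem lowerHalf_iff (M : TopTheory) (p : ℕ) [Fact p.Prime] :
    LowerHalf M p ↔ ∀ D : ℕ, LowerFG M p D := by
  constructor
  · intro h D
    refine ((main_top M p D).out 0 4).2 (topFields_of_zero fun X f hf d hd hX i hi y => ?_)
    rcases le_or_gt 0 i with hi0 | hi0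
    · exact zero_of_FG_top X f hf d hX i (by omega) (h X f hf d hX i hi0 hi) y
    · rcases Nat.eq_zero_or_pos d with rfl | hd0
      · by_contra hy
        obtain ⟨x, c, s, -, hs, hsc, h2⟩ := M.coniveau p X f hf 0 hX i (0 : ℕ) y hy
        obtain rfl : c = 0 := by omega
        obtain rfl : s = 0 := by omega
        obtain ⟨z, hz⟩ := h2
        let : Algebra (ZMod p) (X.residueField x) := residueAlgebra p X f x
        have h5 : Algebra.trdeg (ZMod p) (X.residueField x) = (0 : ℕ) := hs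
        have h6 : Algebra.IsAlgebraic (ZMod p) (X.residueField x) := by
          rw [← _root_.trdeg_eq_zero_iff]
          simpa using h5
        let k := AlgebraicClosure (X.residueField x)
        have h7 : IsAlgClosure (ZMod p) k :=
          ⟨inferInstance, Algebra.IsAlgebraic.trans (ZMod p) (X.residueField x) k⟩
        exact hz ((injective_iff_map_eq_zero _).1 ((M.good _ _).inj
          (algebraMap (X.residueField x) k)) z (M.quillen p k _ _ (Or.inl (by omega)) _))
      · by_contra hy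
        obtain ⟨X', f', hf', hX', h2⟩ := M.bundle p X f hf d hX i d y hy (-i).toNat
        have h1 : ((d : ℤ) + ((-i).toNat : ℤ)) = ((d + (-i).toNat : ℕ) : ℤ) := by push_cast; rfl
        rw [h1] at h2
        obtain ⟨y', hy'⟩ := h2
        have h3 : ((-i).toNat : ℤ) = -i := Int.toNat_of_nonneg (by omega)
        exact hy' (zero_of_FG_top X' f' hf' _ hX' _ (by push_cast; omega)
          (h X' f' hf' _ hX' _ (by omega) (by push_cast; omega)) y')
  · intro h X f hf d hX i _ hi
    exact h d X f hf d le_rfl hX i hi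

end Pool.Agent.H51BS
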